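import Mathlib

/-!
Registration of the closure properties of primitive recursive functions for `fun_prop`.
-/

namespace Pool.Agent.GWP.Prim

attribute [fun_prop] Primrec

section
variable {α β γ δ σ : Type*} [Primcodable α] [Primcodable β] [Primcodable γ] [Primcodable δ]
  [Primcodable σ]

@[fun_prop] theorem id' : Primrec (fun x : α => x) := Primrec.id

@[fun_prop] theorem const' (y : β) : Primrec (fun _ : α => y) := Primrec.const y

@[fun_prop] theorem comp' {f : β → σ} {g : α → β} (hf : Primrec f) (hg : Primrec g) :
    Primrec fun a => f (g a) := hf.comp hg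

@[fun_prop] theorem fst' {f : α → β × γ} (hf : Primrec f) : Primrec fun a => (f a).1 :=
  Primrec.fst.comp hf

@[fun_prop] theorem snd' {f : α → β × γ} (hf : Primrec f) : Primrec fun a => (f a).2 :=
  Primrec.snd.comp hf

@[fun_prop] theorem pair' {f : α → β} {g : α → γ} (hf : Primrec f) (hg : Primrec g) :
    Primrec fun a => (f a, g a) := hf.pair hg

@[fun_prop] theorem add' {f g : α → ℕ} (hf : Primrec f) (hg : Primrec g) :
    Primrec fun a => f a + g a := Primrec.nat_add.comp hf hg

@[fun_prop] theorem sub' {f g : α → ℕ} (hf : Primrec f) (hg : Primrec g) :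
    Primrec fun a => f a - g a := Primrec.nat_sub.comp hf hg

@[fun_prop] theorem mul' {f g : α → ℕ} (hf : Primrec f) (hg : Primrec g) :
    Primrec fun a => f a * g a := Primrec.nat_mul.comp hf hg

@[fun_prop] theorem div' {f g : α → ℕ} (hf : Primrec f) (hg : Primrec g) :
    Primrec fun a => f a / g a := Primrec.nat_div.comp hf hg

@[fun_prop] theorem mod' {f g : α → ℕ} (hf : Primrec f) (hg : Primrec g) :
    Primrec fun a => f a % g a := Primrec.nat_mod.comp hf hg

@[fun_prop] theorem pow' {f g : α → ℕ} (hf : Primrec f) (hg : Primrec g) :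
    Primrec fun a => f a ^ g a :=
  (Primrec₂.unpaired'.1 Nat.Primrec.pow).comp hf hg

@[fun_prop] theorem succ' {f : α → ℕ} (hf : Primrec f) : Primrec fun a => Nat.succ (f a) :=
  Primrec.succ.comp hf

@[fun_prop] theorem natPair' {f g : α → ℕ} (hf : Primrec f) (hg : Primrec g) :
    Primrec fun a => Nat.pair (f a) (g a) := Primrec₂.natPair.comp hf hg

@[fun_prop] theorem unpair' {f : α → ℕ} (hf : Primrec f) : Primrec fun a => Nat.unpair (f a) :=
  Primrec.unpair.comp hf

@[fun_prop] theorem encode' {f : α → β} (hf : Primrec f) :
    Primrec fun a => Encodable.encode (f a) := Primrec.encode.comp hf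

@[fun_prop] theorem decode' {f : α → ℕ} (hf : Primrec f) :
    Primrec fun a => (Encodable.decode (f a) : Option β) := Primrec.decode.comp hf

@[fun_prop] theorem and' {f g : α → Bool} (hf : Primrec f) (hg : Primrec g) :
    Primrec fun a => (f a && g a) := Primrec.and.comp hf hg

@[fun_prop] theorem or' {f g : α → Bool} (hf : Primrec f) (hg : Primrec g) :
    Primrec fun a => (f a || g a) := Primrec.or.comp hf hg

@[fun_prop] theorem not' {f : α → Bool} (hf : Primrec f) : Primrec fun a => !f a :=
  Primrec.not.comp hf

@[fun_prop] theorem cond' {c : α → Bool} {f g : α → β} (hc : Primrec c) (hf : Primrec f)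
    (hg : Primrec g) : Primrec fun a => bif c a then f a else g a := Primrec.cond hc hf hg

@[fun_prop] theorem decide_eq' [DecidableEq β] {f g : α → β} (hf : Primrec f) (hg : Primrec g) :
    Primrec fun a => decide (f a = g a) := (PrimrecRel.comp Primrec.eq hf hg).decide

@[fun_prop] theorem decide_le' {f g : α → ℕ} (hf : Primrec f) (hg : Primrec g) :
    Primrec fun a => decide (f a ≤ g a) := (PrimrecRel.comp Primrec.nat_le hf hg).decide

@[fun_prop] theorem decide_lt' {f g : α → ℕ} (hf : Primrec f) (hg : Primrec g) :
    Primrec fun a => decide (f a < g a) := (PrimrecRel.comp Primrec.nat_lt hf hg).decide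

@[fun_prop] theorem some' {f : α → β} (hf : Primrec f) : Primrec fun a => some (f a) :=
  Primrec.option_some.comp hf

@[fun_prop] theorem isSome' {f : α → Option β} (hf : Primrec f) :
    Primrec fun a => (f a).isSome := Primrec.option_isSome.comp hf

@[fun_prop] theorem getD' {f : α → Option β} {g : α → β} (hf : Primrec f) (hg : Primrec g) :
    Primrec fun a => (f a).getD (g a) := Primrec.option_getD.comp hf hg

@[fun_prop] theorem optMap' {f : α → Option β} {g : α → β → σ} (hf : Primrec f)
    (hg : Primrec fun z : α × β => g z.1 z.2) : Primrec fun a => (f a).map (g a) :=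
  Primrec.option_map hf hg

@[fun_prop] theorem optBind' {f : α → Option β} {g : α → β → Option σ} (hf : Primrec f)
    (hg : Primrec fun z : α × β => g z.1 z.2) : Primrec fun a => (f a).bind (g a) :=
  Primrec.option_bind hf hg

@[fun_prop] theorem cons' {f : α → β} {g : α → List β} (hf : Primrec f) (hg : Primrec g) :
    Primrec fun a => f a :: g a := Primrec.list_cons.comp hf hg

@[fun_prop] theorem append' {f g : α → List β} (hf : Primrec f) (hg : Primrec g) :
    Primrec fun a => f a ++ g a := Primrec.list_append.comp hf hg

@[fun_prop] theorem length' {f : α → List β} (hf : Primrec f) :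
    Primrec fun a => (f a).length := Primrec.list_length.comp hf

@[fun_prop] theorem reverse' {f : α → List β} (hf : Primrec f) :
    Primrec fun a => (f a).reverse := Primrec.list_reverse.comp hf

@[fun_prop] theorem tail' {f : α → List β} (hf : Primrec f) :
    Primrec fun a => (f a).tail := Primrec.list_tail.comp hf

@[fun_prop] theorem range' {f : α → ℕ} (hf : Primrec f) :
    Primrec fun a => List.range (f a) := Primrec.list_range.comp hf

@[fun_prop] theorem take' {f : α → ℕ} {g : α → List β} (hf : Primrec f) (hg : Primrec g) :
    Primrec fun a => (g a).take (f a) := Primrec.list_take.comp hf hg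

@[fun_prop] theorem drop' {f : α → ℕ} {g : α → List β} (hf : Primrec f) (hg : Primrec g) :
    Primrec fun a => (g a).drop (f a) := Primrec.list_drop.comp hf hg

@[fun_prop] theorem getElem?' {f : α → List β} {g : α → ℕ} (hf : Primrec f) (hg : Primrec g) :
    Primrec fun a => (f a)[g a]? := Primrec.list_getElem?.comp hf hg

@[fun_prop] theorem flatten' {f : α → List (List β)} (hf : Primrec f) :
    Primrec fun a => (f a).flatten := Primrec.list_flatten.comp hf

@[fun_prop] theorem map' {f : α → List β} {g : α → β → σ} (hf : Primrec f)
    (hg : Primrec fun z : α × β => g z.1 z.2) : Primrec fun a => (f a).map (g a) :=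
  Primrec.list_map hf hg

@[fun_prop] theorem flatMap' {f : α → List β} {g : α → β → List σ} (hf : Primrec f)
    (hg : Primrec fun z : α × β => g z.1 z.2) : Primrec fun a => (f a).flatMap (g a) :=
  Primrec.list_flatMap hf hg

@[fun_prop] theorem foldr' {f : α → List β} {g : α → β → σ → σ} {i : α → σ} (hf : Primrec f)
    (hi : Primrec i) (hg : Primrec fun z : α × (β × σ) => g z.1 z.2.1 z.2.2) :
    Primrec fun a => (f a).foldr (g a) (i a) :=
  Primrec.list_foldr (h := fun a (z : β × σ) => g a z.1 z.2) hf hi hg

@[fun_prop] theorem foldl' {f : α → List β} {g : α → σ → β → σ} {i : α → σ} (hf : Primrec f)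
    (hi : Primrec i) (hg : Primrec fun z : α × (σ × β) => g z.1 z.2.1 z.2.2) :
    Primrec fun a => (f a).foldl (g a) (i a) :=
  Primrec.list_foldl (h := fun a (z : σ × β) => g a z.1 z.2) hf hi hg

/-- Lookup in an association list. -/
def lk {α β : Type*} [DecidableEq α] (a : α) (l : List (α × β)) : Option β :=
  @List.lookup α β instBEqOfDecidableEq a l

@[fun_prop] theorem lookup' [DecidableEq β] {f : α → β} {g : α → List (β × γ)} (hf : Primrec f)
    (hg : Primrec g) : Primrec fun a => lk (f a) (g a) :=
  Primrec.listLookup.comp hf hg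

@[simp] theorem lk_nil {α β : Type*} [DecidableEq α] (a : α) :
    lk a ([] : List (α × β)) = none := rfl

theorem lk_cons {α β : Type*} [DecidableEq α] (a : α) (z : α × β) (l : List (α × β)) :
    lk a (z :: l) = if a = z.1 then some z.2 else lk a l := by
  unfold lk
  obtain ⟨a', b⟩ := z
  rw [List.lookup_cons]
  by_cases h : a = a'
  · subst h; simp
  · have : (a == a') = false := by simpa using h
    rw [this]; simp [h]

@[fun_prop] theorem filter' {f : α → List β} {g : α → β → Bool} (hf : Primrec f)
    (hg : Primrec fun z : α × β => g z.1 z.2) : Primrec fun a => (f a).filter (g a) := by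
  have h1 : Primrec fun a => (f a).flatMap fun b => bif g a b then [b] else [] := by fun_prop
  refine h1.of_eq fun a => ?_
  induction f a with
  | nil => rfl
  | cons b l ih =>
    rw [List.flatMap_cons, ih, List.filter_cons]
    cases g a b <;> simp

@[fun_prop] theorem all' {f : α → List β} {g : α → β → Bool} (hf : Primrec f)
    (hg : Primrec fun z : α × β => g z.1 z.2) : Primrec fun a => (f a).all (g a) := by
  have h1 : Primrec fun a => (f a).foldr (fun b acc => g a b && acc) true := by fun_prop
  refine h1.of_eq fun a => ?_
  induction f a with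
  | nil => rfl
  | cons b l ih => rw [List.foldr_cons, ih, List.all_cons]

@[fun_prop] theorem any' {f : α → List β} {g : α → β → Bool} (hf : Primrec f)
    (hg : Primrec fun z : α × β => g z.1 z.2) : Primrec fun a => (f a).any (g a) := by
  have h1 : Primrec fun a => (f a).foldr (fun b acc => g a b || acc) false := by fun_prop
  refine h1.of_eq fun a => ?_
  induction f a with
  | nil => rfl
  | cons b l ih => rw [List.foldr_cons, ih, List.any_cons]

@[fun_prop] theorem sum' {f : α → List ℕ} (hf : Primrec f) : Primrec fun a => (f a).sum := by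
  have h1 : Primrec fun a => (f a).foldr (fun b acc => b + acc) 0 := by fun_prop
  exact h1.of_eq fun a => by rw [List.sum_eq_foldr]

@[fun_prop] theorem countP' {f : α → List β} {g : α → β → Bool} (hf : Primrec f)
    (hg : Primrec fun z : α × β => g z.1 z.2) : Primrec fun a => (f a).countP (g a) := by
  have h1 : Primrec fun a => ((f a).filter (g a)).length := by fun_prop
  exact h1.of_eq fun a => by rw [List.countP_eq_length_filter]

@[fun_prop] theorem decide_mem' [DecidableEq β] {f : α → β} {g : α → List β} (hf : Primrec f)
    (hg : Primrec g) : Primrec fun a => decide (f a ∈ g a) := by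
  have h1 : Primrec fun a => (g a).any fun b => decide (b = f a) := by fun_prop
  refine h1.of_eq fun a => ?_
  rw [Bool.eq_iff_iff]
  simp

/-- Boolean membership. -/
def memB {α : Type*} [DecidableEq α] (a : α) (l : List α) : Bool := l.any fun b => decide (b = a)

@[fun_prop] theorem memB' [DecidableEq β] {f : α → β} {g : α → List β} (hf : Primrec f)
    (hg : Primrec g) : Primrec fun a => memB (f a) (g a) := by
  unfold memB; fun_prop

@[simp] theorem memB_iff {α : Type*} [DecidableEq α] {a : α} {l : List α} :
    memB a l = true ↔ a ∈ l := by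
  unfold memB; simp

@[fun_prop] theorem decide_isSuffix' [DecidableEq β] {f g : α → List β} (hf : Primrec f)
    (hg : Primrec g) : Primrec fun a => decide (f a <:+ g a) := by
  have h1 : Primrec fun a => decide ((g a).drop ((g a).length - (f a).length) = f a) := by
    fun_prop
  refine h1.of_eq fun a => ?_
  rw [decide_eq_decide, List.suffix_iff_eq_drop]
  exact eq_comm

theorem natRec' {f : α → ℕ} {g : α → β} {h : α → ℕ → β → β} (hf : Primrec f) (hg : Primrec g)
    (hh : Primrec fun z : α × (ℕ × β) => h z.1 z.2.1 z.2.2) :
    Primrec fun a => Nat.rec (motive := fun _ => β) (g a) (fun n ih => h a n ih) (f a) :=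
  Primrec.nat_rec' (h := fun a (z : ℕ × β) => h a z.1 z.2) hf hg hh

theorem listRec' {f : α → List β} {g : α → σ} {h : α → β → List β → σ → σ} (hf : Primrec f)
    (hg : Primrec g) (hh : Primrec fun z : α × (β × List β × σ) => h z.1 z.2.1 z.2.2.1 z.2.2.2) :
    Primrec fun a => List.rec (motive := fun _ => σ) (g a) (fun b l ih => h a b l ih) (f a) :=
  Primrec.list_rec (h := fun a (z : β × List β × σ) => h a z.1 z.2.1 z.2.2) hf hg hh

end

end Pool.Agent.GWP.Prim
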