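import Pool.Agent.GWP.Hist
import Pool.Agent.GWP.Prim

/-!
Strategies for the history game as finite tables, and the primitive recursive predicate which
checks them.
-/

namespace Pool.Agent.GWP

/-- Snapshots: association lists of the numbers of particles with a given history. -/
abbrev Snap : Type := List (Hist × ℕ)

/-- Responses of the player. -/
abbrev Resp : Type := List ((Bool × ℕ × ℕ) × Bool × ℕ)

/-- The flow of a snapshot. -/
def cOf (v : Snap) (h : Hist) : ℕ := (Prim.lk h v).getD 0

/-- The snapshot of a flow. -/
def mkSnap (Hs : List Hist) (c : Hist → ℕ) : Snap := Hs.map fun h => (h, c h)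

/-- All snapshots with entries at most `M`. -/
def allA (M : ℕ) (Hs : List Hist) : List Snap :=
  Hs.foldr (fun h acc => acc.flatMap fun v => (List.range (M + 1)).map fun k => (h, k) :: v) [[]]

theorem mem_allA {M : ℕ} {Hs : List Hist} {v : Snap} :
    v ∈ allA M Hs ↔ v.map Prod.fst = Hs ∧ ∀ z ∈ v, z.2 ≤ M := by
  induction Hs generalizing v with
  | nil =>
    unfold allA
    simp only [List.foldr_nil, List.mem_singleton, List.map_eq_nil_iff]
    constructor
    · rintro rfl; simp
    · exact fun h => h.1
  | cons h Hs ih =>
    have : allA M (h :: Hs) = (allA M Hs).flatMap fun v =>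
      (List.range (M + 1)).map fun k => (h, k) :: v := rfl
    rw [this, List.mem_flatMap]
    constructor
    · rintro ⟨v', hv', hm⟩
      rw [List.mem_map] at hm
      obtain ⟨k, hk, rfl⟩ := hm
      obtain ⟨h1, h2⟩ := ih.1 hv'
      refine ⟨by simp [h1], ?_⟩
      intro z hz
      rcases List.mem_cons.1 hz with rfl | hz
      · exact Nat.lt_succ_iff.1 (List.mem_range.1 hk)
      · exact h2 z hz
    · rintro ⟨h1, h2⟩
      cases v with
      | nil => simp at h1
      | cons z v =>
        rw [List.map_cons] at h1
        obtain ⟨h3, h4⟩ := List.cons.inj h1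
        refine ⟨v, ih.2 ⟨h4, fun z hz => h2 z (List.mem_cons_of_mem _ hz)⟩, ?_⟩
        rw [List.mem_map]
        refine ⟨z.2, List.mem_range.2 (Nat.lt_succ_of_le (h2 z List.mem_cons_self)), ?_⟩
        rw [← h3]

theorem mkSnap_mem_allA {M : ℕ} {Hs : List Hist} {c : Hist → ℕ} (hc : ∀ h ∈ Hs, c h ≤ M) :
    mkSnap Hs c ∈ allA M Hs := by
  rw [mem_allA]
  unfold mkSnap
  refine ⟨by simp [Function.comp_def], ?_⟩
  intro z hz
  rw [List.mem_map] at hz
  obtain ⟨h, hh, rfl⟩ := hz
  exact hc h hh

theorem cOf_mkSnap {Hs : List Hist} {c : Hist → ℕ} {h : Hist} :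
    cOf (mkSnap Hs c) h = if h ∈ Hs then c h else 0 := by
  unfold cOf mkSnap
  induction Hs with
  | nil => simp
  | cons g Hs ih =>
    rw [List.map_cons, Prim.lk_cons]
    by_cases hg : h = g
    · subst hg
      simp
    · rw [if_neg hg, ih]
      simp [hg]

theorem lookup_mem {α β : Type*} [DecidableEq α] {a : α} {b : β} {l : List (α × β)}
    (h : Prim.lk a l = some b) : (a, b) ∈ l := by
  induction l with
  | nil => simp at h
  | cons z l ih =>
    obtain ⟨a', b'⟩ := z
    rw [Prim.lk_cons] at h
    by_cases ha : a = a'
    · subst ha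
      simp at h
      subst h
      exact List.mem_cons_self
    · rw [if_neg ha] at h
      exact List.mem_cons_of_mem _ (ih h)

theorem cOf_ne_zero {v : Snap} {h : Hist} (hv : cOf v h ≠ 0) : (h, cOf v h) ∈ v := by
  unfold cOf at hv ⊢
  cases hl : Prim.lk h v with
  | none => rw [hl] at hv; exact absurd rfl hv
  | some k => exact lookup_mem hl

theorem cOf_le {M : ℕ} {Hs : List Hist} {v : Snap} (hv : v ∈ allA M Hs) (h : Hist) :
    cOf v h ≤ M := by
  by_cases h0 : cOf v h = 0
  · rw [h0]; exact Nat.zero_le _
  · exact (mem_allA.1 hv).2 _ (cOf_ne_zero h0)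

theorem cOf_legal {M : ℕ} {Hs : List Hist} {v : Snap} (hv : v ∈ allA M Hs) {h : Hist}
    (h0 : cOf v h ≠ 0) : h ∈ Hs := by
  rw [← (mem_allA.1 hv).1]
  exact List.mem_map.2 ⟨_, cOf_ne_zero h0, rfl⟩

/-- The flow condition. -/
def flowB (N A B M : ℕ) (v : Snap) : Bool :=
  decide (cOf v [] = M) && (allH N A B).all fun h =>
    decide ((((facts N).map fun e => cOf v (e :: h)).sum) ≤ cOf v h)

/-- The current snapshot. -/
def curS (N A B M : ℕ) (cs : List Snap) : Snap :=
  cs[0]?.getD (mkSnap (allH N A B) (initC M))

/-- Legal next snapshots. -/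
def nextB (N A B M : ℕ) (cs : List Snap) (v : Snap) : Bool :=
  flowB N A B M v && ((allH N A B).all (fun h => decide (cOf (curS N A B M cs) h ≤ cOf v h)) &&
    (allH N A B).any (fun h => decide (cOf (curS N A B M cs) h < cOf v h)))

/-- Removal of duplicates. -/
def dd {α : Type} [DecidableEq α] (l : List α) : List α :=
  l.foldr (fun a acc => bif decide (a ∈ acc) then acc else a :: acc) []

theorem mem_dd {α : Type} [DecidableEq α] {l : List α} {a : α} : a ∈ dd l ↔ a ∈ l := by
  induction l with
  | nil => simp [dd]
  | cons b l ih =>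
    have : dd (b :: l) = bif decide (b ∈ dd l) then dd l else b :: dd l := rfl
    rw [this]
    by_cases hb : b ∈ dd l
    · rw [decide_eq_true hb, cond_true, ih, List.mem_cons]
      constructor
      · exact Or.inr
      · rintro (rfl | h)
        · exact ih.1 hb
        · exact h
    · rw [decide_eq_false hb, cond_false, List.mem_cons, ih, List.mem_cons]

theorem dd_nodup {α : Type} [DecidableEq α] (l : List α) : (dd l).Nodup := by
  induction l with
  | nil => simp [dd]
  | cons b l ih =>
    have : dd (b :: l) = bif decide (b ∈ dd l) then dd l else b :: dd l := rfl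
    rw [this]
    by_cases hb : b ∈ dd l
    · rw [decide_eq_true hb, cond_true]; exact ih
    · rw [decide_eq_false hb, cond_false, List.nodup_cons]; exact ⟨hb, ih⟩

/-- The size conditions on a response. -/
def okB (A B NR : ℕ) (F : Resp) : Bool :=
  (F.all fun z =>
    decide ((F.countP fun w => decide (w.1 = z.1) && decide (w.2.1 = true)) ≤ 2 * A) &&
    decide ((F.countP fun w => decide (w.1 = z.1) && decide (w.2.1 = false)) ≤ 2 * B)) &&
  decide ((dd (F.map Prod.fst)).length ≤ NR)

/-- Minimal histories, Boolean version. -/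
def minB (x y : ℕ) (h : Hist) : Bool :=
  (Prim.memB (true, x) h && Prim.memB (false, y) h) &&
    !(Prim.memB (true, x) h.tail && Prim.memB (false, y) h.tail)

theorem minB_eq (x y : ℕ) (h : Hist) : minB x y h = decide (IsMin x y h) := by
  unfold minB IsMin
  rw [Bool.eq_iff_iff]
  simp only [Bool.and_eq_true, Prim.memB_iff, Bool.not_eq_true', decide_eq_true_eq, ← Bool.not_eq_true]

/-- Number of particles containing both. -/
def bothV (N A B : ℕ) (v : Snap) (x y : ℕ) : ℕ :=
  (((allH N A B).filter fun h => minB x y h).map fun h => cOf v h).sum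

theorem bothV_eq (N A B : ℕ) (v : Snap) (x y : ℕ) : bothV N A B v x y = both N A B (cOf v) x y := by
  unfold bothV both
  congr 2
  apply List.filter_congr
  intro h _
  exact minB_eq x y h

/-- The covering condition. -/
def covB (N A B T : ℕ) (v : Snap) (F : Resp) : Bool :=
  (List.range N).all fun x => (List.range N).all fun y =>
    decide (bothV N A B v x y < T) ||
      F.any fun z => decide (z.2 = (true, x)) && Prim.memB (z.1, false, y) F

/-- One step of the check. -/
def stepB (N A B T NR : ℕ) (L : List (List Snap × Resp)) (cs : List Snap) (v : Snap) : Bool :=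
  ((Prim.lk cs L).bind fun F => (Prim.lk (v :: cs) L).map fun F' =>
    (F.all fun z => Prim.memB z F') && (okB A B NR F' && covB N A B T v F')).getD false

/-- The check of a strategy table. -/
def checkL (N A B M T NR : ℕ) (L : List (List Snap × Resp)) : Bool :=
  ((Prim.lk [] L).map fun F => okB A B NR F).getD false &&
    L.all fun pr => (allA M (allH N A B)).all fun v =>
      !(nextB N A B M pr.1 v) || stepB N A B T NR L pr.1 v

/-- The chains of snapshots. -/
def ChainB (N A B M : ℕ) : List Snap → Prop
  | [] => True
  | v :: cs => v ∈ allA M (allH N A B) ∧ nextB N A B M cs v = true ∧ ChainB N A B M cs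

theorem checkL_sound {N A B M T NR : ℕ} {L : List (List Snap × Resp)}
    (hL : checkL N A B M T NR L = true) :
    ∀ cs, ChainB N A B M cs → ∃ F, Prim.lk cs L = some F ∧ okB A B NR F = true ∧
      (cs ≠ [] → covB N A B T (curS N A B M cs) F = true) := by
  unfold checkL at hL
  rw [Bool.and_eq_true] at hL
  obtain ⟨h1, h2⟩ := hL
  intro cs
  induction cs with
  | nil =>
    intro _
    cases hF : Prim.lk [] L with
    | none => rw [hF] at h1; simp at h1
    | some F =>
      rw [hF] at h1
      exact ⟨F, rfl, by simpa using h1, fun h => absurd rfl h⟩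
  | cons v cs ih =>
    intro hc
    obtain ⟨hv, hn, hc'⟩ := hc
    obtain ⟨F, hF, _, _⟩ := ih hc'
    have h3 := List.all_eq_true.1 (List.all_eq_true.1 h2 _ (lookup_mem hF)) v hv
    simp only at h3
    rw [hn] at h3
    simp only [Bool.not_true, Bool.false_or] at h3
    unfold stepB at h3
    rw [hF] at h3
    simp only [Option.bind_some] at h3
    cases hF' : Prim.lk (v :: cs) L with
    | none => rw [hF'] at h3; simp at h3
    | some F' =>
      rw [hF'] at h3
      simp only [Option.map_some, Option.getD_some, Bool.and_eq_true] at h3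
      refine ⟨F', rfl, h3.2.1, fun _ => ?_⟩
      exact h3.2.2

theorem checkL_mono {N A B M T NR : ℕ} {L : List (List Snap × Resp)}
    (hL : checkL N A B M T NR L = true) {cs : List Snap} {v : Snap}
    (hc : ChainB N A B M (v :: cs)) {F F' : Resp} (hF : Prim.lk cs L = some F)
    (hF' : Prim.lk (v :: cs) L = some F') : ∀ z ∈ F, z ∈ F' := by
  unfold checkL at hL
  rw [Bool.and_eq_true] at hL
  obtain ⟨h1, h2⟩ := hL
  obtain ⟨hv, hn, hc'⟩ := hc
  have h3 := List.all_eq_true.1 (List.all_eq_true.1 h2 _ (lookup_mem hF)) v hv
  simp only at h3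
  rw [hn] at h3
  simp only [Bool.not_true, Bool.false_or] at h3
  unfold stepB at h3
  rw [hF, hF'] at h3
  simp only [Option.bind_some, Option.map_some, Option.getD_some, Bool.and_eq_true] at h3
  intro z hz
  have := List.all_eq_true.1 h3.1 z hz
  simpa using this

theorem nil_mem_allH (N A B : ℕ) : ([] : Hist) ∈ allH N A B := by
  rw [mem_allH]
  refine ⟨by simp, by simp, by simp, by simp⟩

theorem cOf_curS_nil {N A B M : ℕ} (h : Hist) : cOf (curS N A B M []) h = initC M h := by
  unfold curS
  simp only [List.getElem?_nil, Option.getD_none]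
  rw [cOf_mkSnap]
  split_ifs with hh
  · rfl
  · unfold initC
    rw [if_neg]
    rintro rfl
    exact hh (nil_mem_allH N A B)

theorem curS_cons {N A B M : ℕ} (v : Snap) (cs : List Snap) : curS N A B M (v :: cs) = v := by
  unfold curS
  simp

theorem hd_map_cOf {N A B M : ℕ} (cs : List Snap) (h : Hist) :
    hd M (cs.map cOf) h = cOf (curS N A B M cs) h := by
  cases cs with
  | nil => rw [List.map_nil, hd, cOf_curS_nil]
  | cons v cs => rw [List.map_cons, hd, curS_cons]

theorem flow_of_flowB {N A B M : ℕ} {v : Snap} (hv : v ∈ allA M (allH N A B))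
    (hf : flowB N A B M v = true) : Flow N A B M (cOf v) := by
  unfold flowB at hf
  rw [Bool.and_eq_true] at hf
  refine ⟨by simpa using hf.1, fun h hh => mem_allH.1 (cOf_legal hv hh), ?_⟩
  intro h
  by_cases hh : h ∈ allH N A B
  · have := List.all_eq_true.1 hf.2 h hh
    simpa using this
  · have : ((facts N).map fun e => cOf v (e :: h)).sum = 0 := by
      rw [List.sum_eq_zero]
      intro x hx
      rw [List.mem_map] at hx
      obtain ⟨e, _, rfl⟩ := hx
      by_contra hne
      apply hh
      rw [mem_allH]
      have h1 := mem_allH.1 (cOf_legal hv hne)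
      refine LegalH.mk' (List.nodup_cons.1 h1.nodup).2
        (fun e' he' => h1.2.1 e' (List.mem_cons_of_mem _ he')) ?_ ?_
      · exact (List.Sublist.countP_le (List.sublist_cons_self _ _)).trans h1.2.2.1
      · exact (List.Sublist.countP_le (List.sublist_cons_self _ _)).trans h1.2.2.2
    rw [this]; exact Nat.zero_le _

theorem validC_of_chainB {N A B M : ℕ} : ∀ {cs : List Snap}, ChainB N A B M cs →
    ValidC N A B M (cs.map cOf) := by
  intro cs
  induction cs with
  | nil => intro _; trivial
  | cons v cs ih =>
    intro hc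
    obtain ⟨hv, hn, hc'⟩ := hc
    unfold nextB at hn
    rw [Bool.and_eq_true, Bool.and_eq_true] at hn
    refine ⟨flow_of_flowB hv hn.1, ?_, ih hc'⟩
    intro h
    rw [hd_map_cOf (N := N) (A := A) (B := B)]
    by_cases hh : h ∈ allH N A B
    · have := List.all_eq_true.1 hn.2.1 h hh
      simpa using this
    · have : cOf (curS N A B M cs) h = 0 := by
        by_contra hne
        apply hh
        cases cs with
        | nil =>
          unfold curS at hne
          simp only [List.getElem?_nil, Option.getD_none] at hne
          rw [cOf_mkSnap] at hne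
          by_contra h2
          rw [if_neg h2] at hne
          exact hne rfl
        | cons w cs =>
          rw [curS_cons] at hne
          exact cOf_legal hc'.1 hne
      rw [this]; exact Nat.zero_le _

theorem chain_measure {N A B M : ℕ} : ∀ {cs : List Snap}, ChainB N A B M cs →
    cs.length ≤ ((allH N A B).map fun h => cOf (curS N A B M cs) h).sum := by
  intro cs
  induction cs with
  | nil => intro _; simp
  | cons v cs ih =>
    intro hc
    obtain ⟨hv, hn, hc'⟩ := hc
    have h1 := ih hc'
    unfold nextB at hn
    rw [Bool.and_eq_true, Bool.and_eq_true] at hn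
    have h2 : ((allH N A B).map fun h => cOf (curS N A B M cs) h).sum <
        ((allH N A B).map fun h => cOf v h).sum := by
      apply List.sum_lt_sum
      · intro h hh
        have := List.all_eq_true.1 hn.2.1 h hh
        simpa using this
      · obtain ⟨h, hh, h3⟩ := List.any_eq_true.1 hn.2.2
        exact ⟨h, hh, by simpa using h3⟩
    rw [curS_cons, List.length_cons]
    omega

theorem chain_length {N A B M : ℕ} {cs : List Snap} (hc : ChainB N A B M cs) :
    cs.length ≤ (allH N A B).length * M := by
  refine (chain_measure hc).trans ?_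
  calc ((allH N A B).map fun h => cOf (curS N A B M cs) h).sum
      ≤ ((allH N A B).map fun _ => M).sum := by
        apply List.sum_le_sum
        intro h _
        cases cs with
        | nil =>
          rw [cOf_curS_nil]
          unfold initC
          split_ifs <;> simp
        | cons v cs =>
          rw [curS_cons]
          exact cOf_le hc.1 h
    _ = _ := by simp

theorem chain_mem {N A B M : ℕ} : ∀ {cs : List Snap}, ChainB N A B M cs →
    ∀ v ∈ cs, v ∈ allA M (allH N A B) := by
  intro cs
  induction cs with
  | nil => intro _ v hv; simp at hv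
  | cons w cs ih =>
    intro hc v hv
    rcases List.mem_cons.1 hv with rfl | hv
    · exact hc.1
    · exact ih hc.2.2 v hv

theorem lookup_map_of_mem {α β : Type*} [DecidableEq α] (f : α → β) {l : List α} {a : α}
    (h : a ∈ l) : Prim.lk a (l.map fun x => (x, f x)) = some (f a) := by
  induction l with
  | nil => simp at h
  | cons b l ih =>
    rw [List.map_cons, Prim.lk_cons]
    by_cases hb : a = b
    · subst hb; simp
    · rw [if_neg hb]
      rcases List.mem_cons.1 h with h' | h'
      · exact absurd h' hb
      · exact ih h'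

/-- A winning strategy table exists. -/
theorem exists_table (M D G A B NX : ℕ) (hM : 1 ≤ M) (hD : 0 < D) (hG : 0 < G) (hA : 0 < A)
    (hB : 0 < B) (hX : 0 < NX) (h1 : NX < 2 ^ M) (h2 : A < 2 ^ M) (h3 : B < 2 ^ M)
    (h4 : 8 * (D * G) < 2 ^ M) :
    ∃ K T : ℕ, 0 < T ∧ D * (T + (allH NX A B).length) ≤ K ∧
      ∃ L : List (List Snap × Resp),
        checkL NX A B (K * G) T (2 ^ 20 * (D * G) * M ^ 7) L = true := by
  classical
  obtain ⟨K, T, hT, hKT, S, hmono, hS⟩ := hist_core M D G A B NX hM hD hG hA hB hX h1 h2 h3 h4
  refine ⟨K, T, hT, hKT, ?_⟩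
  set W := K * G with hW
  set F : List Snap → Resp := fun cs => (S (cs.map cOf)).toList with hF
  set keys := (listsLE (allA W (allH NX A B)) ((allH NX A B).length * W)).filter
    (fun cs => decide (ChainB NX A B W cs)) with hkeys
  have hmemk : ∀ cs, cs ∈ keys ↔ ChainB NX A B W cs := by
    intro cs
    rw [hkeys, List.mem_filter, mem_listsLE]
    simp only [decide_eq_true_eq]
    exact ⟨fun h => h.2, fun h => ⟨⟨chain_length h, chain_mem h⟩, h⟩⟩
  refine ⟨keys.map fun cs => (cs, F cs), ?_⟩
  have hlook : ∀ cs, ChainB NX A B W cs → Prim.lk cs (keys.map fun cs => (cs, F cs)) = some (F cs) :=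
    fun cs hc => lookup_map_of_mem F ((hmemk cs).2 hc)
  have hok : ∀ cs, ChainB NX A B W cs → okB A B (2 ^ 20 * (D * G) * M ^ 7) (F cs) = true := by
    intro cs hc
    obtain ⟨c1, c2, c3, _⟩ := hS _ (validC_of_chainB hc)
    have hcount : ∀ (R : Bool × ℕ × ℕ) (b : Bool) (n : ℕ),
        (∀ t : Finset ℕ, (∀ x ∈ t, (R, b, x) ∈ S (cs.map cOf)) → t.card ≤ n) →
        ((F cs).countP fun w => decide (w.1 = R) && decide (w.2.1 = b)) ≤ n := by
      intro R b n hn
      rw [List.countP_eq_length_filter]
      set L' := (F cs).filter fun w => decide (w.1 = R) && decide (w.2.1 = b) with hL'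
      have hnd : (L'.map fun w => w.2.2).Nodup := by
        apply List.Nodup.map_on
        · intro w hw w' hw' hww
          rw [hL', List.mem_filter] at hw hw'
          simp only [Bool.and_eq_true, decide_eq_true_eq] at hw hw'
          obtain ⟨r, c, z⟩ := w
          obtain ⟨r', c', z'⟩ := w'
          simp only at hw hw' hww
          rw [hw.2.1, hw'.2.1, hw.2.2, hw'.2.2, hww]
        · exact (Finset.nodup_toList _).filter _
      have h5 := hn (L'.map fun w => w.2.2).toFinset (by
        intro x hx
        rw [List.mem_toFinset, List.mem_map] at hx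
        obtain ⟨w, hw, rfl⟩ := hx
        rw [hL', List.mem_filter] at hw
        simp only [Bool.and_eq_true, decide_eq_true_eq] at hw
        obtain ⟨hw1, hw2, hw3⟩ := hw
        rw [← hw2, ← hw3]
        exact Finset.mem_toList.1 hw1)
      rw [List.toFinset_card_of_nodup hnd, List.length_map] at h5
      exact h5
    unfold okB
    rw [Bool.and_eq_true]
    constructor
    · rw [List.all_eq_true]
      intro z _
      rw [Bool.and_eq_true, decide_eq_true_eq, decide_eq_true_eq]
      exact ⟨hcount z.1 true _ (c1 z.1), hcount z.1 false _ (c2 z.1)⟩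
    · rw [decide_eq_true_eq]
      have h5 := c3 (dd ((F cs).map Prod.fst)).toFinset (by
        intro R hR
        rw [List.mem_toFinset, mem_dd, List.mem_map] at hR
        obtain ⟨z, hz, rfl⟩ := hR
        exact ⟨z.2.1, z.2.2, Finset.mem_toList.1 hz⟩)
      rwa [List.toFinset_card_of_nodup (dd_nodup _)] at h5
  unfold checkL
  rw [Bool.and_eq_true]
  constructor
  · have h0 : ChainB NX A B W [] := trivial
    rw [hlook [] h0]
    simpa using hok [] h0
  · rw [List.all_eq_true]
    intro pr hpr
    rw [List.mem_map] at hpr
    obtain ⟨cs, hcs, rfl⟩ := hpr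
    have hc := (hmemk cs).1 hcs
    rw [List.all_eq_true]
    intro v hv
    simp only
    by_cases hn : nextB NX A B W cs v = true
    · rw [hn]
      simp only [Bool.not_true, Bool.false_or]
      have hc' : ChainB NX A B W (v :: cs) := ⟨hv, hn, hc⟩
      unfold stepB
      rw [hlook cs hc, hlook _ hc']
      simp only [Option.bind_some, Option.map_some, Option.getD_some, Bool.and_eq_true]
      refine ⟨?_, hok _ hc', ?_⟩
      · rw [List.all_eq_true]
        intro z hz
        rw [Prim.memB_iff]
        rw [hF] at hz ⊢
        simp only [Finset.mem_toList, List.map_cons] at hz ⊢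
        exact hmono _ _ hz
      · unfold covB
        rw [List.all_eq_true]
        intro x hx
        rw [List.all_eq_true]
        intro y hy
        rw [Bool.or_eq_true]
        by_cases hb : bothV NX A B v x y < T
        · left; simpa using hb
        · right
          obtain ⟨_, _, _, c4⟩ := hS _ (validC_of_chainB hc')
          obtain ⟨R, hR1, hR2⟩ := c4 x (List.mem_range.1 hx) y (List.mem_range.1 hy) (by
            rw [List.map_cons, hd, ← bothV_eq]
            omega)
          rw [List.any_eq_true]
          refine ⟨(R, true, x), Finset.mem_toList.2 hR1, ?_⟩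
          simp only [decide_true, Bool.true_and, Prim.memB_iff]
          exact Finset.mem_toList.2 hR2
    · have : nextB NX A B W cs v = false := by simpa using hn
      rw [this]; simp

end Pool.Agent.GWP
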