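import Pool.Agent.GWP.Cert

/-!
The check of a strategy table is primitive recursive.
-/

namespace Pool.Agent.GWP

open Prim

section
variable {α : Type*} [Primcodable α]

@[fun_prop] theorem facts_prim {f : α → ℕ} (hf : Primrec f) : Primrec fun a => facts (f a) := by
  unfold facts; fun_prop

@[fun_prop] theorem legalH_prim {n a b : α → ℕ} {h : α → Hist} (hn : Primrec n) (ha : Primrec a)
    (hb : Primrec b) (hh : Primrec h) :
    Primrec fun x => decide (LegalH (n x) (a x) (b x) (h x)) := by
  have h1 : Primrec fun x => (((h x).all fun e => decide ((h x).countP (fun e' => decide (e' = e)) ≤ 1)) &&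
      (((h x).all fun e => decide (e.2 < n x)) &&
        (decide ((h x).countP (fun e => decide (e.1 = true)) ≤ a x) &&
          decide ((h x).countP (fun e => decide (e.1 = false)) ≤ b x)))) := by fun_prop
  refine h1.of_eq fun x => ?_
  rw [Bool.eq_iff_iff]
  simp only [Bool.and_eq_true, List.all_eq_true, decide_eq_true_eq]
  rfl

@[fun_prop] theorem listsLE_prim {β : Type} [Primcodable β] {E : α → List β} {k : α → ℕ}
    (hE : Primrec E) (hk : Primrec k) : Primrec fun x => listsLE (E x) (k x) := by
  have h1 := natRec' (g := fun _ : α => ([[]] : List (List β)))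
    (h := fun x _ ih => [] :: ih.flatMap fun h => (E x).map fun e => e :: h) hk (by fun_prop)
    (by fun_prop)
  refine h1.of_eq fun x => ?_
  induction k x with
  | zero => rfl
  | succ k ih => simp only [listsLE]; rw [← ih]

@[fun_prop] theorem allH_prim {n a b : α → ℕ} (hn : Primrec n) (ha : Primrec a)
    (hb : Primrec b) : Primrec fun x => allH (n x) (a x) (b x) := by
  unfold allH; fun_prop

@[fun_prop] theorem cOf_prim {v : α → Snap} {h : α → Hist} (hv : Primrec v) (hh : Primrec h) :
    Primrec fun x => cOf (v x) (h x) := by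
  unfold cOf; fun_prop

@[fun_prop] theorem allA_prim {m : α → ℕ} {H : α → List Hist} (hm : Primrec m) (hH : Primrec H) :
    Primrec fun x => allA (m x) (H x) := by
  unfold allA; fun_prop

@[fun_prop] theorem flowB_prim {n a b m : α → ℕ} {v : α → Snap} (hn : Primrec n) (ha : Primrec a)
    (hb : Primrec b) (hm : Primrec m) (hv : Primrec v) :
    Primrec fun x => flowB (n x) (a x) (b x) (m x) (v x) := by
  unfold flowB; fun_prop

@[fun_prop] theorem curS_prim {n a b m : α → ℕ} {cs : α → List Snap} (hn : Primrec n)
    (ha : Primrec a) (hb : Primrec b) (hm : Primrec m) (hcs : Primrec cs) :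
    Primrec fun x => curS (n x) (a x) (b x) (m x) (cs x) := by
  have h1 : Primrec fun x => (cs x)[0]?.getD ((allH (n x) (a x) (b x)).map fun h =>
      (h, bif decide (h = []) then m x else 0)) := by fun_prop
  refine h1.of_eq fun x => ?_
  unfold curS mkSnap initC
  congr 1
  apply List.map_congr_left
  intro h _
  by_cases hh : h = [] <;> simp [hh]

@[fun_prop] theorem nextB_prim {n a b m : α → ℕ} {cs : α → List Snap} {v : α → Snap}
    (hn : Primrec n) (ha : Primrec a) (hb : Primrec b) (hm : Primrec m) (hcs : Primrec cs)
    (hv : Primrec v) : Primrec fun x => nextB (n x) (a x) (b x) (m x) (cs x) (v x) := by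
  unfold nextB; fun_prop

@[fun_prop] theorem dd_prim {β : Type} [Primcodable β] [DecidableEq β] {l : α → List β}
    (hl : Primrec l) : Primrec fun x => dd (l x) := by
  unfold dd; fun_prop

@[fun_prop] theorem okB_prim {a b r : α → ℕ} {F : α → Resp} (ha : Primrec a) (hb : Primrec b)
    (hr : Primrec r) (hF : Primrec F) : Primrec fun x => okB (a x) (b x) (r x) (F x) := by
  unfold okB; fun_prop

@[fun_prop] theorem minB_prim {x y : α → ℕ} {h : α → Hist} (hx : Primrec x) (hy : Primrec y)
    (hh : Primrec h) : Primrec fun z => minB (x z) (y z) (h z) := by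
  unfold minB; fun_prop

@[fun_prop] theorem bothV_prim {n a b : α → ℕ} {v : α → Snap} {x y : α → ℕ} (hn : Primrec n)
    (ha : Primrec a) (hb : Primrec b) (hv : Primrec v) (hx : Primrec x) (hy : Primrec y) :
    Primrec fun z => bothV (n z) (a z) (b z) (v z) (x z) (y z) := by
  unfold bothV; fun_prop

@[fun_prop] theorem covB_prim {n a b t : α → ℕ} {v : α → Snap} {F : α → Resp} (hn : Primrec n)
    (ha : Primrec a) (hb : Primrec b) (ht : Primrec t) (hv : Primrec v) (hF : Primrec F) :
    Primrec fun z => covB (n z) (a z) (b z) (t z) (v z) (F z) := by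
  unfold covB; fun_prop

@[fun_prop] theorem stepB_prim {n a b t r : α → ℕ} {L : α → List (List Snap × Resp)}
    {cs : α → List Snap} {v : α → Snap} (hn : Primrec n)
    (ha : Primrec a) (hb : Primrec b) (ht : Primrec t) (hr : Primrec r) (hL : Primrec L)
    (hcs : Primrec cs) (hv : Primrec v) :
    Primrec fun z => stepB (n z) (a z) (b z) (t z) (r z) (L z) (cs z) (v z) := by
  unfold stepB; fun_prop

@[fun_prop] theorem checkL_prim {n a b m t r : α → ℕ} {L : α → List (List Snap × Resp)}
    (hn : Primrec n) (ha : Primrec a) (hb : Primrec b) (hm : Primrec m) (ht : Primrec t)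
    (hr : Primrec r) (hL : Primrec L) :
    Primrec fun z => checkL (n z) (a z) (b z) (m z) (t z) (r z) (L z) := by
  unfold checkL; fun_prop

end

end Pool.Agent.GWP
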