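import Pool.Agent.GWP.Real

/-!
Cylinder sets of the fair-coin measure.
-/

namespace Pool.Agent.GWP

open MeasureTheory ENNReal

instance : IsProbabilityMeasure coin := by unfold coin; infer_instance

theorem rp_eq_iff {A A' : ℕ → Bool} {k : ℕ} : rp A k = rp A' k ↔ ∀ i < k, A i = A' i := by
  refine ⟨?_, rp_congr⟩
  induction k with
  | zero => intro _ i hi; omega
  | succ k ih =>
    intro h i hi
    rw [rp, rp] at h
    obtain ⟨h1, h2⟩ := List.cons.inj h
    rcases Nat.lt_or_ge i k with h3 | h3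
    · exact ih h2 i h3
    · have : i = k := by omega
      rw [this]; exact h1

theorem coin_cylinder (A₀ : ℕ → Bool) (s : ℕ) :
    coin {A | rp A s = rp A₀ s} = (2⁻¹ : ℝ≥0∞) ^ s := by
  have h1 : {A : ℕ → Bool | rp A s = rp A₀ s} =
      Set.pi (Finset.range s) fun i => ({A₀ i} : Set Bool) := by
    ext A
    simp only [Set.mem_ofPred_eq, rp_eq_iff, Set.mem_pi, Finset.coe_range, Set.mem_Iio,
      Set.mem_singleton_iff]
  rw [h1]
  unfold coin
  rw [Measure.infinitePi_pi _ (fun i _ => MeasurableSet.singleton _)]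
  have h2 : ∀ i ∈ Finset.range s, (PMF.uniformOfFintype Bool).toMeasure {A₀ i} = 2⁻¹ := by
    intro i _
    rw [PMF.toMeasure_apply_singleton _ _ (MeasurableSet.singleton _)]
    simp
  rw [Finset.prod_congr rfl h2]
  simp

theorem coin_event_le (f : List Bool → Prop) [DecidablePred f] (s : ℕ) :
    coin {A | f (rp A s)} ≤ ((strs s).countP fun σ => decide (f σ) : ℕ) * (2⁻¹ : ℝ≥0∞) ^ s := by
  have h1 : {A : ℕ → Bool | f (rp A s)} ⊆
      ⋃ σ ∈ ((strs s).filter fun σ => decide (f σ)).toFinset, {A | rp A s = σ} := by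
    intro A hA
    simp only [Set.mem_iUnion, exists_prop]
    refine ⟨rp A s, ?_, rfl⟩
    rw [List.mem_toFinset, List.mem_filter, mem_strs, decide_eq_true_eq]
    exact ⟨rp_length A s, hA⟩
  refine (measure_mono h1).trans ((measure_biUnion_finset_le _ _).trans ?_)
  have h2 : ∀ σ ∈ ((strs s).filter fun σ => decide (f σ)).toFinset,
      coin {A | rp A s = σ} = (2⁻¹ : ℝ≥0∞) ^ s := by
    intro σ hσ
    rw [List.mem_toFinset, List.mem_filter, mem_strs] at hσ
    obtain ⟨A₀, hA₀⟩ := exists_oracle σ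
    rw [hσ.1] at hA₀
    rw [← hA₀]
    exact coin_cylinder A₀ s
  rw [Finset.sum_congr rfl h2, Finset.sum_const, nsmul_eq_mul]
  rw [List.toFinset_card_of_nodup ((strs_nodup s).filter _), ← List.countP_eq_length_filter]

theorem exists_stage {f : List Bool → Prop} [DecidablePred f] (hmono : ∀ b σ, f σ → f (b :: σ))
    {D : ℕ} (h : (D : ℝ≥0∞)⁻¹ < coin {A | ∃ s, f (rp A s)}) :
    ∃ s, 2 ^ s < D * (strs s).countP fun σ => decide (f σ) := by
  have h1 : {A : ℕ → Bool | ∃ s, f (rp A s)} = ⋃ s, {A | f (rp A s)} := by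
    ext A; simp
  have hm : Monotone fun s => {A : ℕ → Bool | f (rp A s)} := by
    apply monotone_nat_of_le_succ
    intro s A hA
    exact hmono _ _ hA
  rw [h1, hm.measure_iUnion, lt_iSup_iff] at h
  obtain ⟨s, hs⟩ := h
  refine ⟨s, ?_⟩
  have h2 := lt_of_lt_of_le hs (coin_event_le f s)
  set c := (strs s).countP fun σ => decide (f σ) with hc
  have hD : (D : ℝ≥0∞) ≠ 0 := by
    intro h0
    rw [h0, ENNReal.inv_zero] at hs
    exact absurd hs (not_lt.2 le_top)
  rw [← ENNReal.inv_pow, ← div_eq_mul_inv, ENNReal.lt_div_iff_mul_lt (by simp) (by simp)] at h2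
  rw [mul_comm, ← div_eq_mul_inv, ENNReal.div_lt_iff (Or.inl hD) (Or.inl (by simp))] at h2
  have h3 : ((2 ^ s : ℕ) : ℝ≥0∞) < ((c * D : ℕ) : ℝ≥0∞) := by
    push_cast; exact h2
  rw [mul_comm]
  exact_mod_cast h3

end Pool.Agent.GWP
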