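import Mathlib

/-!
The probabilistic lemma behind the covering step: if all members of the pool `J` are light on `N'`
while every point of `N'` lies in many members of `Lh`, then some tuple hits many members of `Lh`
and no member of `J`.
-/

namespace Pool.Agent.GWP

open scoped Classical

/-- The tuple `τ` hits the set `C`: at least `h` of its entries lie in `C`. -/
def Hit {X : Type*} {h g : ℕ} (τ : Fin h × Fin g → X) (C : List X) : Prop :=
  h ≤ (Finset.univ.filter fun k => τ k ∈ C).card

/-- Number of elements of `N'` in `C`. -/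
noncomputable def cnt {X : Type*} (N' : Finset X) (C : List X) : ℕ := (N'.filter (· ∈ C)).card

section
variable {X : Type*}

theorem cnt_le (N' : Finset X) (C : List X) : cnt N' C ≤ N'.card := Finset.card_filter_le _ _

theorem pow_heavy {n c h l : ℕ} (hc : c ≤ n) (hn : n < 2 ^ (l + 1) * c) :
    4 * (h * (n - c) ^ (8 * h * 2 ^ l)) ≤ n ^ (8 * h * 2 ^ l) := by
  have hn0 : 0 < n := by
    rcases Nat.eq_zero_or_pos n with rfl | h0
    · have : c = 0 := by omega
      subst this; simp at hn
    · exact h0
  set g := 8 * h * 2 ^ l with hg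
  have hnR : (0 : ℝ) < n := by exact_mod_cast hn0
  set x : ℝ := c / n with hx
  have hx0 : 0 ≤ x := by positivity
  have hx1 : x ≤ 1 := by rw [hx, div_le_one hnR]; exact_mod_cast hc
  have h1 : (1 - x) ^ g * (1 + g * x) ≤ 1 := by
    calc (1 - x) ^ g * (1 + g * x) ≤ (1 - x) ^ g * (1 + x) ^ g := by
          apply mul_le_mul_of_nonneg_left
          · exact one_add_mul_le_pow (by linarith) g
          · exact pow_nonneg (by linarith) _
      _ = (1 - x ^ 2) ^ g := by rw [← mul_pow]; ring_nf
      _ ≤ 1 := pow_le_one₀ (by nlinarith) (by nlinarith [sq_nonneg x])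
  have hgx : (4 * h : ℝ) ≤ 1 + g * x := by
    have h2 : (n : ℝ) < 2 ^ (l + 1) * c := by exact_mod_cast hn
    have h3 : (1 : ℝ) ≤ 2 ^ (l + 1) * x := by
      rw [hx, ← mul_div_assoc, le_div_iff₀ hnR]
      linarith
    have h4 : (g : ℝ) * x = 4 * h * (2 ^ (l + 1) * x) := by
      rw [hg]; push_cast; ring
    rw [h4]
    have : (0 : ℝ) ≤ 4 * h := by positivity
    nlinarith
  have h5 : 4 * h * (1 - x) ^ g ≤ 1 := by
    have : (1 - x) ^ g * (4 * h) ≤ (1 - x) ^ g * (1 + g * x) :=
      mul_le_mul_of_nonneg_left hgx (pow_nonneg (by linarith) _)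
    linarith
  have h6 : (n : ℝ) * (1 - x) = ((n - c : ℕ) : ℝ) := by
    rw [Nat.cast_sub hc, hx]; field_simp
  have h7 : (4 * (h * (n - c) ^ g) : ℕ) ≤ (n ^ g : ℕ) := by
    have : (((4 * (h * (n - c) ^ g) : ℕ)) : ℝ) ≤ ((n ^ g : ℕ) : ℝ) := by
      push_cast
      rw [← h6, mul_pow]
      calc (4 : ℝ) * (h * (n ^ g * (1 - x) ^ g)) = n ^ g * (4 * h * (1 - x) ^ g) := by ring
        _ ≤ n ^ g * 1 := mul_le_mul_of_nonneg_left h5 (by positivity)
        _ = _ := mul_one _
    exact_mod_cast this
  exact h7

theorem heavy_count (N' : Finset X) (C : List X) {h l : ℕ}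
    (hC : N'.card < 2 ^ (l + 1) * cnt N' C) :
    4 * ((Fintype.piFinset fun _ : Fin h × Fin (8 * h * 2 ^ l) => N').filter
      fun τ => ¬ Hit τ C).card ≤ N'.card ^ (h * (8 * h * 2 ^ l)) := by
  set g := 8 * h * 2 ^ l with hg
  set n := N'.card with hn
  set c := cnt N' C with hc
  have hcn : c ≤ n := cnt_le N' C
  have hsub : ((Fintype.piFinset fun _ : Fin h × Fin g => N').filter fun τ => ¬ Hit τ C) ⊆
      Finset.univ.biUnion fun i : Fin h => Fintype.piFinset fun k : Fin h × Fin g =>
        if k.1 = i then N'.filter (· ∉ C) else N' := by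
    intro τ hτ
    rw [Finset.mem_filter, Fintype.mem_piFinset] at hτ
    obtain ⟨hτ1, hτ2⟩ := hτ
    by_contra hcon
    apply hτ2
    have : ∀ i : Fin h, ∃ j : Fin g, τ (i, j) ∈ C := by
      intro i
      by_contra hno
      push Not at hno
      apply hcon
      rw [Finset.mem_biUnion]
      refine ⟨i, Finset.mem_univ _, ?_⟩
      rw [Fintype.mem_piFinset]
      intro k
      split_ifs with hk
      · rw [Finset.mem_filter]
        refine ⟨hτ1 k, ?_⟩
        have := hno k.2
        rw [← hk] at this
        exact this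
      · exact hτ1 k
    choose f hf using this
    unfold Hit
    calc h = (Finset.univ : Finset (Fin h)).card := by simp
      _ = (Finset.univ.image fun i : Fin h => (i, f i)).card := by
          rw [Finset.card_image_of_injective]
          intro a b hab
          exact (Prod.ext_iff.1 hab).1
      _ ≤ _ := by
          apply Finset.card_le_card
          intro k hk
          rw [Finset.mem_image] at hk
          obtain ⟨i, _, rfl⟩ := hk
          simp [hf i]
  have hcard : ∀ i : Fin h, (Fintype.piFinset fun k : Fin h × Fin g =>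
        if k.1 = i then N'.filter (· ∉ C) else N').card = (n - c) ^ g * n ^ ((h - 1) * g) := by
    intro i
    rw [Fintype.card_piFinset]
    have h1 : ∀ k : Fin h × Fin g, (if k.1 = i then N'.filter (· ∉ C) else N').card =
        if k.1 = i then (n - c) else n := by
      intro k
      split_ifs
      · have := Finset.card_filter_add_card_filter_not (s := N') (fun x => x ∈ C)
        rw [hc, hn]; unfold cnt
        omega
      · rfl
    rw [Finset.prod_congr rfl fun k _ => h1 k, Finset.prod_ite, Finset.prod_const,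
      Finset.prod_const]
    have h2 : (Finset.univ.filter fun k : Fin h × Fin g => k.1 = i).card = g := by
      have : (Finset.univ.filter fun k : Fin h × Fin g => k.1 = i) =
          ({i} : Finset (Fin h)) ×ˢ (Finset.univ : Finset (Fin g)) := by
        ext ⟨a, b⟩; simp [eq_comm]
      rw [this, Finset.card_product]; simp
    have h3 : (Finset.univ.filter fun k : Fin h × Fin g => ¬ k.1 = i).card = (h - 1) * g := by
      have h4 := Finset.card_filter_add_card_filter_not (s := (Finset.univ : Finset (Fin h × Fin g)))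
        (fun k => k.1 = i)
      rw [h2] at h4
      simp only [Finset.card_univ, Fintype.card_prod, Fintype.card_fin] at h4
      rw [Nat.sub_mul, one_mul]
      omega
    rw [h2, h3]
  rcases Nat.eq_zero_or_pos h with rfl | hpos
  · simp [Hit]
  calc 4 * ((Fintype.piFinset fun _ : Fin h × Fin g => N').filter fun τ => ¬ Hit τ C).card
      ≤ 4 * ∑ i : Fin h, (Fintype.piFinset fun k : Fin h × Fin g =>
        if k.1 = i then N'.filter (· ∉ C) else N').card :=
        Nat.mul_le_mul_left 4 ((Finset.card_le_card hsub).trans Finset.card_biUnion_le)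
    _ = 4 * (h * (n - c) ^ g) * n ^ ((h - 1) * g) := by
        rw [Finset.sum_congr rfl fun i _ => hcard i]
        simp only [Finset.sum_const, Finset.card_univ, Fintype.card_fin, smul_eq_mul]
        ring
    _ ≤ n ^ g * n ^ ((h - 1) * g) := Nat.mul_le_mul_right _ (pow_heavy hcn hC)
    _ = n ^ (h * g) := by
        rw [← pow_add]
        congr 1
        obtain ⟨h', rfl⟩ : ∃ h', h = h' + 1 := ⟨h - 1, by omega⟩
        simp only [Nat.add_sub_cancel]
        ring

theorem light_count (N' : Finset X) (C : List X) {h l : ℕ}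
    (hC : 32 * h ^ 2 * 2 ^ l * cnt N' C ≤ N'.card) :
    4 ^ h * ((Fintype.piFinset fun _ : Fin h × Fin (8 * h * 2 ^ l) => N').filter
      fun τ => Hit τ C).card ≤ N'.card ^ (h * (8 * h * 2 ^ l)) := by
  set g := 8 * h * 2 ^ l with hg
  set n := N'.card with hn
  set c := cnt N' C with hc
  set t := h * g with ht
  rcases Nat.eq_zero_or_pos h with rfl | hpos
  · simp [Hit, ht]
  have hgpos : 0 < g := by rw [hg]; positivity
  have hht : h ≤ t := Nat.le_mul_of_pos_right h hgpos
  have hsub : ((Fintype.piFinset fun _ : Fin h × Fin g => N').filter fun τ => Hit τ C) ⊆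
      (Finset.powersetCard h (Finset.univ : Finset (Fin h × Fin g))).biUnion fun S =>
        Fintype.piFinset fun k : Fin h × Fin g => if k ∈ S then N'.filter (· ∈ C) else N' := by
    intro τ hτ
    rw [Finset.mem_filter, Fintype.mem_piFinset] at hτ
    obtain ⟨hτ1, hτ2⟩ := hτ
    obtain ⟨S, hS, hcard⟩ := Finset.exists_subset_card_eq hτ2
    rw [Finset.mem_biUnion]
    refine ⟨S, ?_, ?_⟩
    · rw [Finset.mem_powersetCard]
      exact ⟨Finset.subset_univ _, hcard⟩
    · rw [Fintype.mem_piFinset]
      intro k
      split_ifs with hk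
      · rw [Finset.mem_filter]
        refine ⟨hτ1 k, ?_⟩
        have := hS hk
        rw [Finset.mem_filter] at this
        exact this.2
      · exact hτ1 k
  have hcard : ∀ S ∈ Finset.powersetCard h (Finset.univ : Finset (Fin h × Fin g)),
      (Fintype.piFinset fun k : Fin h × Fin g =>
        if k ∈ S then N'.filter (· ∈ C) else N').card = c ^ h * n ^ (t - h) := by
    intro S hS
    rw [Finset.mem_powersetCard] at hS
    rw [Fintype.card_piFinset]
    have h1 : ∀ k : Fin h × Fin g, (if k ∈ S then N'.filter (· ∈ C) else N').card =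
        if k ∈ S then c else n := by
      intro k
      split_ifs <;> rfl
    rw [Finset.prod_congr rfl fun k _ => h1 k, Finset.prod_ite, Finset.prod_const,
      Finset.prod_const]
    have h2 : (Finset.univ.filter fun k : Fin h × Fin g => k ∈ S).card = h := by
      rw [Finset.filter_univ_mem, hS.2]
    have h3 : (Finset.univ.filter fun k : Fin h × Fin g => ¬ k ∈ S).card = t - h := by
      have h4 := Finset.card_filter_add_card_filter_not (s := (Finset.univ : Finset (Fin h × Fin g)))
        (fun k => k ∈ S)
      rw [h2] at h4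
      simp only [Finset.card_univ, Fintype.card_prod, Fintype.card_fin] at h4
      omega
    rw [h2, h3]
  calc 4 ^ h * ((Fintype.piFinset fun _ : Fin h × Fin g => N').filter fun τ => Hit τ C).card
      ≤ 4 ^ h * ∑ S ∈ Finset.powersetCard h (Finset.univ : Finset (Fin h × Fin g)),
        (Fintype.piFinset fun k : Fin h × Fin g =>
          if k ∈ S then N'.filter (· ∈ C) else N').card :=
        Nat.mul_le_mul_left _ ((Finset.card_le_card hsub).trans Finset.card_biUnion_le)
    _ = 4 ^ h * (Nat.choose t h * (c ^ h * n ^ (t - h))) := by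
        rw [Finset.sum_congr rfl hcard, Finset.sum_const, Finset.card_powersetCard]
        simp [ht]
    _ ≤ 4 ^ h * (t ^ h * (c ^ h * n ^ (t - h))) := by
        gcongr
        exact Nat.choose_le_pow _ _
    _ = (4 * t * c) ^ h * n ^ (t - h) := by
        clear_value t
        have h5 : (4 * t * c) ^ h = 4 ^ h * t ^ h * c ^ h := by rw [mul_pow, mul_pow]
        rw [h5]
        simp only [mul_assoc]
    _ ≤ n ^ h * n ^ (t - h) := by
        apply Nat.mul_le_mul_right
        apply Nat.pow_le_pow_left
        calc 4 * t * c = 32 * h ^ 2 * 2 ^ l * c := by rw [ht, hg]; ring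
          _ ≤ n := hC
    _ = n ^ t := by rw [← pow_add]; congr 1; omega

theorem sum_countP {T α : Type*} (s : Finset T) (L : List α) (P : T → α → Prop)
    [∀ τ C, Decidable (P τ C)] :
    ∑ τ ∈ s, L.countP (fun C => decide (P τ C)) =
      (L.map fun C => (s.filter fun τ => P τ C).card).sum := by
  induction L with
  | nil => simp
  | cons C L ih =>
    rw [List.map_cons, List.sum_cons, ← ih]
    simp only [List.countP_cons, Finset.sum_add_distrib]
    rw [add_comm]
    congr 1
    rw [Finset.card_filter]
    apply Finset.sum_congr rfl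
    intro τ _
    by_cases h : P τ C <;> simp [h]

theorem sum_le_length_mul {α : Type*} (L : List α) (f : α → ℕ) (a b : ℕ)
    (h : ∀ C ∈ L, a * f C ≤ b) : a * (L.map f).sum ≤ L.length * b := by
  induction L with
  | nil => simp
  | cons C L ih =>
    rw [List.map_cons, List.sum_cons, List.length_cons, mul_add, add_mul, one_mul]
    have h1 := h C List.mem_cons_self
    have h2 := ih fun D hD => h D (List.mem_cons_of_mem _ hD)
    omega

/-- Some tuple of points of `N'` hits no light set and at least half of the heavy sets. -/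
theorem exists_tau (N' : Finset X) (hN : N'.Nonempty) (J H : List (List X)) {h l : ℕ}
    (hlight : ∀ C ∈ J, 32 * h ^ 2 * 2 ^ l * cnt N' C ≤ N'.card)
    (hheavy : ∀ C ∈ H, N'.card < 2 ^ (l + 1) * cnt N' C)
    (hJ : 4 * J.length ≤ 4 ^ h) :
    ∃ τ : Fin h × Fin (8 * h * 2 ^ l) → X, (∀ C ∈ J, ¬ Hit τ C) ∧
      H.length ≤ 2 * H.countP (fun C => decide (Hit τ C)) := by
  set 𝒯 := Fintype.piFinset fun _ : Fin h × Fin (8 * h * 2 ^ l) => N' with h𝒯
  have hM : 𝒯.card = N'.card ^ (h * (8 * h * 2 ^ l)) := by
    rw [h𝒯, Fintype.card_piFinset, Finset.prod_const]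
    simp
  set M := N'.card ^ (h * (8 * h * 2 ^ l)) with hMdef
  have hMpos : 0 < M := by
    rw [hMdef]; exact Nat.pow_pos hN.card_pos
  by_contra hcon
  push Not at hcon
  -- the two bad sets cover everything
  set B1 := 𝒯.filter fun τ => ∃ C ∈ J, Hit τ C with hB1
  set B2 := 𝒯.filter fun τ => 2 * H.countP (fun C => decide (Hit τ C)) < H.length with hB2
  have hcov : 𝒯 ⊆ B1 ∪ B2 := by
    intro τ hτ
    rw [Finset.mem_union, hB1, hB2, Finset.mem_filter, Finset.mem_filter]
    by_cases h1 : ∃ C ∈ J, Hit τ C
    · exact Or.inl ⟨hτ, h1⟩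
    · right
      refine ⟨hτ, hcon τ ?_⟩
      intro C hC hh
      exact h1 ⟨C, hC, hh⟩
  have hB1le : 4 * B1.card ≤ M := by
    have h1 : B1.card ≤ ∑ τ ∈ 𝒯, J.countP (fun C => decide (Hit τ C)) := by
      rw [hB1, Finset.card_filter]
      apply Finset.sum_le_sum
      intro τ _
      split_ifs with hh
      · obtain ⟨C, hC, hh⟩ := hh
        exact List.countP_pos_iff.2 ⟨C, hC, by simpa using hh⟩
      · exact Nat.zero_le _
    rw [sum_countP] at h1
    have h2 := sum_le_length_mul J (fun C => (𝒯.filter fun τ => Hit τ C).card) (4 ^ h) M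
      (fun C hC => light_count N' C (hlight C hC))
    have h3 : 4 ^ h * (4 * B1.card) ≤ 4 ^ h * M := by
      calc 4 ^ h * (4 * B1.card) = 4 * (4 ^ h * B1.card) := by ring
        _ ≤ 4 * (4 ^ h * (J.map fun C => (𝒯.filter fun τ => Hit τ C).card).sum) := by gcongr
        _ ≤ 4 * (J.length * M) := by gcongr
        _ = (4 * J.length) * M := by ring
        _ ≤ 4 ^ h * M := Nat.mul_le_mul_right _ hJ
    exact Nat.le_of_mul_le_mul_left h3 (by positivity)
  have hB2le : 2 * B2.card ≤ M := by
    have h1 : B2.card * H.length ≤ 2 * ∑ τ ∈ 𝒯, H.countP (fun C => decide (¬ Hit τ C)) := by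
      rw [hB2, Finset.card_filter, Finset.sum_mul, Finset.mul_sum]
      apply Finset.sum_le_sum
      intro τ _
      have h5 : H.length = H.countP (fun C => decide (Hit τ C)) +
          H.countP (fun C => decide (¬ Hit τ C)) := by
        have := List.length_eq_countP_add_countP (l := H) (fun C => decide (Hit τ C))
        rw [this]
        congr 1
        apply List.countP_congr
        intro C _
        simp
      split_ifs with hh
      · omega
      · omega
    rw [sum_countP 𝒯 H (fun τ C => ¬ Hit τ C)] at h1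
    have h2 := sum_le_length_mul H (fun C => (𝒯.filter fun τ => ¬ Hit τ C).card) 4 M
      (fun C hC => heavy_count N' C (hheavy C hC))
    rcases Nat.eq_zero_or_pos H.length with h0 | h0
    · have : B2 = ∅ := by
        rw [hB2, Finset.filter_eq_empty_iff]
        intro τ _
        omega
      rw [this]; simp
    · have h3 : H.length * (2 * B2.card) ≤ H.length * M := by
        calc H.length * (2 * B2.card) = 2 * (B2.card * H.length) := by ring
          _ ≤ 2 * (2 * (H.map fun C => (𝒯.filter fun τ => ¬ Hit τ C).card).sum) := by gcongr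
          _ = 4 * (H.map fun C => (𝒯.filter fun τ => ¬ Hit τ C).card).sum := by ring
          _ ≤ H.length * M := h2
      exact Nat.le_of_mul_le_mul_left h3 h0
  have h6 : M ≤ B1.card + B2.card := by
    rw [← hM]
    exact (Finset.card_le_card hcov).trans (Finset.card_union_le _ _)
  omega

theorem sum_cnt (N' : Finset X) (L : List (List X)) :
    (L.map (cnt N')).sum = ∑ x ∈ N', L.countP (fun C => decide (x ∈ C)) := by
  rw [sum_countP N' L (fun x C => x ∈ C)]
  rfl

/-- The scale `l` sublist of `Lh`. -/
noncomputable def scale (N' : Finset X) (Lh : List (List X)) (l : ℕ) : List (List X) :=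
  Lh.filter fun C => decide (N'.card < 2 ^ (l + 1) * cnt N' C ∧ 2 ^ l * cnt N' C ≤ N'.card)

theorem exists_scale (N' : Finset X) (hN : N'.Nonempty) (Lh : List (List X)) (lm t : ℕ)
    (ht : 0 < t) (hlen : Lh.length ≤ 2 ^ lm * t)
    (hcov : ∀ x ∈ N', t ≤ Lh.countP (fun C => decide (x ∈ C))) :
    ∃ l ≤ lm, 2 ^ l * t ≤ 2 * (lm + 1) * (scale N' Lh l).length := by
  by_contra hcon
  push Not at hcon
  set n := N'.card with hn
  have hnpos : (0 : ℝ) < n := by rw [hn]; exact_mod_cast hN.card_pos
  have h1 : t * n ≤ (Lh.map (cnt N')).sum := by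
    rw [sum_cnt, mul_comm, ← smul_eq_mul, ← Finset.sum_const]
    exact Finset.sum_le_sum hcov
  have h2 : ∀ C : List X, (cnt N' C : ℝ) ≤ (∑ l ∈ Finset.range (lm + 1),
      if (n < 2 ^ (l + 1) * cnt N' C ∧ 2 ^ l * cnt N' C ≤ n) then (n : ℝ) / 2 ^ l else 0) +
      (n : ℝ) / 2 ^ (lm + 1) := by
    intro C
    set c := cnt N' C with hc
    have hsumnn : 0 ≤ (∑ l ∈ Finset.range (lm + 1),
      if (n < 2 ^ (l + 1) * c ∧ 2 ^ l * c ≤ n) then (n : ℝ) / 2 ^ l else 0) := by
      apply Finset.sum_nonneg
      intro l _
      split_ifs <;> positivity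
    by_cases hsmall : 2 ^ (lm + 1) * c ≤ n
    · have : (c : ℝ) ≤ n / 2 ^ (lm + 1) := by
        rw [le_div_iff₀ (by positivity)]
        have : ((2 ^ (lm + 1) * c : ℕ) : ℝ) ≤ n := by exact_mod_cast hsmall
        push_cast at this
        linarith
      linarith
    · push Not at hsmall
      have hex : ∃ l, n < 2 ^ (l + 1) * c := ⟨lm, hsmall⟩
      set l := Nat.find hex with hl
      have hl1 : n < 2 ^ (l + 1) * c := Nat.find_spec hex
      have hllm : l ≤ lm := Nat.find_min' hex hsmall
      have hl2 : 2 ^ l * c ≤ n := by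
        rcases Nat.eq_zero_or_pos l with h0 | h0
        · rw [h0]
          have := cnt_le N' C
          simpa using this
        · have := Nat.find_min hex (m := l - 1) (by omega)
          push Not at this
          rwa [Nat.sub_add_cancel h0] at this
      have h3 := Finset.single_le_sum (s := Finset.range (lm + 1)) (f := fun l =>
        if (n < 2 ^ (l + 1) * c ∧ 2 ^ l * c ≤ n) then (n : ℝ) / 2 ^ l else 0)
        (fun i _ => by positivity) (Finset.mem_range.2 (Nat.lt_succ_of_le hllm))
      simp only [if_pos (And.intro hl1 hl2)] at h3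
      have h4 : (c : ℝ) ≤ n / 2 ^ l := by
        rw [le_div_iff₀ (by positivity)]
        have : ((2 ^ l * c : ℕ) : ℝ) ≤ n := by exact_mod_cast hl2
        push_cast at this
        linarith
      have h5 : (0 : ℝ) ≤ n / 2 ^ (lm + 1) := by positivity
      linarith
  -- sum over the list
  have h3 : ∀ L : List (List X), (((L.map (cnt N')).sum : ℕ) : ℝ) ≤
      (∑ l ∈ Finset.range (lm + 1), ((scale N' L l).length : ℝ) * (n / 2 ^ l)) +
        L.length * (n / 2 ^ (lm + 1)) := by
    intro L
    induction L with
    | nil => simp [scale]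
    | cons C L ih =>
      have h4 := h2 C
      have h5 : (∑ l ∈ Finset.range (lm + 1), ((scale N' (C :: L) l).length : ℝ) * (n / 2 ^ l)) =
          (∑ l ∈ Finset.range (lm + 1), if (n < 2 ^ (l + 1) * cnt N' C ∧
            2 ^ l * cnt N' C ≤ n) then (n : ℝ) / 2 ^ l else 0) +
          (∑ l ∈ Finset.range (lm + 1), ((scale N' L l).length : ℝ) * (n / 2 ^ l)) := by
        rw [← Finset.sum_add_distrib]
        apply Finset.sum_congr rfl
        intro l _
        unfold scale
        rw [← hn]
        by_cases hh : n < 2 ^ (l + 1) * cnt N' C ∧ 2 ^ l * cnt N' C ≤ n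
        · rw [List.filter_cons_of_pos (by simpa using hh), if_pos hh, List.length_cons]
          push_cast; ring
        · rw [List.filter_cons_of_neg (by simpa using hh), if_neg hh]
          ring
      rw [h5, List.map_cons, List.sum_cons, List.length_cons]
      simp only [Nat.cast_add, Nat.cast_one]
      linarith
  have h4 : (∑ l ∈ Finset.range (lm + 1), ((scale N' Lh l).length : ℝ) * (n / 2 ^ l)) <
      t * n / 2 := by
    have h5 : ∀ l ∈ Finset.range (lm + 1), ((scale N' Lh l).length : ℝ) * (n / 2 ^ l) <
        t * n / (2 * (lm + 1)) := by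
      intro l hl
      have hl' : l ≤ lm := Nat.lt_succ_iff.1 (Finset.mem_range.1 hl)
      have h6 := hcon l hl'
      have h7 : (2 * (lm + 1) * (scale N' Lh l).length : ℝ) < 2 ^ l * t := by exact_mod_cast h6
      rw [lt_div_iff₀ (by positivity)]
      have h8 : ((scale N' Lh l).length : ℝ) * (n / 2 ^ l) * (2 * (lm + 1)) =
          (2 * (lm + 1) * (scale N' Lh l).length : ℝ) * (n / 2 ^ l) := by ring
      rw [h8]
      calc (2 * (lm + 1) * (scale N' Lh l).length : ℝ) * (n / 2 ^ l)
          < (2 ^ l * t) * (n / 2 ^ l) := by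
            apply mul_lt_mul_of_pos_right h7; positivity
        _ = t * n := by field_simp
    calc _ < ∑ l ∈ Finset.range (lm + 1), (t * n / (2 * (lm + 1)) : ℝ) :=
          Finset.sum_lt_sum_of_nonempty (by simp) h5
      _ = t * n / 2 := by
          rw [Finset.sum_const, Finset.card_range, nsmul_eq_mul]
          push_cast
          field_simp
  have h5 : (Lh.length : ℝ) * (n / 2 ^ (lm + 1)) ≤ t * n / 2 := by
    have : (Lh.length : ℝ) ≤ 2 ^ lm * t := by exact_mod_cast hlen
    calc (Lh.length : ℝ) * (n / 2 ^ (lm + 1)) ≤ (2 ^ lm * t) * (n / 2 ^ (lm + 1)) := by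
          apply mul_le_mul_of_nonneg_right this; positivity
      _ = t * n / 2 := by rw [pow_succ]; field_simp
  have h6 : (t * n : ℝ) ≤ ((Lh.map (cnt N')).sum : ℕ) := by exact_mod_cast h1
  have h7 := h3 Lh
  linarith

/-- If all members of `J` are light on `N'` then some tuple hits many members of `Lh` and no
member of `J`. -/
theorem exists_heavy (N' : Finset X) (hN : N'.Nonempty) (J Lh : List (List X)) (h lm t : ℕ)
    (ht : 0 < t) (hlen : Lh.length ≤ 2 ^ lm * t)
    (hcov : ∀ x ∈ N', t ≤ Lh.countP (fun C => decide (x ∈ C)))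
    (hJ : 4 * J.length ≤ 4 ^ h)
    (hlight : ∀ C ∈ J, 32 * h ^ 2 * 2 ^ lm * cnt N' C < N'.card) :
    ∃ l ≤ lm, ∃ τ : Fin h × Fin (8 * h * 2 ^ l) → X, (∀ C ∈ J, ¬ Hit τ C) ∧
      2 ^ l * t ≤ 4 * (lm + 1) * Lh.countP (fun C => decide (Hit τ C)) := by
  obtain ⟨l, hl, hsc⟩ := exists_scale N' hN Lh lm t ht hlen hcov
  obtain ⟨τ, hτ1, hτ2⟩ := exists_tau N' hN J (scale N' Lh l) (h := h) (l := l)
    (by
      intro C hC
      have h1 := hlight C hC
      refine le_trans ?_ h1.le
      gcongr
      norm_num)
    (by
      intro C hC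
      unfold scale at hC
      rw [List.mem_filter] at hC
      have := hC.2
      simp only [decide_eq_true_eq] at this
      exact this.1)
    hJ
  refine ⟨l, hl, τ, hτ1, ?_⟩
  have h2 : (scale N' Lh l).countP (fun C => decide (Hit τ C)) ≤
      Lh.countP (fun C => decide (Hit τ C)) := by
    unfold scale
    exact List.Sublist.countP_le List.filter_sublist
  calc 2 ^ l * t ≤ 2 * (lm + 1) * (scale N' Lh l).length := hsc
    _ ≤ 2 * (lm + 1) * (2 * (scale N' Lh l).countP (fun C => decide (Hit τ C))) := by gcongr
    _ ≤ 2 * (lm + 1) * (2 * Lh.countP (fun C => decide (Hit τ C))) := by gcongr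
    _ = _ := by ring

/-- Greedy covering: if every nonempty subset `N'` of `Nn` has a member of `J` containing a
`1 / Q` fraction of it, and `|Nn| < 2 ^ m`, then `Nn` is covered by `Q * m` members of `J`. -/
theorem greedy (Nn : Finset X) (J : List (List X)) (Q : ℕ) (hQ : 0 < Q)
    (hfrac : ∀ N' ⊆ Nn, N'.Nonempty → ∃ C ∈ J, N'.card ≤ Q * cnt N' C) :
    ∀ (m : ℕ) (N' : Finset X), N' ⊆ Nn → N'.card < 2 ^ m →
      ∃ S : List (List X), S.length ≤ Q * m ∧ (∀ C ∈ S, C ∈ J) ∧ ∀ x ∈ N', ∃ C ∈ S, x ∈ C := by
  intro m
  induction m with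
  | zero =>
    intro N' _ hcard
    have : N' = ∅ := by
      rw [← Finset.card_eq_zero]; omega
    subst this
    exact ⟨[], by simp, by simp, by simp⟩
  | succ m ih =>
    intro N' hsub hcard
    -- inner greedy steps
    have key : ∀ (q : ℕ), q ≤ Q → ∃ S : List (List X), ∃ N'' ⊆ N', S.length ≤ q ∧
        (∀ C ∈ S, C ∈ J) ∧ (∀ x ∈ N', x ∈ N'' ∨ ∃ C ∈ S, x ∈ C) ∧
        (N''.card < 2 ^ m ∨ Q * N''.card + q * 2 ^ m ≤ Q * N'.card) := by
      intro q
      induction q with
      | zero =>
        intro _
        exact ⟨[], N', subset_rfl, by simp, by simp, fun x hx => Or.inl hx, Or.inr (by simp)⟩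
      | succ q ihq =>
        intro hq
        obtain ⟨S, N'', hN'', hlen, hS, hcovS, hor⟩ := ihq (by omega)
        by_cases hsmall : N''.card < 2 ^ m
        · exact ⟨S, N'', hN'', by omega, hS, hcovS, Or.inl hsmall⟩
        · have hor' : Q * N''.card + q * 2 ^ m ≤ Q * N'.card := by
            rcases hor with h | h
            · exact absurd h hsmall
            · exact h
          push Not at hsmall
          have hne : N''.Nonempty := by
            rw [← Finset.card_pos]
            have : 0 < 2 ^ m := by positivity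
            omega
          obtain ⟨C, hC, hCf⟩ := hfrac N'' (hN''.trans hsub) hne
          refine ⟨C :: S, N''.filter (· ∉ C), (Finset.filter_subset _ _).trans hN'', ?_, ?_, ?_,
            Or.inr ?_⟩
          · simp; omega
          · intro D hD
            rcases List.mem_cons.1 hD with rfl | hD
            · exact hC
            · exact hS D hD
          · intro x hx
            rcases hcovS x hx with h | ⟨D, hD, hxD⟩
            · by_cases hxC : x ∈ C
              · exact Or.inr ⟨C, List.mem_cons_self, hxC⟩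
              · exact Or.inl (Finset.mem_filter.2 ⟨h, hxC⟩)
            · exact Or.inr ⟨D, List.mem_cons_of_mem _ hD, hxD⟩
          · have h7 := Finset.card_filter_add_card_filter_not (s := N'') (fun x => x ∈ C)
            have h8 : cnt N'' C = (N''.filter (· ∈ C)).card := rfl
            have h9 : Q * N''.card = Q * cnt N'' C + Q * (N''.filter (· ∉ C)).card := by
              rw [← mul_add, h8, h7]
            have h10 : (q + 1) * 2 ^ m = q * 2 ^ m + 2 ^ m := by ring
            omega
    obtain ⟨S, N'', hN'', hlen, hS, hcovS, hor⟩ := key Q le_rfl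
    have hsmall : N''.card < 2 ^ m := by
      rcases hor with h | h
      · exact h
      · have : Q * (N''.card + 2 ^ m) ≤ Q * N'.card := by rw [mul_add]; exact h
        have := Nat.le_of_mul_le_mul_left this hQ
        rw [pow_succ] at hcard
        omega
    obtain ⟨S', hlen', hS', hcov'⟩ := ih N'' (hN''.trans hsub) hsmall
    refine ⟨S ++ S', ?_, ?_, ?_⟩
    · rw [List.length_append, mul_add, mul_one]; omega
    · intro C hC
      rcases List.mem_append.1 hC with h | h
      · exact hS C h
      · exact hS' C h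
    · intro x hx
      rcases hcovS x hx with h | ⟨D, hD, hxD⟩
      · obtain ⟨C, hC, hxC⟩ := hcov' x h
        exact ⟨C, List.mem_append_right _ hC, hxC⟩
      · exact ⟨D, List.mem_append_left _ hD, hxD⟩

end

end Pool.Agent.GWP
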