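import Mathlib

/-!
Packaging: clusters are put into bins, assignments to a bin are cut into chunks.
-/

namespace Pool.Agent.GWP

open scoped Classical

variable {X : Type}

/-- The clusters with their bins: the bin of a cluster is the total size of the earlier clusters
divided by `A`. -/
def wb (A : ℕ) : List (List X) → List (List X × ℕ)
  | [] => []
  | C :: J => (C, ((J.map List.length).sum) / A) :: wb A J

theorem wb_suffix {A : ℕ} {J J' : List (List X)} (h : J' <:+ J) : wb A J' <:+ wb A J := by
  induction J with
  | nil =>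
    have : J' = [] := List.eq_nil_of_suffix_nil h
    subst this; exact List.suffix_refl _
  | cons C J ih =>
    rcases List.suffix_cons_iff.1 h with rfl | h'
    · exact List.suffix_refl _
    · exact (ih h').trans (by rw [wb]; exact List.suffix_cons _ _)

theorem exists_bin {A : ℕ} {J : List (List X)} {C : List X} (h : C ∈ J) :
    ∃ b, (C, b) ∈ wb A J := by
  induction J with
  | nil => simp at h
  | cons D J ih =>
    rw [wb]
    rcases List.mem_cons.1 h with rfl | h
    · exact ⟨_, List.mem_cons_self⟩
    · obtain ⟨b, hb⟩ := ih h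
      exact ⟨b, List.mem_cons_of_mem _ hb⟩

theorem bin_le {A : ℕ} {J : List (List X)} {C : List X} {b : ℕ} (h : (C, b) ∈ wb A J) :
    b ≤ (J.map List.length).sum / A := by
  induction J with
  | nil => simp [wb] at h
  | cons D J ih =>
    rw [wb] at h
    rw [List.map_cons, List.sum_cons]
    rcases List.mem_cons.1 h with h | h
    · have h2 : b = (J.map List.length).sum / A := (Prod.ext_iff.1 h).2
      rw [h2]
      exact Nat.div_le_div_right (Nat.le_add_left _ _)
    · exact (ih h).trans (Nat.div_le_div_right (Nat.le_add_left _ _))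

/-- Total size of the clusters in bin `k`. -/
def binSize (A k : ℕ) (J : List (List X)) : ℕ :=
  (((wb A J).filter fun Cb => decide (Cb.2 = k)).map fun Cb => Cb.1.length).sum

theorem binSize_le {A : ℕ} (hA : 0 < A) (k : ℕ) {J : List (List X)} (hJ : ∀ C ∈ J, C.length ≤ A) :
    binSize A k J ≤ (J.map List.length).sum - k * A ∧ binSize A k J ≤ 2 * A := by
  induction J with
  | nil => simp [binSize, wb]
  | cons C J ih =>
    obtain ⟨h1, h2⟩ := ih fun D hD => hJ D (List.mem_cons_of_mem _ hD)
    have hC := hJ C List.mem_cons_self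
    rw [List.map_cons, List.sum_cons]
    set s := (J.map List.length).sum with hs
    by_cases hk : s / A = k
    · have h3 : binSize A k (C :: J) = C.length + binSize A k J := by
        unfold binSize
        rw [wb, ← hs, List.filter_cons_of_pos (by simpa using hk)]
        simp
      have h4 : k * A ≤ s := by rw [← hk]; exact Nat.div_mul_le_self s A
      have h5 : s < k * A + A := by
        rw [← hk]
        have := Nat.lt_div_mul_add (a := s) hA
        exact this
      rw [h3]
      constructor <;> omega
    · have h3 : binSize A k (C :: J) = binSize A k J := by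
        unfold binSize
        rw [wb, ← hs, List.filter_cons_of_neg (by simpa using hk)]
      rw [h3]
      constructor
      · exact h1.trans (by omega)
      · exact h2

/-- The assignments `(y, bin)` with their chunk. -/
def ch (B : ℕ) : List (X × ℕ) → List (X × (ℕ × ℕ))
  | [] => []
  | z :: a => (z.1, (z.2, a.countP (fun w => decide (w.2 = z.2)) / B)) :: ch B a

theorem ch_suffix {B : ℕ} {a a' : List (X × ℕ)} (h : a' <:+ a) : ch B a' <:+ ch B a := by
  induction a with
  | nil =>
    have : a' = [] := List.eq_nil_of_suffix_nil h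
    subst this; exact List.suffix_refl _
  | cons C J ih =>
    rcases List.suffix_cons_iff.1 h with rfl | h'
    · exact List.suffix_refl _
    · exact (ih h').trans (by rw [ch]; exact List.suffix_cons _ _)

theorem exists_chunk {B : ℕ} {a : List (X × ℕ)} {y : X} {b : ℕ} (h : (y, b) ∈ a) :
    ∃ i, (y, (b, i)) ∈ ch B a := by
  induction a with
  | nil => simp at h
  | cons z a ih =>
    rw [ch]
    rcases List.mem_cons.1 h with h | h
    · subst h; exact ⟨_, List.mem_cons_self⟩
    · obtain ⟨i, hi⟩ := ih h
      exact ⟨i, List.mem_cons_of_mem _ hi⟩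

theorem ch_count {B : ℕ} (hB : 0 < B) (b i : ℕ) (a : List (X × ℕ)) :
    (ch B a).countP (fun z => decide (z.2 = (b, i))) ≤
      a.countP (fun w => decide (w.2 = b)) - i * B ∧
    (ch B a).countP (fun z => decide (z.2 = (b, i))) ≤ B := by
  induction a with
  | nil => simp [ch]
  | cons z a ih =>
    obtain ⟨h1, h2⟩ := ih
    rw [ch]
    by_cases hz : z.2 = b
    · rw [List.countP_cons_of_pos (l := a) (by simpa using hz)]
      set c := a.countP (fun w => decide (w.2 = b)) with hc
      by_cases hi : c / B = i
      · rw [List.countP_cons_of_pos (by simp only [hz, ← hc, hi, decide_true])]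
        have h4 : i * B ≤ c := by rw [← hi]; exact Nat.div_mul_le_self c B
        have h5 : c < i * B + B := by
          rw [← hi]; exact Nat.lt_div_mul_add (a := c) hB
        constructor <;> omega
      · rw [List.countP_cons_of_neg (by simp only [hz, ← hc, hi, Prod.mk.injEq, and_false, decide_false, Bool.false_eq_true, not_false_eq_true])]
        exact ⟨h1.trans (by omega), h2⟩
    · rw [List.countP_cons_of_neg (l := a) (by simpa using hz)]
      rw [List.countP_cons_of_neg]
      · exact ⟨h1, h2⟩
      · simp [hz]

theorem ch_mem {B : ℕ} {a : List (X × ℕ)} {y : X} {b i : ℕ} (h : (y, (b, i)) ∈ ch B a) :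
    (y, b) ∈ a ∧ i ≤ a.countP (fun w => decide (w.2 = b)) / B := by
  induction a with
  | nil => simp [ch] at h
  | cons z a ih =>
    rw [ch] at h
    rcases List.mem_cons.1 h with h | h
    · have h1 := Prod.ext_iff.1 h
      have h2 := Prod.ext_iff.1 h1.2
      simp only at h1 h2
      constructor
      · rw [List.mem_cons]; left
        exact Prod.ext h1.1 h2.1
      · rw [h2.2, List.countP_cons, h2.1]
        exact Nat.div_le_div_right (Nat.le_add_right _ _)
    · obtain ⟨h1, h2⟩ := ih h
      refine ⟨List.mem_cons_of_mem _ h1, h2.trans (Nat.div_le_div_right ?_)⟩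
      rw [List.countP_cons]; exact Nat.le_add_right _ _

theorem sum_countP_bins (a : List (X × ℕ)) (nb : ℕ) :
    ∑ b ∈ Finset.range nb, a.countP (fun w => decide (w.2 = b)) ≤ a.length := by
  induction a with
  | nil => simp
  | cons z a ih =>
    simp only [List.countP_cons, Finset.sum_add_distrib, List.length_cons]
    have : ∑ b ∈ Finset.range nb, (if decide (z.2 = b) = true then 1 else 0) ≤ 1 := by
      simp only [decide_eq_true_eq, Finset.sum_ite_eq]
      split_ifs <;> simp
    omega

/-- The number of rectangles in use. -/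
theorem active_card {B : ℕ} (hB : 0 < B) (a : List (X × ℕ)) (nb : ℕ)
    (hb : ∀ z ∈ a, z.2 < nb) :
    ((ch B a).map Prod.snd).toFinset.card ≤ nb + a.length / B := by
  have hsub : ((ch B a).map Prod.snd).toFinset ⊆ (Finset.range nb).biUnion fun b =>
      (Finset.range (a.countP (fun w => decide (w.2 = b)) / B + 1)).image fun i => (b, i) := by
    intro R hR
    rw [List.mem_toFinset, List.mem_map] at hR
    obtain ⟨z, hz, rfl⟩ := hR
    obtain ⟨y, b, i⟩ := z
    obtain ⟨h1, h2⟩ := ch_mem hz
    rw [Finset.mem_biUnion]
    refine ⟨b, Finset.mem_range.2 (hb _ h1), ?_⟩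
    rw [Finset.mem_image]
    exact ⟨i, Finset.mem_range.2 (Nat.lt_succ_of_le h2), rfl⟩
  calc _ ≤ _ := Finset.card_le_card hsub
    _ ≤ ∑ b ∈ Finset.range nb, ((Finset.range
          (a.countP (fun w => decide (w.2 = b)) / B + 1)).image fun i => (b, i)).card :=
        Finset.card_biUnion_le
    _ ≤ ∑ b ∈ Finset.range nb, (a.countP (fun w => decide (w.2 = b)) / B + 1) := by
        apply Finset.sum_le_sum
        intro b _
        refine Finset.card_image_le.trans ?_
        simp
    _ = (∑ b ∈ Finset.range nb, a.countP (fun w => decide (w.2 = b)) / B) + nb := by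
        rw [Finset.sum_add_distrib]; simp
    _ ≤ (∑ b ∈ Finset.range nb, a.countP (fun w => decide (w.2 = b))) / B + nb := by
        apply Nat.add_le_add_right
        rw [Nat.le_div_iff_mul_le hB, Finset.sum_mul]
        exact Finset.sum_le_sum fun b _ => Nat.div_mul_le_self _ _
    _ ≤ a.length / B + nb := Nat.add_le_add_right (Nat.div_le_div_right (sum_countP_bins a nb)) _
    _ = _ := add_comm _ _

/-- The rectangles: `(R, false, y)` means that `y` is on the right side of `R`, `(R, true, x)`
that `x` is on its left side. -/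
noncomputable def rects (A B : ℕ) (J : List (List X)) (a : List (X × ℕ)) :
    Finset ((ℕ × ℕ) × Bool × X) :=
  ((ch B a).map fun z => (z.2, false, z.1)).toFinset ∪
    ((ch B a).flatMap fun z => (wb A J).flatMap fun Cb =>
      if Cb.2 = z.2.1 then Cb.1.map (fun x => (z.2, true, x)) else []).toFinset

theorem mem_rects_false {A B : ℕ} {J : List (List X)} {a : List (X × ℕ)} {R : ℕ × ℕ} {y : X} :
    (R, false, y) ∈ rects A B J a ↔ (y, R) ∈ ch B a := by
  unfold rects
  rw [Finset.mem_union, List.mem_toFinset, List.mem_toFinset, List.mem_map, List.mem_flatMap]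
  constructor
  · rintro (⟨z, hz, h⟩ | ⟨z, hz, h⟩)
    · simp only [Prod.mk.injEq, true_and] at h
      rw [← h.1, ← h.2]; exact hz
    · exfalso
      rw [List.mem_flatMap] at h
      obtain ⟨Cb, _, h⟩ := h
      split_ifs at h
      · rw [List.mem_map] at h
        obtain ⟨x, _, h⟩ := h
        simp at h
      · simp at h
  · intro h
    left
    exact ⟨_, h, rfl⟩

theorem mem_rects_true {A B : ℕ} {J : List (List X)} {a : List (X × ℕ)} {R : ℕ × ℕ} {x : X} :
    (R, true, x) ∈ rects A B J a ↔ (∃ y, (y, R) ∈ ch B a) ∧ ∃ C, (C, R.1) ∈ wb A J ∧ x ∈ C := by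
  unfold rects
  rw [Finset.mem_union, List.mem_toFinset, List.mem_toFinset, List.mem_map, List.mem_flatMap]
  constructor
  · rintro (⟨z, hz, h⟩ | ⟨z, hz, h⟩)
    · exfalso
      simp at h
    · rw [List.mem_flatMap] at h
      obtain ⟨Cb, hCb, h⟩ := h
      split_ifs at h with hc
      · rw [List.mem_map] at h
        obtain ⟨x', hx', h⟩ := h
        simp only [Prod.mk.injEq, true_and] at h
        obtain ⟨h1, rfl⟩ := h
        subst h1
        exact ⟨⟨_, hz⟩, Cb.1, by rw [← hc]; exact hCb, hx'⟩
      · simp at h
  · rintro ⟨⟨y, hy⟩, C, hC, hx⟩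
    right
    refine ⟨(y, R), hy, ?_⟩
    rw [List.mem_flatMap]
    refine ⟨(C, R.1), hC, ?_⟩
    rw [if_pos rfl, List.mem_map]
    exact ⟨x, hx, rfl⟩

theorem rects_mono {A B : ℕ} {J J' : List (List X)} {a a' : List (X × ℕ)} (hJ : J' <:+ J)
    (ha : a' <:+ a) : rects A B J' a' ⊆ rects A B J a := by
  rintro ⟨R, b, z⟩ h
  cases b with
  | false =>
    rw [mem_rects_false] at h ⊢
    exact (ch_suffix ha).subset h
  | true =>
    rw [mem_rects_true] at h ⊢
    obtain ⟨⟨y, hy⟩, C, hC, hx⟩ := h
    exact ⟨⟨y, (ch_suffix ha).subset hy⟩, C, (wb_suffix hJ).subset hC, hx⟩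

theorem rects_right_card [Fintype X] {A B : ℕ} (hB : 0 < B) (J : List (List X)) (a : List (X × ℕ))
    (R : ℕ × ℕ) : (Finset.univ.filter fun y : X => (R, false, y) ∈ rects A B J a).card ≤ B := by
  have h1 : (Finset.univ.filter fun y : X => (R, false, y) ∈ rects A B J a) ⊆
      (((ch B a).filter fun z => decide (z.2 = R)).map Prod.fst).toFinset := by
    intro y hy
    rw [Finset.mem_filter, mem_rects_false] at hy
    rw [List.mem_toFinset, List.mem_map]
    exact ⟨(y, R), by rw [List.mem_filter]; exact ⟨hy.2, by simp⟩, rfl⟩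
  refine (Finset.card_le_card h1).trans ((List.toFinset_card_le _).trans ?_)
  rw [List.length_map, ← List.countP_eq_length_filter]
  exact (ch_count hB R.1 R.2 a).2

theorem rects_left_card [Fintype X] {A B : ℕ} (hA : 0 < A) (J : List (List X))
    (hJ : ∀ C ∈ J, C.length ≤ A) (a : List (X × ℕ))
    (R : ℕ × ℕ) : (Finset.univ.filter fun x : X => (R, true, x) ∈ rects A B J a).card ≤ 2 * A := by
  have h1 : (Finset.univ.filter fun x : X => (R, true, x) ∈ rects A B J a) ⊆
      (((wb A J).filter fun Cb => decide (Cb.2 = R.1)).flatMap Prod.fst).toFinset := by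
    intro x hx
    rw [Finset.mem_filter, mem_rects_true] at hx
    obtain ⟨_, _, C, hC, hx⟩ := hx
    rw [List.mem_toFinset, List.mem_flatMap]
    exact ⟨(C, R.1), by rw [List.mem_filter]; exact ⟨hC, by simp⟩, hx⟩
  refine (Finset.card_le_card h1).trans ((List.toFinset_card_le _).trans ?_)
  rw [List.length_flatMap]
  exact (binSize_le hA R.1 hJ).2

end Pool.Agent.GWP
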