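import Pool.Agent.GWP.Fenwick

/-!
Plays of the particle game: facts `(p, true, x)` put `x` on the left side of particle `p`, facts
`(p, false, y)` put `y` on the right side. A play is a list of facts, newest first.
-/

namespace Pool.Agent.GWP

open scoped Classical

variable {P X : Type}

/-- The left side of the particle `p` (newest first). -/
noncomputable def xs (p : P) : List (P × Bool × X) → List X
  | [] => []
  | f :: l => if f.1 = p ∧ f.2.1 = true then f.2.2 :: xs p l else xs p l

/-- The right facts about `y`, each with the blocks of the particle at that time. -/
noncomputable def items (y : X) : List (P × Bool × X) → List (List (List X))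
  | [] => []
  | f :: l => if f.2.1 = false ∧ f.2.2 = y then blocks (xs f.1 l) :: items y l else items y l

/-- All clusters created. -/
noncomputable def clusters : List (P × Bool × X) → List (List X)
  | [] => []
  | f :: l => if f.2.1 = true then top 1 (f.2.2 :: xs f.1 l) :: clusters l else clusters l

/-- Legal plays. -/
structure Legal (A B : ℕ) (l : List (P × Bool × X)) : Prop where
  nodup : l.Nodup
  left : ∀ p : P, l.countP (fun f => decide (f.1 = p ∧ f.2.1 = true)) ≤ A
  right : ∀ p : P, l.countP (fun f => decide (f.1 = p ∧ f.2.1 = false)) ≤ B

theorem Legal.suffix {A B : ℕ} {l l' : List (P × Bool × X)} (h : Legal A B l) (hs : l' <:+ l) :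
    Legal A B l' :=
  ⟨h.nodup.sublist hs.sublist, fun p => (hs.sublist.countP_le).trans (h.left p),
    fun p => (hs.sublist.countP_le).trans (h.right p)⟩

/-- Number of particles `p` that contain `y` on the right and had `x` on the left before. -/
noncomputable def yl (x y : X) : List (P × Bool × X) → ℕ
  | [] => 0
  | f :: l => (if f.2.1 = false ∧ f.2.2 = y ∧ (f.1, true, x) ∈ l then 1 else 0) + yl x y l

theorem mem_xs {p : P} {x : X} {l : List (P × Bool × X)} : x ∈ xs p l ↔ (p, true, x) ∈ l := by
  induction l with
  | nil => simp [xs]
  | cons f l ih =>
    rw [xs]
    obtain ⟨p', b, z⟩ := f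
    by_cases h : p' = p ∧ b = true
    · obtain ⟨rfl, rfl⟩ := h
      rw [if_pos ⟨rfl, rfl⟩, List.mem_cons, List.mem_cons, ih]
      simp
    · rw [if_neg h, ih, List.mem_cons]
      constructor
      · exact Or.inr
      · rintro (h' | h')
        · simp only [Prod.mk.injEq] at h'
          exact absurd ⟨h'.1.symm, h'.2.1.symm⟩ h
        · exact h'

theorem xs_length {p : P} {l : List (P × Bool × X)} :
    (xs p l).length = l.countP (fun f => decide (f.1 = p ∧ f.2.1 = true)) := by
  induction l with
  | nil => simp [xs]
  | cons f l ih =>
    rw [xs]
    by_cases h : f.1 = p ∧ f.2.1 = true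
    · rw [if_pos h, List.countP_cons_of_pos (by simpa using h), List.length_cons, ih]
    · rw [if_neg h, List.countP_cons_of_neg (by simpa using h), ih]

theorem items_length {y : X} {l : List (P × Bool × X)} :
    (items y l).length = l.countP (fun f => decide (f.2.1 = false ∧ f.2.2 = y)) := by
  induction l with
  | nil => simp [items]
  | cons f l ih =>
    rw [items]
    by_cases h : f.2.1 = false ∧ f.2.2 = y
    · rw [if_pos h, List.countP_cons_of_pos (by simpa using h), List.length_cons, ih]
    · rw [if_neg h, List.countP_cons_of_neg (by simpa using h), ih]

theorem yl_eq (x y : X) (l : List (P × Bool × X)) :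
    yl x y l = (items y l).countP (fun it => decide (∃ C ∈ it, x ∈ C)) := by
  induction l with
  | nil => simp [yl, items]
  | cons f l ih =>
    rw [yl, items]
    by_cases h : f.2.1 = false ∧ f.2.2 = y
    · rw [if_pos h]
      by_cases h2 : (f.1, true, x) ∈ l
      · rw [if_pos ⟨h.1, h.2, h2⟩, List.countP_cons_of_pos, ih, add_comm]
        simp only [decide_eq_true_eq]
        rw [mem_blocks_flatten, mem_xs]
        exact h2
      · rw [if_neg (fun h' => h2 h'.2.2), List.countP_cons_of_neg, ih, zero_add]
        simp only [decide_eq_true_eq]
        rw [mem_blocks_flatten, mem_xs]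
        exact h2
    · rw [if_neg h, if_neg (fun h' => h ⟨h'.1, h'.2.1⟩), ih, zero_add]

theorem items_suffix {y : X} : ∀ {l : List (P × Bool × X)} {L' : List (List (List X))},
    L' <:+ items y l → L' ≠ [] →
    ∃ f l', f :: l' <:+ l ∧ f.2.1 = false ∧ f.2.2 = y ∧ items y (f :: l') = L' := by
  intro l
  induction l with
  | nil =>
    intro L' h hne
    rw [items] at h
    exact absurd (List.eq_nil_of_suffix_nil h) hne
  | cons f l ih =>
    intro L' h hne
    by_cases hf : f.2.1 = false ∧ f.2.2 = y
    · have h0 := h
      rw [items, if_pos hf] at h
      rcases List.suffix_cons_iff.1 h with h' | h'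
      · exact ⟨f, l, List.suffix_refl _, hf.1, hf.2, by rw [h', items, if_pos hf]⟩
      · obtain ⟨f', l', h1, h2, h3, h4⟩ := ih h' hne
        exact ⟨f', l', h1.trans (List.suffix_cons _ _), h2, h3, h4⟩
    · rw [items, if_neg hf] at h
      obtain ⟨f', l', h1, h2, h3, h4⟩ := ih h hne
      exact ⟨f', l', h1.trans (List.suffix_cons _ _), h2, h3, h4⟩

theorem clusters_length_le {A B : ℕ} {l : List (P × Bool × X)} (h : Legal A B l) :
    ∀ C ∈ clusters l, C.length ≤ A := by
  induction l with
  | nil => simp [clusters]
  | cons f l ih =>
    intro C hC
    rw [clusters] at hC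
    have hl : Legal A B l := h.suffix (List.suffix_cons _ _)
    by_cases hf : f.2.1 = true
    · rw [if_pos hf] at hC
      rcases List.mem_cons.1 hC with rfl | hC
      · have h1 := h.left f.1
        rw [← xs_length, xs, if_pos ⟨rfl, hf⟩] at h1
        exact (top_length_le' _ _).trans h1
      · exact ih hl C hC
    · rw [if_neg hf] at hC
      exact ih hl C hC

theorem clusters_length_pos {l : List (P × Bool × X)} :
    ∀ C ∈ clusters l, 0 < C.length := by
  induction l with
  | nil => simp [clusters]
  | cons f l ih =>
    intro C hC
    rw [clusters] at hC
    by_cases hf : f.2.1 = true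
    · rw [if_pos hf] at hC
      rcases List.mem_cons.1 hC with rfl | hC
      · rw [top_one_cons, List.length_take, List.length_cons]
        have := lowbit_pos ((xs f.1 l).length + 1)
        omega
      · exact ih C hC
    · rw [if_neg hf] at hC
      exact ih C hC

section
variable [Fintype P]

theorem clusters_total (l : List (P × Bool × X)) :
    ((clusters l).map List.length).sum ≤ ∑ p : P, lbsum (xs p l).length := by
  induction l with
  | nil => simp [clusters]
  | cons f l ih =>
    rw [clusters]
    by_cases hf : f.2.1 = true
    · rw [if_pos hf, List.map_cons, List.sum_cons]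
      have h1 : (top 1 (f.2.2 :: xs f.1 l)).length ≤ lowbit ((xs f.1 l).length + 1) := by
        have := top_length_le 1 (f.2.2 :: xs f.1 l)
        simpa using this
      have h2 : ∑ p : P, lbsum (xs p (f :: l)).length =
          (lowbit ((xs f.1 l).length + 1)) + ∑ p : P, lbsum (xs p l).length := by
        rw [← Finset.add_sum_erase _ _ (Finset.mem_univ f.1),
          ← Finset.add_sum_erase (a := f.1) Finset.univ (fun p => lbsum (xs p l).length)
            (Finset.mem_univ f.1)]
        rw [← add_assoc]
        congr 1
        · rw [xs, if_pos ⟨rfl, hf⟩, List.length_cons, lbsum]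
        · apply Finset.sum_congr rfl
          intro p hp
          simp only [xs]
          rw [if_neg]
          rintro ⟨h', _⟩
          exact (Finset.mem_erase.1 hp).1 h'.symm
      rw [h2]; omega
    · rw [if_neg hf]
      refine ih.trans (le_of_eq ?_)
      apply Finset.sum_congr rfl
      intro p _
      simp only [xs]
      rw [if_neg (fun h' => hf h'.2)]

theorem clusters_total_le {A B lam : ℕ} {l : List (P × Bool × X)} (h : Legal A B l)
    (hlam : A < 2 ^ lam) :
    ((clusters l).map List.length).sum ≤ Fintype.card P * (A * lam) := by
  refine (clusters_total l).trans ?_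
  calc ∑ p : P, lbsum (xs p l).length ≤ ∑ p : P, A * lam := by
        apply Finset.sum_le_sum
        intro p _
        have h1 := h.left p
        rw [← xs_length] at h1
        calc lbsum (xs p l).length ≤ (xs p l).length * lam := lbsum_le (by omega)
          _ ≤ A * lam := Nat.mul_le_mul_right _ h1
    _ = _ := by simp

theorem clusters_countP (q : List X → Bool) (l : List (P × Bool × X)) :
    (clusters l).countP q = ∑ p : P, (created (xs p l)).countP q := by
  induction l with
  | nil => simp [clusters, xs, created]
  | cons f l ih =>
    rw [clusters]
    by_cases hf : f.2.1 = true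
    · rw [if_pos hf, List.countP_cons, ih]
      rw [← Finset.add_sum_erase _ _ (Finset.mem_univ f.1),
          ← Finset.add_sum_erase (a := f.1) Finset.univ (fun p => (created (xs p (f :: l))).countP q)
            (Finset.mem_univ f.1)]
      have h1 : (created (xs f.1 (f :: l))).countP q = (created (xs f.1 l)).countP q +
          if q (top 1 (f.2.2 :: xs f.1 l)) = true then 1 else 0 := by
        rw [xs, if_pos ⟨rfl, hf⟩, created, List.countP_cons]
      rw [h1]
      have h2 : ∑ p ∈ Finset.univ.erase f.1, (created (xs p (f :: l))).countP q =
          ∑ p ∈ Finset.univ.erase f.1, (created (xs p l)).countP q := by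
        apply Finset.sum_congr rfl
        intro p hp
        simp only [xs]
        rw [if_neg]
        rintro ⟨h', _⟩
        exact (Finset.mem_erase.1 hp).1 h'.symm
      rw [h2]; ring
    · rw [if_neg hf, ih]
      apply Finset.sum_congr rfl
      intro p _
      simp only [xs]
      rw [if_neg (fun h' => hf h'.2)]

omit [Fintype P] in
theorem created_xs_suffix (p : P) (f : P × Bool × X) (l : List (P × Bool × X)) :
    created (xs p l) <:+ created (xs p (f :: l)) := by
  apply created_suffix
  simp only [xs]
  split_ifs
  · exact List.suffix_cons _ _
  · exact List.suffix_refl _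

theorem items_countP (q : List X → Bool) (y : X) {l : List (P × Bool × X)} (hn : l.Nodup) :
    (items y l).flatten.countP q ≤
      ∑ p ∈ Finset.univ.filter (fun p : P => (p, false, y) ∈ l), (created (xs p l)).countP q := by
  induction l with
  | nil => simp [items]
  | cons f l ih =>
    have ih' := ih (List.nodup_cons.1 hn).2
    have hmono : ∑ p ∈ Finset.univ.filter (fun p : P => (p, false, y) ∈ l),
        (created (xs p l)).countP q ≤
        ∑ p ∈ Finset.univ.filter (fun p : P => (p, false, y) ∈ l),
        (created (xs p (f :: l))).countP q :=
      Finset.sum_le_sum fun p _ => (created_xs_suffix p f l).sublist.countP_le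
    by_cases hf : f.2.1 = false ∧ f.2.2 = y
    · rw [items, if_pos hf, List.flatten_cons, List.countP_append]
      have hfeq : f = (f.1, false, y) := by
        obtain ⟨a, b, c⟩ := f
        simp only at hf
        rw [hf.1, hf.2]
      have hnot : (f.1, false, y) ∉ l := by
        rw [← hfeq]; exact (List.nodup_cons.1 hn).1
      have hset : Finset.univ.filter (fun p : P => (p, false, y) ∈ f :: l) =
          insert f.1 (Finset.univ.filter (fun p : P => (p, false, y) ∈ l)) := by
        ext p
        simp only [Finset.mem_filter, Finset.mem_univ, true_and, Finset.mem_insert, List.mem_cons]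
        constructor
        · rintro (h | h)
          · left; rw [← h]
          · exact Or.inr h
        · rintro (h | h)
          · left; rw [h]; exact hfeq.symm
          · exact Or.inr h
      rw [hset, Finset.sum_insert (by simpa using hnot)]
      have h1 : (blocks (xs f.1 l)).countP q ≤ (created (xs f.1 (f :: l))).countP q :=
        ((blocks_sublist_created _ _ le_rfl).countP_le).trans
          (created_xs_suffix f.1 f l).sublist.countP_le
      omega
    · rw [items, if_neg hf]
      have hset : Finset.univ.filter (fun p : P => (p, false, y) ∈ f :: l) =
          Finset.univ.filter (fun p : P => (p, false, y) ∈ l) := by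
        ext p
        simp only [Finset.mem_filter, Finset.mem_univ, true_and, List.mem_cons]
        constructor
        · rintro (h | h)
          · exact absurd ⟨by rw [← h], by rw [← h]⟩ hf
          · exact h
        · exact Or.inr
      rw [hset]
      exact ih'.trans hmono

/-- The payload of a block of items is part of the multiset of all clusters. -/
theorem payload_countP (q : List X → Bool) (y : X) {l : List (P × Bool × X)} (hn : l.Nodup)
    (u : ℕ) : (top u (items y l)).flatten.countP q ≤ (clusters l).countP q := by
  rw [clusters_countP]
  calc (top u (items y l)).flatten.countP q ≤ (items y l).flatten.countP q := by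
        apply List.Sublist.countP_le
        exact List.Sublist.flatten (top_sublist _ _)
    _ ≤ _ := items_countP q y hn
    _ ≤ _ := Finset.sum_le_sum_of_subset (Finset.filter_subset _ _)

theorem items_length_le {y : X} {l : List (P × Bool × X)} (hn : l.Nodup) :
    (items y l).length ≤ Fintype.card P := by
  have : (items y l).length ≤ (Finset.univ.filter (fun p : P => (p, false, y) ∈ l)).card := by
    induction l with
    | nil => simp [items]
    | cons f l ih =>
      have ih' := ih (List.nodup_cons.1 hn).2
      by_cases hf : f.2.1 = false ∧ f.2.2 = y
      · rw [items, if_pos hf, List.length_cons]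
        have hfeq : f = (f.1, false, y) := by
          obtain ⟨a, b, c⟩ := f
          simp only at hf
          rw [hf.1, hf.2]
        have hnot : (f.1, false, y) ∉ l := by
          rw [← hfeq]; exact (List.nodup_cons.1 hn).1
        have hset : insert f.1 (Finset.univ.filter (fun p : P => (p, false, y) ∈ l)) ⊆
            Finset.univ.filter (fun p : P => (p, false, y) ∈ f :: l) := by
          intro p hp
          simp only [Finset.mem_filter, Finset.mem_univ, true_and, Finset.mem_insert,
            List.mem_cons] at hp ⊢
          rcases hp with h | h
          · left; rw [h]; exact hfeq.symm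
          · exact Or.inr h
        refine le_trans ?_ (Finset.card_le_card hset)
        rw [Finset.card_insert_of_notMem (by simpa using hnot)]
        omega
      · rw [items, if_neg hf]
        refine ih'.trans (Finset.card_le_card ?_)
        intro p hp
        simp only [Finset.mem_filter, Finset.mem_univ, true_and, List.mem_cons] at hp ⊢
        exact Or.inr hp
  exact this.trans (Finset.card_le_univ _)

theorem sum_items_length [Fintype X] {A B : ℕ} {l : List (P × Bool × X)} (h : Legal A B l) :
    ∑ y : X, (items y l).length ≤ Fintype.card P * B := by
  have h1 : ∑ y : X, (items y l).length = l.countP (fun f => decide (f.2.1 = false)) := by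
    clear h
    induction l with
    | nil => simp [items]
    | cons f l ih =>
      rw [List.countP_cons, ← ih]
      simp only [items_length, List.countP_cons, Finset.sum_add_distrib]
      congr 1
      by_cases hf : f.2.1 = false
      · simp [hf]
      · simp [hf]
  have h2 : l.countP (fun f => decide (f.2.1 = false)) =
      ∑ p : P, l.countP (fun f => decide (f.1 = p ∧ f.2.1 = false)) := by
    clear h h1
    induction l with
    | nil => simp
    | cons f l ih =>
      simp only [List.countP_cons, Finset.sum_add_distrib]
      rw [← ih]
      congr 1
      by_cases hf : f.2.1 = false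
      · simp [hf]
      · simp [hf]
  rw [h1, h2]
  calc _ ≤ ∑ p : P, B := Finset.sum_le_sum fun p _ => h.right p
    _ = _ := by simp

end

theorem items_blocks_length {A B lam : ℕ} {y : X} {l : List (P × Bool × X)} (h : Legal A B l)
    (hlam : A < 2 ^ lam) : ∀ it ∈ items y l, it.length ≤ lam := by
  induction l with
  | nil => simp [items]
  | cons f l ih =>
    intro it hit
    have hl : Legal A B l := h.suffix (List.suffix_cons _ _)
    rw [items] at hit
    split_ifs at hit
    · rcases List.mem_cons.1 hit with rfl | hit
      · have h1 := hl.left f.1
        rw [← xs_length] at h1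
        exact blocks_length_le (by omega)
      · exact ih hl it hit
    · exact ih hl it hit

theorem payload_length {A B lam u : ℕ} {y : X} {l : List (P × Bool × X)} (h : Legal A B l)
    (hlam : A < 2 ^ lam) :
    (top u (items y l)).flatten.length ≤ u * lowbit ((items y l).length / u) * lam := by
  rw [List.length_flatten]
  calc ((top u (items y l)).map List.length).sum ≤ ((top u (items y l)).map fun _ => lam).sum := by
        apply List.sum_le_sum
        intro it hit
        exact items_blocks_length h hlam it ((top_sublist _ _).subset hit)
    _ = (top u (items y l)).length * lam := by simp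
    _ ≤ _ := Nat.mul_le_mul_right _ (top_length_le _ _)

end Pool.Agent.GWP
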