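import Pool.Agent.GWP.Selector
import Pool.Agent.GWP.Cover
import Pool.Agent.GWP.Play
import Pool.Agent.GWP.Pack

/-!
The one-sided strategy of the particle game.
-/

namespace Pool.Agent.GWP

open scoped Classical

/-- The numerical parameters of the one-sided game: `NX` names, `MP` particles. -/
structure Par (NX MP A B mN n₂ lam w h k : ℕ) : Prop where
  hNX : 0 < NX
  hmN : NX < 2 ^ mN
  hMP : 0 < MP
  hA : 0 < A
  hB : 0 < B
  hlam : A < 2 ^ lam
  hlam0 : 0 < lam
  hn₂ : 0 < n₂
  hw : n₂ * lam ≤ 2 ^ w
  hk : 0 < k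
  hh : 0 < h
  hpool : 8 * MP * (A * lam) ≤ 4 ^ h * k

/-- `8 h² mN + 3`. -/
def EE (mN h : ℕ) : ℕ := 8 * h ^ 2 * mN + 3

/-- The threshold `t₂`. -/
def tt (mN n₂ w h k : ℕ) : ℕ := 4 * k * EE mN h * (n₂ + w)

/-- The unit size. -/
def uu (mN n₂ w h k : ℕ) : ℕ := n₂ * tt mN n₂ w h k

/-- The cost factor. -/
def cu (mN w h : ℕ) : ℕ := 32 * h ^ 2 * 2 ^ w * mN

variable {P X : Type}

/-- The index type of the potential. -/
abbrev Om (X : Type) (h Lm : ℕ) : Type := Σ l : Fin Lm, (Fin h × Fin (8 * h * 2 ^ (l : ℕ)) → X)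

theorem sum_weights [Fintype X] [Nonempty X] (h Lm : ℕ) :
    ∑ ω : Om X h Lm, ((Fintype.card X : ℝ) ^ (h * (8 * h * 2 ^ (ω.1 : ℕ))))⁻¹ *
      (2 ^ ((ω.1 : ℕ) + 2))⁻¹ ≤ 1 / 2 := by
  rw [Fintype.sum_sigma]
  have hX : (0 : ℝ) < Fintype.card X := by exact_mod_cast Fintype.card_pos
  have h1 : ∀ l : Fin Lm, ∑ _ω : (Fin h × Fin (8 * h * 2 ^ (l : ℕ)) → X),
      ((Fintype.card X : ℝ) ^ (h * (8 * h * 2 ^ (l : ℕ))))⁻¹ * (2 ^ ((l : ℕ) + 2))⁻¹ =
      (1 / 4) * (1 / 2 : ℝ) ^ (l : ℕ) := by
    intro l
    rw [Finset.sum_const, Finset.card_univ, Fintype.card_fun, Fintype.card_prod, Fintype.card_fin,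
      Fintype.card_fin, nsmul_eq_mul]
    push_cast
    rw [← mul_assoc, mul_inv_cancel₀ (by positivity), pow_add, one_div_pow]
    norm_num
  rw [Finset.sum_congr rfl fun l _ => h1 l, ← Finset.mul_sum]
  have h2 : ∑ l : Fin Lm, (1 / 2 : ℝ) ^ (l : ℕ) ≤ 2 := by
    rw [Fin.sum_univ_eq_sum_range (fun i => (1 / 2 : ℝ) ^ i) Lm]
    have : ∑ i ∈ Finset.range Lm, (1 / 2 : ℝ) ^ i = 2 * (1 - (1 / 2) ^ Lm) := by
      rw [geom_sum_eq (by norm_num)]
      norm_num
      ring
    rw [this]
    have : (0 : ℝ) ≤ (1 / 2) ^ Lm := by positivity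
    linarith
  linarith

theorem two_le_pow (k : ℕ) (hk : 0 < k) : (2 : ℝ) ≤ (1 + 1 / k) ^ k := by
  have hk' : (0 : ℝ) < k := by exact_mod_cast hk
  have := one_add_mul_le_pow (a := (1 / k : ℝ)) (by
    have : (0 : ℝ) ≤ 1 / k := by positivity
    linarith) k
  have h2 : (1 + (k : ℝ) * (1 / k)) = 2 := by field_simp; norm_num
  linarith

/-- A pool selector for the parameters. -/
theorem exists_pool [Fintype X] [Nonempty X] {MP A B mN n₂ lam w h k : ℕ}
    (hpar : Par (Fintype.card X) MP A B mN n₂ lam w h k) :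
    ∃ pool : List (List X) → List (List X), pool [] = [] ∧
      (∀ C L, pool (C :: L) = C :: pool L ∨ pool (C :: L) = pool L) ∧
      ∀ L, (L.map List.length).sum ≤ MP * (A * lam) →
        (((pool L).map List.length).sum) * k ≤ 2 * (MP * (A * lam)) ∧
        ∀ l < n₂ + w, ∀ τ : Fin h × Fin (8 * h * 2 ^ l) → X, (∀ C ∈ pool L, ¬ Hit τ C) →
          L.countP (fun C => decide (Hit τ C)) < 2 ^ l * k * EE mN h := by
  have hk' : (0 : ℝ) < k := by exact_mod_cast hpar.hk
  have hX : (0 : ℝ) < Fintype.card X := by exact_mod_cast Fintype.card_pos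
  have hTot : 0 < MP * (A * lam) := Nat.mul_pos hpar.hMP (Nat.mul_pos hpar.hA hpar.hlam0)
  obtain ⟨pool, h0, hstep, hprop⟩ := exists_selector (α := List X) (Ω := Om X h (n₂ + w))
    (fun ω => ((Fintype.card X : ℝ) ^ (h * (8 * h * 2 ^ (ω.1 : ℕ))))⁻¹ * (2 ^ ((ω.1 : ℕ) + 2))⁻¹)
    (fun ω => by positivity) (sum_weights h (n₂ + w)) (fun ω C => Hit ω.2 C) List.length
    (1 / k) (by positivity) (by
      rw [div_le_one hk']; exact_mod_cast hpar.hk) (MP * (A * lam)) hTot
  refine ⟨pool, h0, hstep, ?_⟩
  intro L hL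
  obtain ⟨h1, h2⟩ := hprop L hL
  constructor
  · have h3 : (((((pool L).map List.length).sum : ℕ)) : ℝ) * k ≤ 2 * ((MP * (A * lam) : ℕ) : ℝ) := by
      have h4 : (2 : ℝ) * (1 / k) * ((MP * (A * lam) : ℕ) : ℝ) =
          (2 * ((MP * (A * lam) : ℕ) : ℝ)) / k := by ring
      rw [h4, le_div_iff₀ hk'] at h1
      exact h1
    exact_mod_cast h3
  · intro l hl τ hτ
    have h3 := h2 ⟨⟨l, hl⟩, τ⟩ hτ
    simp only at h3
    by_contra hcon
    push Not at hcon
    set c := L.countP (fun C => decide (Hit τ C)) with hc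
    have h4 : (2 : ℝ) ^ (2 ^ l * EE mN h) ≤ (1 + 1 / k) ^ c := by
      calc (2 : ℝ) ^ (2 ^ l * EE mN h) ≤ ((1 + 1 / (k : ℝ)) ^ k) ^ (2 ^ l * EE mN h) :=
            pow_le_pow_left₀ (by norm_num) (two_le_pow k hpar.hk) _
        _ = (1 + 1 / (k : ℝ)) ^ (2 ^ l * k * EE mN h) := by
            rw [← pow_mul]; congr 1; ring
        _ ≤ (1 + 1 / (k : ℝ)) ^ c := by
            apply pow_le_pow_right₀ _ hcon
            have : (0 : ℝ) ≤ 1 / k := by positivity
            linarith
    have h5 : (Fintype.card X : ℝ) ^ (h * (8 * h * 2 ^ l)) ≤ 2 ^ (mN * (h * (8 * h * 2 ^ l))) := by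
      rw [pow_mul (2 : ℝ) mN]
      apply pow_le_pow_left₀ hX.le
      exact_mod_cast hpar.hmN.le
    have h6 : (1 + 1 / (k : ℝ)) ^ c ≤ (Fintype.card X : ℝ) ^ (h * (8 * h * 2 ^ l)) * 2 ^ (l + 2) := by
      rw [mul_assoc, inv_mul_le_iff₀ (by positivity), inv_mul_le_iff₀ (by positivity)] at h3
      linarith
    have h7 : (2 : ℝ) ^ (2 ^ l * EE mN h) ≤ 2 ^ (mN * (h * (8 * h * 2 ^ l)) + (l + 2)) := by
      calc (2 : ℝ) ^ (2 ^ l * EE mN h) ≤ _ := h4.trans h6
        _ ≤ 2 ^ (mN * (h * (8 * h * 2 ^ l))) * 2 ^ (l + 2) :=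
            mul_le_mul_of_nonneg_right h5 (by positivity)
        _ = _ := by rw [← pow_add]
    have h8 := (pow_le_pow_iff_right₀ (by norm_num : (1 : ℝ) < 2)).1 h7
    have h9 : 2 ^ l * EE mN h = mN * (h * (8 * h * 2 ^ l)) + 3 * 2 ^ l := by
      unfold EE; ring
    have h10 : l < 2 ^ l := Nat.lt_two_pow_self
    omega

/-- The bins chosen for the payload `Lh`. -/
noncomputable def pick (A cost t : ℕ) (J Lh : List (List X)) : List ℕ :=
  if h : ∃ bs : List ℕ, bs.length ≤ cost ∧ (∀ b ∈ bs, ∃ C, (C, b) ∈ wb A J) ∧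
      ∀ x, t ≤ Lh.countP (fun C => decide (x ∈ C)) → ∃ Cb ∈ wb A J, x ∈ Cb.1 ∧ Cb.2 ∈ bs
    then h.choose else []

theorem pick_length (A cost t : ℕ) (J Lh : List (List X)) :
    (pick A cost t J Lh).length ≤ cost := by
  unfold pick
  split_ifs with h
  · exact h.choose_spec.1
  · simp

theorem pick_bins {A cost t : ℕ} {J Lh : List (List X)} {b : ℕ} (hb : b ∈ pick A cost t J Lh) :
    ∃ C, (C, b) ∈ wb A J := by
  unfold pick at hb
  split_ifs at hb with h
  · exact h.choose_spec.2.1 b hb
  · simp at hb

theorem pick_spec [Fintype X] [Nonempty X] [Fintype P] {A B mN n₂ lam w h k : ℕ}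
    (hpar : Par (Fintype.card X) (Fintype.card P) A B mN n₂ lam w h k)
    (hunits : Fintype.card P / uu mN n₂ w h k < 2 ^ n₂)
    {pool : List (List X) → List (List X)}
    (hpoolp : ∀ L, (L.map List.length).sum ≤ Fintype.card P * (A * lam) →
        (((pool L).map List.length).sum) * k ≤ 2 * (Fintype.card P * (A * lam)) ∧
        ∀ l < n₂ + w, ∀ τ : Fin h × Fin (8 * h * 2 ^ l) → X, (∀ C ∈ pool L, ¬ Hit τ C) →
          L.countP (fun C => decide (Hit τ C)) < 2 ^ l * k * EE mN h)
    (hsub : ∀ L, (pool L).Sublist L)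
    {f : P × Bool × X} {l : List (P × Bool × X)} (hl : Legal A B (f :: l)) (hf : f.2.1 = false)
    (hdvd : uu mN n₂ w h k ∣ (items f.2.2 (f :: l)).length)
    (x : X) (hx : tt mN n₂ w h k ≤ (top (uu mN n₂ w h k) (items f.2.2 (f :: l))).flatten.countP
      (fun C => decide (x ∈ C))) :
    ∃ Cb ∈ wb A (pool (clusters l)), x ∈ Cb.1 ∧ Cb.2 ∈
      pick A (cu mN w h * lowbit ((items f.2.2 (f :: l)).length / uu mN n₂ w h k))
        (tt mN n₂ w h k) (pool (clusters l))
        (top (uu mN n₂ w h k) (items f.2.2 (f :: l))).flatten := by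
  set u := uu mN n₂ w h k with hu
  set t := tt mN n₂ w h k with ht
  set y := f.2.2 with hy
  set Lh := (top u (items y (f :: l))).flatten with hLh
  set J := pool (clusters l) with hJ
  have htpos : 0 < t := by
    rw [ht]; unfold tt EE
    have := hpar.hk; have := hpar.hn₂
    positivity
  have hupos : 0 < u := by
    rw [hu]; unfold uu
    exact Nat.mul_pos hpar.hn₂ htpos
  have hlen0 : 0 < (items y (f :: l)).length := by
    rw [items, if_pos ⟨hf, rfl⟩]; simp
  have hm0 : 0 < (items y (f :: l)).length / u := Nat.div_pos (Nat.le_of_dvd hlen0 hdvd) hupos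
  have hm1 : (items y (f :: l)).length / u < 2 ^ n₂ :=
    lt_of_le_of_lt (Nat.div_le_div_right (items_length_le hl.nodup)) hunits
  set v := padicValNat 2 ((items y (f :: l)).length / u) with hv
  have hlow : lowbit ((items y (f :: l)).length / u) = 2 ^ v := rfl
  have hvn : v < n₂ := by
    have h1 := lowbit_le hm0
    rw [hlow] at h1
    exact (Nat.pow_lt_pow_iff_right (by norm_num : 1 < 2)).1 (lt_of_le_of_lt h1 hm1)
  have hl' : Legal A B l := hl.suffix (List.suffix_cons _ _)
  have hclus : clusters (f :: l) = clusters l := by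
    rw [clusters, if_neg (by rw [hf]; simp)]
  obtain ⟨hslots, hhit⟩ := hpoolp (clusters l) (clusters_total_le hl' hpar.hlam)
  -- size of the pool
  have hJlen : J.length ≤ (J.map List.length).sum := by
    have : ∀ C ∈ J, 1 ≤ C.length := fun C hC =>
      clusters_length_pos C ((hsub _).subset hC)
    calc J.length = (J.map fun _ => 1).sum := by simp
      _ ≤ _ := List.sum_le_sum this
  have h4J : 4 * J.length ≤ 4 ^ h := by
    have h1 : 4 * J.length * k ≤ 4 ^ h * k := by
      calc 4 * J.length * k ≤ 4 * (J.map List.length).sum * k := by gcongr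
        _ = 4 * ((J.map List.length).sum * k) := by ring
        _ ≤ 4 * (2 * (Fintype.card P * (A * lam))) := by gcongr
        _ = 8 * Fintype.card P * (A * lam) := by ring
        _ ≤ 4 ^ h * k := hpar.hpool
    exact Nat.le_of_mul_le_mul_right h1 hpar.hk
  have hLhlen : Lh.length ≤ 2 ^ (v + w) * t := by
    have h1 := payload_length (u := u) (y := y) hl hpar.hlam
    rw [hlow] at h1
    calc Lh.length ≤ u * 2 ^ v * lam := h1
      _ = (n₂ * lam) * 2 ^ v * t := by rw [hu, ht]; unfold uu; ring
      _ ≤ 2 ^ w * 2 ^ v * t := by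
          apply Nat.mul_le_mul_right
          apply Nat.mul_le_mul_right
          exact hpar.hw
      _ = 2 ^ (v + w) * t := by rw [pow_add]; ring
  set Nn : Finset X := Finset.univ.filter fun x => t ≤ Lh.countP (fun C => decide (x ∈ C)) with hNn
  set Q := 32 * h ^ 2 * 2 ^ (v + w) with hQ
  have hQpos : 0 < Q := by
    rw [hQ]
    have := hpar.hh
    positivity
  have hfrac : ∀ N' ⊆ Nn, N'.Nonempty → ∃ C ∈ J, N'.card ≤ Q * cnt N' C := by
    intro N' hN' hne
    by_contra hcon
    push Not at hcon
    obtain ⟨s, hs, τ, hτ, hbig⟩ := exists_heavy N' hne J Lh h (v + w) t htpos hLhlen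
      (fun x hx => (Finset.mem_filter.1 (hN' hx)).2) h4J hcon
    have h1 := hhit s (by omega) τ hτ
    have h2 : Lh.countP (fun C => decide (Hit τ C)) ≤
        (clusters l).countP (fun C => decide (Hit τ C)) := by
      rw [hLh, ← hclus]
      exact payload_countP _ y hl.nodup u
    have h3 : 2 ^ s * t < 4 * (n₂ + w) * (2 ^ s * k * EE mN h) := by
      calc 2 ^ s * t ≤ 4 * (v + w + 1) * Lh.countP (fun C => decide (Hit τ C)) := hbig
        _ ≤ 4 * (n₂ + w) * Lh.countP (fun C => decide (Hit τ C)) := by
            apply Nat.mul_le_mul_right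
            omega
        _ < 4 * (n₂ + w) * (2 ^ s * k * EE mN h) := by
            apply Nat.mul_lt_mul_of_pos_left (lt_of_le_of_lt h2 h1)
            have := hpar.hn₂
            omega
    have h4 : 2 ^ s * t = 4 * (n₂ + w) * (2 ^ s * k * EE mN h) := by
      rw [ht]; unfold tt; ring
    omega
  obtain ⟨S, hSlen, hSJ, hScov⟩ := greedy Nn J Q hQpos hfrac mN Nn subset_rfl
    (lt_of_le_of_lt (Finset.card_le_univ _) hpar.hmN)
  have hex : ∃ bs : List ℕ, bs.length ≤ cu mN w h * lowbit ((items y (f :: l)).length / u) ∧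
      (∀ b ∈ bs, ∃ C, (C, b) ∈ wb A J) ∧
      ∀ x, t ≤ Lh.countP (fun C => decide (x ∈ C)) → ∃ Cb ∈ wb A J, x ∈ Cb.1 ∧ Cb.2 ∈ bs := by
    have hbin : ∀ C : List X, ∃ b, C ∈ S → (C, b) ∈ wb A J := by
      intro C
      by_cases hC : C ∈ S
      · obtain ⟨b, hb⟩ := exists_bin (A := A) (hSJ C hC)
        exact ⟨b, fun _ => hb⟩
      · exact ⟨0, fun h => absurd h hC⟩
    choose bin hbin using hbin
    refine ⟨S.map bin, ?_, ?_, ?_⟩
    · rw [List.length_map, hlow]
      refine hSlen.trans (le_of_eq ?_)
      rw [hQ]; unfold cu; rw [pow_add]; ring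
    · intro b hb
      rw [List.mem_map] at hb
      obtain ⟨C, hC, rfl⟩ := hb
      exact ⟨C, hbin C hC⟩
    · intro x hx
      obtain ⟨C, hC, hxC⟩ := hScov x (Finset.mem_filter.2 ⟨Finset.mem_univ _, hx⟩)
      exact ⟨(C, bin C), hbin C hC, hxC, List.mem_map.2 ⟨C, hC, rfl⟩⟩
  unfold pick
  rw [dif_pos hex]
  exact hex.choose_spec.2.2 x hx

/-- The assignments made along a play. -/
noncomputable def asg (A u t c : ℕ) (pool : List (List X) → List (List X)) :
    List (P × Bool × X) → List (X × ℕ)
  | [] => []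
  | f :: l => if f.2.1 = false ∧ u ∣ (items f.2.2 (f :: l)).length then
      (pick A (c * lowbit ((items f.2.2 (f :: l)).length / u)) t (pool (clusters l))
        (top u (items f.2.2 (f :: l))).flatten).map (fun b => (f.2.2, b)) ++ asg A u t c pool l
      else asg A u t c pool l

theorem asg_suffix_cons (A u t c : ℕ) (pool : List (List X) → List (List X))
    (f : P × Bool × X) (l : List (P × Bool × X)) :
    asg A u t c pool l <:+ asg A u t c pool (f :: l) := by
  conv_rhs => rw [asg]
  split_ifs
  · exact List.suffix_append _ _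
  · exact List.suffix_refl _

theorem asg_suffix {A u t c : ℕ} {pool : List (List X) → List (List X)}
    {l l' : List (P × Bool × X)} (h : l' <:+ l) :
    asg A u t c pool l' <:+ asg A u t c pool l := by
  induction l with
  | nil =>
    have : l' = [] := List.eq_nil_of_suffix_nil h
    subst this; exact List.suffix_refl _
  | cons f l ih =>
    rcases List.suffix_cons_iff.1 h with rfl | h'
    · exact List.suffix_refl _
    · exact (ih h').trans (asg_suffix_cons _ _ _ _ _ _ _)

theorem pool_suffix_cons {pool : List (List X) → List (List X)}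
    (hstep : ∀ C L, pool (C :: L) = C :: pool L ∨ pool (C :: L) = pool L)
    (f : P × Bool × X) (l : List (P × Bool × X)) :
    pool (clusters l) <:+ pool (clusters (f :: l)) := by
  conv_rhs => rw [clusters]
  split_ifs
  · rcases hstep (top 1 (f.2.2 :: xs f.1 l)) (clusters l) with h | h
    · rw [h]; exact List.suffix_cons _ _
    · rw [h]
  · exact List.suffix_refl _

theorem pool_suffix {pool : List (List X) → List (List X)}
    (hstep : ∀ C L, pool (C :: L) = C :: pool L ∨ pool (C :: L) = pool L)
    {l l' : List (P × Bool × X)} (h : l' <:+ l) :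
    pool (clusters l') <:+ pool (clusters l) := by
  induction l with
  | nil =>
    have : l' = [] := List.eq_nil_of_suffix_nil h
    subst this; exact List.suffix_refl _
  | cons f l ih =>
    rcases List.suffix_cons_iff.1 h with rfl | h'
    · exact List.suffix_refl _
    · exact (ih h').trans (pool_suffix_cons hstep _ _)

theorem asg_bins {A u t c : ℕ} {pool : List (List X) → List (List X)}
    (hstep : ∀ C L, pool (C :: L) = C :: pool L ∨ pool (C :: L) = pool L)
    {l : List (P × Bool × X)} : ∀ z ∈ asg A u t c pool l, ∃ C, (C, z.2) ∈ wb A (pool (clusters l)) := by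
  induction l with
  | nil => simp [asg]
  | cons f l ih =>
    have hsuf := wb_suffix (A := A) (pool_suffix_cons hstep f l)
    intro z hz
    rw [asg] at hz
    split_ifs at hz
    · rcases List.mem_append.1 hz with h | h
      · rw [List.mem_map] at h
        obtain ⟨b, hb, rfl⟩ := h
        obtain ⟨C, hC⟩ := pick_bins hb
        exact ⟨C, hsuf.subset hC⟩
      · obtain ⟨C, hC⟩ := ih z h
        exact ⟨C, hsuf.subset hC⟩
    · obtain ⟨C, hC⟩ := ih z hz
      exact ⟨C, hsuf.subset hC⟩

theorem asg_length [Fintype X] {A u t c : ℕ} {pool : List (List X) → List (List X)}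
    (l : List (P × Bool × X)) :
    (asg A u t c pool l).length ≤ c * ∑ y : X, lbsum ((items y l).length / u) := by
  induction l with
  | nil => simp [asg]
  | cons f l ih =>
    by_cases hf : f.2.1 = false
    · have hlen : (items f.2.2 (f :: l)).length = (items f.2.2 l).length + 1 := by
        rw [items, if_pos ⟨hf, rfl⟩]; simp
      have hsum : ∑ y : X, lbsum ((items y (f :: l)).length / u) =
          lbsum (((items f.2.2 l).length + 1) / u) +
            ∑ y ∈ Finset.univ.erase f.2.2, lbsum ((items y l).length / u) := by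
        rw [← Finset.add_sum_erase _ _ (Finset.mem_univ f.2.2), hlen]
        congr 1
        apply Finset.sum_congr rfl
        intro y hy
        rw [items, if_neg]
        rintro ⟨_, h'⟩
        exact (Finset.mem_erase.1 hy).1 h'.symm
      have hsum0 : ∑ y : X, lbsum ((items y l).length / u) =
          lbsum ((items f.2.2 l).length / u) +
            ∑ y ∈ Finset.univ.erase f.2.2, lbsum ((items y l).length / u) := by
        rw [← Finset.add_sum_erase _ _ (Finset.mem_univ f.2.2)]
      rw [hsum, asg]
      rw [hsum0] at ih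
      by_cases hd : u ∣ (items f.2.2 (f :: l)).length
      · rw [if_pos ⟨hf, hd⟩, List.length_append, List.length_map]
        have h1 := pick_length A (c * lowbit ((items f.2.2 (f :: l)).length / u)) t
          (pool (clusters l)) (top u (items f.2.2 (f :: l))).flatten
        rw [hlen] at hd h1
        have h2 : ((items f.2.2 l).length + 1) / u = (items f.2.2 l).length / u + 1 := by
          rw [Nat.succ_div, if_pos hd]
        rw [h2] at h1
        rw [h2, lbsum, mul_add, mul_add]
        rw [mul_add] at ih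
        rw [hlen, h2]
        omega
      · rw [if_neg (fun h => hd h.2)]
        rw [hlen] at hd
        have h2 : ((items f.2.2 l).length + 1) / u = (items f.2.2 l).length / u := by
          rw [Nat.succ_div, if_neg hd, add_zero]
        rw [h2]
        exact ih
    · rw [asg, if_neg (fun h => hf h.1)]
      refine ih.trans (le_of_eq ?_)
      congr 1
      apply Finset.sum_congr rfl
      intro y _
      rw [items, if_neg (fun h => hf h.1)]

/-- The one-sided strategy. -/
theorem core_one_sided (P X : Type) [Fintype X] [Nonempty X] [Fintype P]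
    {A B mN n₂ lam w h k : ℕ}
    (hpar : Par (Fintype.card X) (Fintype.card P) A B mN n₂ lam w h k)
    (hunits : Fintype.card P / uu mN n₂ w h k < 2 ^ n₂) :
    ∃ S : List (P × Bool × X) → Finset ((ℕ × ℕ) × Bool × X),
      (∀ f l, S l ⊆ S (f :: l)) ∧
      ∀ l, Legal A B l →
        (∀ R, (Finset.univ.filter fun y : X => (R, false, y) ∈ S l).card ≤ B) ∧
        (∀ R, (Finset.univ.filter fun x : X => (R, true, x) ∈ S l).card ≤ 2 * A) ∧
        ((S l).image Prod.fst).card ≤ (2 * (Fintype.card P * lam)) / k + 1 +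
          cu mN w h * n₂ * (Fintype.card P / uu mN n₂ w h k + 1) ∧
        (∀ x y, 2 * uu mN n₂ w h k ≤ yl x y l →
          ∃ R, (R, true, x) ∈ S l ∧ (R, false, y) ∈ S l) := by
  obtain ⟨pool, hp0, hstep, hprop⟩ := exists_pool hpar
  have hsub : ∀ L, (pool L).Sublist L := by
    intro L
    induction L with
    | nil => rw [hp0]
    | cons C L ih =>
      rcases hstep C L with h | h
      · rw [h]; exact ih.cons_cons C
      · rw [h]; exact ih.cons C
  set u := uu mN n₂ w h k with hu
  set t := tt mN n₂ w h k with ht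
  set c := cu mN w h with hc
  have htpos : 0 < t := by
    rw [ht]; unfold tt EE
    have := hpar.hk; have := hpar.hn₂
    positivity
  have hupos : 0 < u := by
    rw [hu]; unfold uu
    exact Nat.mul_pos hpar.hn₂ htpos
  refine ⟨fun l => rects A B (pool (clusters l)) (asg A u t c pool l), ?_, ?_⟩
  · intro f l
    exact rects_mono (pool_suffix_cons hstep f l) (asg_suffix_cons A u t c pool f l)
  intro l hl
  refine ⟨fun R => rects_right_card hpar.hB _ _ R, fun R => rects_left_card hpar.hA _
    (fun C hC => clusters_length_le hl C ((hsub _).subset hC)) _ R, ?_, ?_⟩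
  · -- number of rectangles
    have himg : (rects A B (pool (clusters l)) (asg A u t c pool l)).image Prod.fst ⊆
        ((ch B (asg A u t c pool l)).map Prod.snd).toFinset := by
      intro R hR
      rw [Finset.mem_image] at hR
      obtain ⟨⟨R', b, z⟩, hz, rfl⟩ := hR
      rw [List.mem_toFinset, List.mem_map]
      cases b with
      | false =>
        rw [mem_rects_false] at hz
        exact ⟨_, hz, rfl⟩
      | true =>
        rw [mem_rects_true] at hz
        obtain ⟨⟨y, hy⟩, _⟩ := hz
        exact ⟨_, hy, rfl⟩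
    set nb := ((pool (clusters l)).map List.length).sum / A + 1 with hnb
    have hact := active_card hpar.hB (asg A u t c pool l) nb (by
      intro z hz
      obtain ⟨C, hC⟩ := asg_bins hstep z hz
      exact Nat.lt_succ_of_le (bin_le hC))
    refine (Finset.card_le_card himg).trans (hact.trans ?_)
    have h1 : ((pool (clusters l)).map List.length).sum / A ≤
        (2 * (Fintype.card P * lam)) / k := by
      obtain ⟨hs, _⟩ := hprop (clusters l) (clusters_total_le hl hpar.hlam)
      rw [Nat.le_div_iff_mul_le hpar.hk]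
      have h2 : ((pool (clusters l)).map List.length).sum / A * k * A ≤
          2 * (Fintype.card P * lam) * A := by
        calc ((pool (clusters l)).map List.length).sum / A * k * A
            = (((pool (clusters l)).map List.length).sum / A * A) * k := by ring
          _ ≤ ((pool (clusters l)).map List.length).sum * k :=
              Nat.mul_le_mul_right _ (Nat.div_mul_le_self _ _)
          _ ≤ 2 * (Fintype.card P * (A * lam)) := hs
          _ = _ := by ring
      exact Nat.le_of_mul_le_mul_right h2 hpar.hA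
    have h2 : (asg A u t c pool l).length / B ≤ c * n₂ * (Fintype.card P / u + 1) := by
      have h3 := asg_length (A := A) (u := u) (t := t) (c := c) (pool := pool) l
      have h4 : ∑ y : X, lbsum ((items y l).length / u) ≤
          n₂ * ((∑ y : X, (items y l).length) / u) := by
        calc ∑ y : X, lbsum ((items y l).length / u)
            ≤ ∑ y : X, ((items y l).length / u) * n₂ := by
              apply Finset.sum_le_sum
              intro y _
              apply lbsum_le
              exact lt_of_le_of_lt (Nat.div_le_div_right (items_length_le hl.nodup)) hunits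
          _ = n₂ * ∑ y : X, ((items y l).length / u) := by rw [← Finset.sum_mul, mul_comm]
          _ ≤ _ := by
              apply Nat.mul_le_mul_left
              rw [Nat.le_div_iff_mul_le hupos, Finset.sum_mul]
              exact Finset.sum_le_sum fun y _ => Nat.div_mul_le_self _ _
      have h5 : (∑ y : X, (items y l).length) ≤ Fintype.card P * B := sum_items_length hl
      have h6 : (Fintype.card P * B) / u ≤ (Fintype.card P / u + 1) * B := by
        apply Nat.div_le_of_le_mul
        have h7 : Fintype.card P ≤ u * (Fintype.card P / u + 1) := by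
          have := Nat.div_add_mod (Fintype.card P) u
          have h8 := Nat.mod_lt (Fintype.card P) hupos
          rw [mul_add, mul_one]
          omega
        calc Fintype.card P * B ≤ (u * (Fintype.card P / u + 1)) * B := Nat.mul_le_mul_right _ h7
          _ = _ := by ring
      apply Nat.div_le_of_le_mul
      calc (asg A u t c pool l).length ≤ _ := h3
        _ ≤ c * (n₂ * ((∑ y : X, (items y l).length) / u)) := Nat.mul_le_mul_left _ h4
        _ ≤ c * (n₂ * ((Fintype.card P * B) / u)) := by gcongr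
        _ ≤ c * (n₂ * ((Fintype.card P / u + 1) * B)) := by gcongr
        _ = _ := by ring
    omega
  · intro x y hxy
    rw [yl_eq] at hxy
    obtain ⟨L', hL', hne, hd, hcount⟩ := exists_block hupos
      (fun it => decide (∃ C ∈ it, x ∈ C)) n₂ t (items y l)
      (lt_of_le_of_lt (Nat.div_le_div_right (items_length_le hl.nodup)) hunits) (by
        have : n₂ * t = u := by rw [hu, ht]; rfl
        omega)
    obtain ⟨f, l', hfl, hf1, hf2, hitems⟩ := items_suffix hL' hne
    subst hf2
    have hcount2 : t ≤ (top u (items f.2.2 (f :: l'))).flatten.countP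
        (fun C => decide (x ∈ C)) := by
      rw [hitems]
      refine hcount.le.trans ?_
      clear hcount
      induction (top u L') with
      | nil => simp
      | cons it L ih =>
        rw [List.flatten_cons, List.countP_append, List.countP_cons]
        split_ifs with hh
        · simp only [decide_eq_true_eq] at hh
          obtain ⟨C, hC, hx⟩ := hh
          have : 0 < it.countP (fun C => decide (x ∈ C)) :=
            List.countP_pos_iff.2 ⟨C, hC, by simpa using hx⟩
          omega
        · omega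
    rw [← hitems] at hd
    obtain ⟨Cb, hCb, hxC, hbin⟩ := pick_spec hpar hunits hprop hsub (hl.suffix hfl) hf1 hd x hcount2
    have hasg : (f.2.2, Cb.2) ∈ asg A u t c pool l := by
      apply (asg_suffix hfl).subset
      rw [asg, if_pos ⟨hf1, hd⟩]
      apply List.mem_append_left
      rw [List.mem_map]
      exact ⟨_, hbin, rfl⟩
    obtain ⟨i, hi⟩ := exists_chunk (B := B) hasg
    have hwb : (Cb.1, Cb.2) ∈ wb A (pool (clusters l)) :=
      (wb_suffix (pool_suffix hstep ((List.suffix_cons _ _).trans hfl))).subset hCb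
    refine ⟨(Cb.2, i), ?_, ?_⟩
    · rw [mem_rects_true]
      exact ⟨⟨_, hi⟩, Cb.1, hwb, hxC⟩
    · rw [mem_rects_false]
      exact hi

end Pool.Agent.GWP
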