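import Pool.Agent.GWP.Core1

/-!
The two-sided strategy of the particle game, with explicit parameters.
-/

namespace Pool.Agent.GWP

open scoped Classical

variable {P X : Type}

/-- Exchange the two sides. -/
def swp (l : List (P × Bool × X)) : List (P × Bool × X) := l.map fun f => (f.1, !f.2.1, f.2.2)

theorem mem_swp {p : P} {b : Bool} {x : X} {l : List (P × Bool × X)} :
    (p, b, x) ∈ swp l ↔ (p, !b, x) ∈ l := by
  unfold swp
  rw [List.mem_map]
  constructor
  · rintro ⟨⟨p', b', x'⟩, h, he⟩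
    simp only [Prod.mk.injEq] at he
    obtain ⟨rfl, rfl, rfl⟩ := he
    simpa using h
  · intro h
    exact ⟨_, h, by simp⟩

theorem Legal.swp {A B : ℕ} {l : List (P × Bool × X)} (h : Legal A B l) : Legal B A (swp l) := by
  refine ⟨?_, ?_, ?_⟩
  · unfold Pool.Agent.GWP.swp
    refine h.nodup.map ?_
    rintro ⟨p, b, x⟩ ⟨p', b', x'⟩ he
    simp only [Prod.mk.injEq] at he
    obtain ⟨h1, h2, h3⟩ := he
    simp only [Prod.mk.injEq]
    refine ⟨h1, ?_, h3⟩
    simpa using h2
  · intro p
    unfold Pool.Agent.GWP.swp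
    rw [List.countP_map]
    refine le_trans (le_of_eq ?_) (h.right p)
    apply List.countP_congr
    intro f _
    simp
  · intro p
    unfold Pool.Agent.GWP.swp
    rw [List.countP_map]
    refine le_trans (le_of_eq ?_) (h.left p)
    apply List.countP_congr
    intro f _
    simp

/-- Number of particles containing both `x` on the left and `y` on the right. -/
noncomputable def com [Fintype P] (x y : X) (l : List (P × Bool × X)) : ℕ :=
  (Finset.univ.filter fun p : P => (p, true, x) ∈ l ∧ (p, false, y) ∈ l).card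

theorem com_le [Fintype P] (x y : X) (l : List (P × Bool × X)) :
    com x y l ≤ yl x y l + yl y x (swp l) := by
  induction l with
  | nil => simp [com, yl]
  | cons f l ih =>
    obtain ⟨p, b, z⟩ := f
    have hsw : swp ((p, b, z) :: l) = (p, !b, z) :: swp l := rfl
    rw [hsw, yl, yl]
    dsimp only
    have hincr : com x y ((p, b, z) :: l) ≤ com x y l +
        ((if b = false ∧ z = y ∧ (p, true, x) ∈ l then 1 else 0) +
         (if (!b) = false ∧ z = x ∧ (p, true, y) ∈ swp l then 1 else 0)) := by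
      by_cases h1 : b = false ∧ z = y ∧ (p, true, x) ∈ l
      · rw [if_pos h1]
        have hsub : (Finset.univ.filter fun q : P => (q, true, x) ∈ (p, b, z) :: l ∧
            (q, false, y) ∈ (p, b, z) :: l) ⊆
            insert p (Finset.univ.filter fun q : P => (q, true, x) ∈ l ∧ (q, false, y) ∈ l) := by
          intro q hq
          simp only [Finset.mem_filter, Finset.mem_univ, true_and, List.mem_cons, Prod.mk.injEq,
            Finset.mem_insert] at hq ⊢
          by_cases hqp : q = p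
          · exact Or.inl hqp
          · right
            refine ⟨?_, ?_⟩
            · rcases hq.1 with h | h
              · exact absurd h.1 hqp
              · exact h
            · rcases hq.2 with h | h
              · exact absurd h.1 hqp
              · exact h
        have := (Finset.card_le_card hsub).trans (Finset.card_insert_le _ _)
        unfold com
        omega
      · by_cases h2 : (!b) = false ∧ z = x ∧ (p, true, y) ∈ swp l
        · rw [if_pos h2]
          have hsub : (Finset.univ.filter fun q : P => (q, true, x) ∈ (p, b, z) :: l ∧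
              (q, false, y) ∈ (p, b, z) :: l) ⊆
              insert p (Finset.univ.filter fun q : P => (q, true, x) ∈ l ∧ (q, false, y) ∈ l) := by
            intro q hq
            simp only [Finset.mem_filter, Finset.mem_univ, true_and, List.mem_cons, Prod.mk.injEq,
              Finset.mem_insert] at hq ⊢
            by_cases hqp : q = p
            · exact Or.inl hqp
            · right
              refine ⟨?_, ?_⟩
              · rcases hq.1 with h | h
                · exact absurd h.1 hqp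
                · exact h
              · rcases hq.2 with h | h
                · exact absurd h.1 hqp
                · exact h
          have := (Finset.card_le_card hsub).trans (Finset.card_insert_le _ _)
          unfold com
          omega
        · rw [if_neg h1, if_neg h2]
          have hsub : (Finset.univ.filter fun q : P => (q, true, x) ∈ (p, b, z) :: l ∧
              (q, false, y) ∈ (p, b, z) :: l) ⊆
              (Finset.univ.filter fun q : P => (q, true, x) ∈ l ∧ (q, false, y) ∈ l) := by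
            intro q hq
            simp only [Finset.mem_filter, Finset.mem_univ, true_and, List.mem_cons,
              Prod.mk.injEq] at hq ⊢
            rw [mem_swp] at h2
            obtain ⟨hq1, hq2⟩ := hq
            rcases hq1 with ⟨rfl, hb, rfl⟩ | hq1
            · rcases hq2 with ⟨_, hb', _⟩ | hq2
              · rw [← hb] at hb'; exact absurd hb' (by simp)
              · exfalso; apply h2
                refine ⟨by rw [← hb]; rfl, rfl, by simpa using hq2⟩
            · rcases hq2 with ⟨rfl, hb', rfl⟩ | hq2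
              · exfalso; apply h1
                exact ⟨hb'.symm, rfl, hq1⟩
              · exact ⟨hq1, hq2⟩
          exact Finset.card_le_card hsub
    omega

/-- The two-sided strategy. -/
theorem core_two_sided (P X : Type) [Fintype X] [Nonempty X] [Fintype P]
    {A B mN n₂ lam w h k : ℕ}
    (hpar : Par (Fintype.card X) (Fintype.card P) A B mN n₂ lam w h k)
    (hpar' : Par (Fintype.card X) (Fintype.card P) B A mN n₂ lam w h k)
    (hunits : Fintype.card P / uu mN n₂ w h k < 2 ^ n₂) :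
    ∃ S : List (P × Bool × X) → Finset ((Bool × ℕ × ℕ) × Bool × X),
      (∀ f l, S l ⊆ S (f :: l)) ∧
      ∀ l, Legal A B l →
        (∀ R (t : Finset X), (∀ x ∈ t, (R, true, x) ∈ S l) → t.card ≤ 2 * A) ∧
        (∀ R (t : Finset X), (∀ y ∈ t, (R, false, y) ∈ S l) → t.card ≤ 2 * B) ∧
        (∀ t : Finset (Bool × ℕ × ℕ), (∀ R ∈ t, ∃ b z, (R, b, z) ∈ S l) → t.card ≤ 2 * ((2 * (Fintype.card P * lam)) / k + 1 +
          cu mN w h * n₂ * (Fintype.card P / uu mN n₂ w h k + 1))) ∧
        (∀ x y, 4 * uu mN n₂ w h k ≤ com x y l →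
          ∃ R, (R, true, x) ∈ S l ∧ (R, false, y) ∈ S l) := by
  obtain ⟨S₁, hm₁, h₁⟩ := core_one_sided P X hpar hunits
  obtain ⟨S₂, hm₂, h₂⟩ := core_one_sided P X hpar' hunits
  set S : List (P × Bool × X) → Finset ((Bool × ℕ × ℕ) × Bool × X) := fun l =>
    (S₁ l).image (fun z => ((true, z.1), z.2.1, z.2.2)) ∪
      (S₂ (swp l)).image (fun z => ((false, z.1), !z.2.1, z.2.2)) with hS
  have hmem1 : ∀ l R b z, ((true, R), b, z) ∈ S l ↔ (R, b, z) ∈ S₁ l := by
    intro l R b z
    rw [hS]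
    simp only [Finset.mem_union, Finset.mem_image, Prod.mk.injEq, Prod.exists]
    constructor
    · rintro (⟨i, j, b', z', h, ⟨_, h1⟩, rfl, rfl⟩ | ⟨i, j, b', z', h, ⟨h0, h1⟩, rfl, rfl⟩)
      · rw [← h1]; exact h
      · exact absurd h0 (by simp)
    · intro h
      left
      exact ⟨R.1, R.2, b, z, h, ⟨trivial, rfl⟩, rfl, rfl⟩
  have hmem2 : ∀ l R b z, ((false, R), b, z) ∈ S l ↔ (R, !b, z) ∈ S₂ (swp l) := by
    intro l R b z
    rw [hS]
    simp only [Finset.mem_union, Finset.mem_image, Prod.mk.injEq, Prod.exists]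
    constructor
    · rintro (⟨i, j, b', z', h, ⟨h0, h1⟩, rfl, rfl⟩ | ⟨i, j, b', z', h, ⟨h0, h1⟩, rfl, rfl⟩)
      · exact absurd h0 (by simp)
      · rw [← h1]; simpa using h
    · intro h
      right
      exact ⟨R.1, R.2, !b, z, h, ⟨trivial, rfl⟩, by simp, rfl⟩
  refine ⟨S, ?_, ?_⟩
  · intro f l
    rintro ⟨⟨c, R⟩, b, z⟩ h
    cases c with
    | true => rw [hmem1] at h ⊢; exact hm₁ f l h
    | false =>
      rw [hmem2] at h ⊢
      exact hm₂ _ _ h
  intro l hl
  obtain ⟨r1, l1, c1, k1⟩ := h₁ l hl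
  obtain ⟨r2, l2, c2, k2⟩ := h₂ (swp l) hl.swp
  refine ⟨?_, ?_, ?_, ?_⟩
  · rintro ⟨c, R⟩ t ht
    cases c with
    | true =>
      simp only [hmem1] at ht
      exact (Finset.card_le_card fun x hx =>
        Finset.mem_filter.2 ⟨Finset.mem_univ _, ht x hx⟩).trans (l1 R)
    | false =>
      simp only [hmem2] at ht
      exact ((Finset.card_le_card fun x hx =>
        Finset.mem_filter.2 ⟨Finset.mem_univ _, ht x hx⟩).trans (r2 R)).trans (by omega)
  · rintro ⟨c, R⟩ t ht
    cases c with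
    | true =>
      simp only [hmem1] at ht
      exact ((Finset.card_le_card fun x hx =>
        Finset.mem_filter.2 ⟨Finset.mem_univ _, ht x hx⟩).trans (r1 R)).trans (by omega)
    | false =>
      simp only [hmem2] at ht
      exact (Finset.card_le_card fun x hx =>
        Finset.mem_filter.2 ⟨Finset.mem_univ _, ht x hx⟩).trans (l2 R)
  · intro t ht
    have hsub : t ⊆ ((S₁ l).image Prod.fst).image (fun R => (true, R)) ∪
        ((S₂ (swp l)).image Prod.fst).image (fun R => (false, R)) := by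
      intro R hR
      obtain ⟨b, z, hz⟩ := ht R hR
      obtain ⟨c, R⟩ := R
      rw [Finset.mem_union, Finset.mem_image, Finset.mem_image]
      cases c with
      | true =>
        rw [hmem1] at hz
        left
        exact ⟨R, Finset.mem_image.2 ⟨_, hz, rfl⟩, rfl⟩
      | false =>
        rw [hmem2] at hz
        right
        exact ⟨R, Finset.mem_image.2 ⟨_, hz, rfl⟩, rfl⟩
    refine (Finset.card_le_card hsub).trans ((Finset.card_union_le _ _).trans ?_)
    have h3 := (Finset.card_image_le (s := (S₁ l).image Prod.fst) (f := fun R => (true, R))).trans c1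
    have h4 := (Finset.card_image_le (s := (S₂ (swp l)).image Prod.fst)
      (f := fun R => (false, R))).trans c2
    omega
  · intro x y hxy
    have h3 := com_le x y l
    by_cases h4 : 2 * uu mN n₂ w h k ≤ yl x y l
    · obtain ⟨R, hR1, hR2⟩ := k1 x y h4
      exact ⟨(true, R), (hmem1 _ _ _ _).2 hR1, (hmem1 _ _ _ _).2 hR2⟩
    · have h5 : 2 * uu mN n₂ w h k ≤ yl y x (swp l) := by omega
      obtain ⟨R, hR1, hR2⟩ := k2 y x h5
      exact ⟨(false, R), (hmem2 _ _ _ _).2 hR2, (hmem2 _ _ _ _).2 hR1⟩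

theorem size_le_self (m : ℕ) : Nat.size m ≤ m := Nat.size_le.2 Nat.lt_two_pow_self

theorem pow_size_le {m : ℕ} (hm : 0 < m) : 2 ^ Nat.size m ≤ 2 * m := by
  have h0 : 0 < Nat.size m := Nat.size_pos.2 hm
  have h1 : 2 ^ (Nat.size m - 1) ≤ m := by
    by_contra hcon
    push Not at hcon
    have := Nat.size_le.2 hcon
    omega
  calc 2 ^ Nat.size m = 2 * 2 ^ (Nat.size m - 1) := by
        rw [← pow_succ', Nat.sub_add_cancel h0]
    _ ≤ 2 * m := Nat.mul_le_mul_left _ h1

theorem pool_arith {M DG A : ℕ} (hM : 1 ≤ M) (hDG : 8 * DG < 2 ^ M) (hA : A < 2 ^ M) :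
    8 * (8 * DG * (M * (4 * (8 * (16 * M) ^ 2 * M + 3) * (M + Nat.size (M * M))))) * (A * M) ≤
      4 ^ (16 * M) := by
  have hw : Nat.size (M * M) ≤ M * M := size_le_self _
  have hMp : M ≤ 2 ^ M := Nat.lt_two_pow_self.le
  have h1 : 8 * (16 * M) ^ 2 * M + 3 ≤ 2 ^ 12 * 2 ^ (3 * M) := by
    have h2 : M ^ 3 ≤ 2 ^ (3 * M) := by
      calc M ^ 3 ≤ (2 ^ M) ^ 3 := Nat.pow_le_pow_left hMp 3
        _ = 2 ^ (3 * M) := by rw [← pow_mul, mul_comm]
    have h3 : 1 ≤ 2 ^ (3 * M) := Nat.one_le_two_pow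
    calc 8 * (16 * M) ^ 2 * M + 3 = 2048 * M ^ 3 + 3 := by ring
      _ ≤ 2048 * 2 ^ (3 * M) + 3 * 2 ^ (3 * M) := by omega
      _ ≤ 2 ^ 12 * 2 ^ (3 * M) := by
          have : 2 ^ 12 = 4096 := by norm_num
          rw [this]; omega
  have h2 : M + Nat.size (M * M) ≤ 2 * 2 ^ (2 * M) := by
    have h3 : M * M ≤ 2 ^ (2 * M) := by
      calc M * M ≤ 2 ^ M * 2 ^ M := Nat.mul_le_mul hMp hMp
        _ = 2 ^ (2 * M) := by rw [← pow_add]; congr 1; ring
    have h4 : M ≤ M * M := Nat.le_mul_of_pos_left M hM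
    omega
  calc 8 * (8 * DG * (M * (4 * (8 * (16 * M) ^ 2 * M + 3) * (M + Nat.size (M * M))))) * (A * M)
      ≤ 8 * (2 ^ M * (2 ^ M * (4 * (2 ^ 12 * 2 ^ (3 * M)) * (2 * 2 ^ (2 * M))))) *
        (2 ^ M * 2 ^ M) := by gcongr
    _ = 2 ^ (18 + 9 * M) := by
        have : 2 ^ (18 + 9 * M) = 2 ^ 18 * (2 ^ M) ^ 9 := by rw [pow_add, ← pow_mul]; congr 2; ring
        rw [this]
        have h5 : 2 ^ (3 * M) = (2 ^ M) ^ 3 := by rw [← pow_mul]; congr 1; ring
        have h6 : 2 ^ (2 * M) = (2 ^ M) ^ 2 := by rw [← pow_mul]; congr 1; ring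
        rw [h5, h6]
        ring
    _ ≤ 2 ^ (32 * M) := Nat.pow_le_pow_right (by norm_num) (by omega)
    _ = 4 ^ (16 * M) := by
        rw [show (4 : ℕ) = 2 ^ 2 by norm_num, ← pow_mul]; congr 1; ring

theorem rect_arith {M DG : ℕ} (hM : 1 ≤ M) (hDG : 1 ≤ DG) :
    2 * ((2 * ((8 * DG * (M * (4 * (8 * (16 * M) ^ 2 * M + 3) * (M + Nat.size (M * M))))) * M)) + 1
      + 32 * (16 * M) ^ 2 * 2 ^ Nat.size (M * M) * M * M * (8 * DG + 1)) ≤
      2 ^ 20 * DG * M ^ 7 := by
  have hw : Nat.size (M * M) ≤ M * M := size_le_self _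
  have hw2 : 2 ^ Nat.size (M * M) ≤ 2 * (M * M) := pow_size_le (Nat.mul_pos hM hM)
  have hM1 : 1 ≤ M ^ 7 := Nat.one_le_pow _ _ hM
  have hM2 : M ≤ M * M := Nat.le_mul_of_pos_left M hM
  have h1 : 8 * (16 * M) ^ 2 * M + 3 ≤ 2051 * M ^ 3 := by
    have : 1 ≤ M ^ 3 := Nat.one_le_pow _ _ hM
    calc 8 * (16 * M) ^ 2 * M + 3 = 2048 * M ^ 3 + 3 := by ring
      _ ≤ 2051 * M ^ 3 := by omega
  have h2 : M + Nat.size (M * M) ≤ 2 * (M * M) := by omega
  have h3 : 8 * DG + 1 ≤ 9 * DG := by omega
  have h4 : M ^ 6 ≤ M ^ 7 := Nat.pow_le_pow_right hM (by norm_num)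
  calc 2 * ((2 * ((8 * DG * (M * (4 * (8 * (16 * M) ^ 2 * M + 3) * (M + Nat.size (M * M))))) * M)) + 1
      + 32 * (16 * M) ^ 2 * 2 ^ Nat.size (M * M) * M * M * (8 * DG + 1))
      ≤ 2 * ((2 * ((8 * DG * (M * (4 * (2051 * M ^ 3) * (2 * (M * M))))) * M)) + DG * M ^ 7
      + 32 * (16 * M) ^ 2 * (2 * (M * M)) * M * M * (9 * DG)) := by
        gcongr
        exact Nat.mul_pos hDG hM1
    _ = 2 * (262528 * DG * M ^ 7 + DG * M ^ 7 + 147456 * (DG * M ^ 6)) := by ring
    _ ≤ 2 * (262528 * DG * M ^ 7 + DG * M ^ 7 + 147456 * (DG * M ^ 7)) := by gcongr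
    _ = 819970 * DG * M ^ 7 := by ring
    _ ≤ 2 ^ 20 * DG * M ^ 7 := by gcongr; norm_num

/-- The particle game is won by the player. -/
theorem core (M D G A B NX H₀ : ℕ) (hM : 1 ≤ M) (hD : 0 < D) (hG : 0 < G) (hA : 0 < A)
    (hB : 0 < B) (hX : 0 < NX) (h1 : NX < 2 ^ M) (h2 : A < 2 ^ M) (h3 : B < 2 ^ M)
    (h4 : 8 * (D * G) < 2 ^ M) :
    ∃ K T : ℕ, 0 < T ∧ D * (T + H₀) ≤ K ∧
      ∃ S : List (Fin (K * G) × Bool × Fin NX) → Finset ((Bool × ℕ × ℕ) × Bool × Fin NX),
        (∀ f l, S l ⊆ S (f :: l)) ∧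
        ∀ l, Legal A B l →
          (∀ R (t : Finset (Fin NX)), (∀ x ∈ t, (R, true, x) ∈ S l) → t.card ≤ 2 * A) ∧
          (∀ R (t : Finset (Fin NX)), (∀ y ∈ t, (R, false, y) ∈ S l) → t.card ≤ 2 * B) ∧
          (∀ t : Finset (Bool × ℕ × ℕ), (∀ R ∈ t, ∃ b z, (R, b, z) ∈ S l) →
            t.card ≤ 2 ^ 20 * (D * G) * M ^ 7) ∧
          (∀ x y, T ≤ com x y l → ∃ R, (R, true, x) ∈ S l ∧ (R, false, y) ∈ S l) := by
  set k := H₀ + 1 with hk
  set w := Nat.size (M * M) with hw
  set h := 16 * M with hh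
  set u := uu M M w h k with hu
  have hkpos : 0 < k := Nat.succ_pos _
  have hue : u = M * (4 * k * (8 * h ^ 2 * M + 3) * (M + w)) := rfl
  have hupos : 0 < u := by
    rw [hue]
    have : 0 < M := hM
    positivity
  have huk : k ≤ u := by
    have h5 : u = k * (M * (4 * (8 * h ^ 2 * M + 3) * (M + w))) := by rw [hue]; ring
    rw [h5]
    apply Nat.le_mul_of_pos_right
    have : 0 < M := hM
    positivity
  have hcard : Fintype.card (Fin (8 * D * u * G)) = 8 * (D * G) * u := by
    rw [Fintype.card_fin]; ring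
  have hcu : Fintype.card (Fin (8 * D * u * G)) / u = 8 * (D * G) := by
    rw [hcard, Nat.mul_div_cancel _ hupos]
  have : Nonempty (Fin NX) := ⟨⟨0, hX⟩⟩
  have hpar : ∀ A' B' : ℕ, 0 < A' → 0 < B' → A' < 2 ^ M →
      Par (Fintype.card (Fin NX)) (Fintype.card (Fin (8 * D * u * G))) A' B' M M M w h k := by
    intro A' B' hA' hB' hA2
    refine ⟨by simpa using hX, by simpa using h1, ?_, hA', hB', hA2, hM, hM, ?_, hkpos, ?_, ?_⟩
    · rw [hcard]; positivity
    · exact (Nat.lt_size_self _).le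
    · rw [hh]; omega
    · rw [hcard]
      have h5 := pool_arith (M := M) (DG := D * G) (A := A') hM h4 hA2
      calc 8 * (8 * (D * G) * u) * (A' * M)
          = (8 * (8 * (D * G) * (M * (4 * (8 * h ^ 2 * M + 3) * (M + w)))) * (A' * M)) * k := by
            rw [hue]; ring
        _ ≤ 4 ^ h * k := Nat.mul_le_mul_right _ h5
  obtain ⟨S, hS1, hS2⟩ := core_two_sided (Fin (8 * D * u * G)) (Fin NX) (hpar A B hA hB h2)
    (hpar B A hB hA h3) (by
      rw [← hu, hcu]
      exact h4)
  refine ⟨8 * D * u, 4 * u, by omega, ?_, S, hS1, ?_⟩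
  · calc D * (4 * u + H₀) ≤ D * (4 * u + 4 * u) := by
          apply Nat.mul_le_mul_left
          omega
      _ = 8 * D * u := by ring
  · intro l hl
    obtain ⟨c1, c2, c3, c4⟩ := hS2 l hl
    refine ⟨c1, c2, fun t ht => (c3 t ht).trans ?_, c4⟩
    rw [← hu, hcu]
    have h6 : 2 * (Fintype.card (Fin (8 * D * u * G)) * M) / k =
        2 * ((8 * (D * G) * (M * (4 * (8 * h ^ 2 * M + 3) * (M + w)))) * M) := by
      apply Nat.div_eq_of_eq_mul_left hkpos
      rw [hcard, hue]; ring
    rw [h6]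
    have h7 := rect_arith (M := M) (DG := D * G) hM (Nat.mul_pos hD hG)
    unfold cu
    exact h7

end Pool.Agent.GWP
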