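import Mathlib

/-!
Kolmogorov complexity (plain, conditional, with oracles) and the Gray-Wyner profile of a pair of
strings: the definitions used by the hand-ins for MP_17b90d_lc.
-/

namespace Pool.Agent.GWP

open MeasureTheory

/-- Binary strings. -/
abbrev Str : Type := List Bool

/-- `IsOptimal D`: `D` is an optimal conditional decompressor. A decompressor is a
partial recursive function `D p v` of a program `p` and a condition `v`; it is optimal if for every
decompressor `D'` there is a constant `c` such that whenever `D' p v = u` there is a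
program `p'` with `|p'| ≤ |p| + c` and `D p' v = u`. -/
def IsOptimal (D : Str → Str →. Str) : Prop :=
  Partrec₂ D ∧ ∀ D' : Str → Str →. Str, Partrec₂ D' →
    ∃ c : ℕ, ∀ p v u, u ∈ D' p v → ∃ p' : Str, p'.length ≤ p.length + c ∧ u ∈ D p' v

/-- The conditional Kolmogorov complexity `KS(u | v)` with respect to the decompressor `D`: the
least length of a program `p` with `D p v = u`. -/
noncomputable def KS (D : Str → Str →. Str) (u v : Str) : ℕ :=
  sInf {k : ℕ | ∃ p : Str, p.length = k ∧ u ∈ D p v}

/-- The string `A(0) A(1) … A(k-1)` of the first `k` bits of the oracle `A`. -/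
def prefixOf (A : ℕ → Bool) (k : ℕ) : Str := (List.range k).map A

/-- `IsOracleDec E`: `E` is an oracle decompressor, that is, `E A p v` is computed, uniformly in
the oracle `A`, by one oracle machine. A computation that halts reads only a finite part of its
oracle; accordingly this is expressed by a partial recursive function `φ` such that `E A p v = u`
holds if and only if `φ (A(0) … A(k-1), p, v) = u` for some `k`. -/
def IsOracleDec (E : (ℕ → Bool) → Str → Str →. Str) : Prop :=
  ∃ φ : Str × Str × Str →. Str, Partrec φ ∧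
    ∀ A p v u, u ∈ E A p v ↔ ∃ k, u ∈ φ (prefixOf A k, p, v)

/-- `IsOracleOptimal E`: `E` is an optimal oracle decompressor: it is an oracle decompressor and
for every oracle decompressor `E'` there is a constant `c` such that for every oracle `A`,
whenever `E' A p v = u` there is a program `p'` with `|p'| ≤ |p| + c` and `E A p' v = u`. -/
def IsOracleOptimal (E : (ℕ → Bool) → Str → Str →. Str) : Prop :=
  IsOracleDec E ∧ ∀ E', IsOracleDec E' →
    ∃ c : ℕ, ∀ A p v u, u ∈ E' A p v → ∃ p' : Str, p'.length ≤ p.length + c ∧ u ∈ E A p' v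

/-- The Gray-Wyner profile of `(x, y)` with respect to a complexity function `C u v = C(u | v)`
(with `C(q) = C(q | empty string)`): the triples `(α, β, γ)` of nonnegative reals such that
`C(q) ≤ γ`, `C(x | q) ≤ α`, `C(y | q) ≤ β` for some string `q`. -/
def GW (C : Str → Str → ℕ) (x y : Str) : Set (ℝ × ℝ × ℝ) :=
  {t | 0 ≤ t.1 ∧ 0 ≤ t.2.1 ∧ 0 ≤ t.2.2 ∧
    ∃ q : Str, (C q [] : ℝ) ≤ t.2.2 ∧ (C x q : ℝ) ≤ t.1 ∧ (C y q : ℝ) ≤ t.2.1}

/-- `shift S δ`: the triples `(α, β, γ)` of nonnegative reals with `(α + δ, β + δ, γ + δ) ∈ S`. -/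
def shift (S : Set (ℝ × ℝ × ℝ)) (δ : ℝ) : Set (ℝ × ℝ × ℝ) :=
  {t | 0 ≤ t.1 ∧ 0 ≤ t.2.1 ∧ 0 ≤ t.2.2 ∧ (t.1 + δ, t.2.1 + δ, t.2.2 + δ) ∈ S}

/-- The uniform (fair-coin) measure on `{0,1}^ℕ`: the product of the uniform measures on
the factors `{false, true}`. -/
noncomputable def coin : Measure (ℕ → Bool) :=
  Measure.infinitePi fun _ : ℕ => (PMF.uniformOfFintype Bool).toMeasure

end Pool.Agent.GWP
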