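import Pool.Agent.GWP.RunPrim
import Pool.Agent.GWP.Defs

/-!
The histories produced by an oracle decompressor.
-/

namespace Pool.Agent.GWP

open Prim

/-- The reversed prefix of length `k` of an oracle. -/
def rp (A : ℕ → Bool) : ℕ → List Bool
  | 0 => []
  | k + 1 => A k :: rp A k

theorem rp_length (A : ℕ → Bool) (k : ℕ) : (rp A k).length = k := by
  induction k with
  | zero => rfl
  | succ k ih => rw [rp, List.length_cons, ih]

theorem prefixOf_eq (A : ℕ → Bool) (k : ℕ) : prefixOf A k = (rp A k).reverse := by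
  induction k with
  | zero => rfl
  | succ k ih =>
    rw [rp, List.reverse_cons, ← ih]
    unfold prefixOf
    rw [List.range_succ, List.map_append]
    rfl

theorem rp_congr {A A' : ℕ → Bool} {k : ℕ} (h : ∀ i < k, A i = A' i) : rp A k = rp A' k := by
  induction k with
  | zero => rfl
  | succ k ih => rw [rp, rp, h k (Nat.lt_succ_self k), ih fun i hi => h i (Nat.lt_succ_of_lt hi)]

theorem exists_oracle (σ : List Bool) : ∃ A : ℕ → Bool, rp A σ.length = σ := by
  induction σ with
  | nil => exact ⟨fun _ => false, rfl⟩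
  | cons b σ ih =>
    obtain ⟨A, hA⟩ := ih
    refine ⟨fun i => if i = σ.length then b else A i, ?_⟩
    rw [List.length_cons, rp]
    congr 1
    · simp
    · rw [← hA]
      rw [rp_length]
      apply rp_congr
      intro i hi
      rw [if_neg (by omega)]

/-- The stagewise simulation of an oracle decompressor. -/
structure Sim (E : (ℕ → Bool) → Str → Str →. Str) (e : Str → Str → Str → Option Str) : Prop where
  prim : Primrec fun z : Str × Str × Str => e z.1 z.2.1 z.2.2
  sound : ∀ A k p v u, e (rp A k) p v = some u → u ∈ E A p v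
  compl : ∀ A p v u, u ∈ E A p v → ∃ k₀, ∀ k ≥ k₀, e (rp A k) p v = some u

/-- The stagewise enumeration of the strings of complexity at most `n`. -/
structure Names (D : Str → Str →. Str) (U : ℕ → ℕ → List Str) : Prop where
  prim : Primrec fun z : ℕ × ℕ => U z.1 z.2
  pre : ∀ n s, U n s <+: U n (s + 1)
  nodup : ∀ n s, (U n s).Nodup
  sound : ∀ n s u, u ∈ U n s → ∃ p : Str, p.length ≤ n ∧ u ∈ D p []
  compl : ∀ n p u, p.length ≤ n → u ∈ D p [] → ∃ s, u ∈ U n s

/-- Strings of length at most `c`. -/
def progs (c : ℕ) : List Str := listsLE [false, true] c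

@[fun_prop] theorem progs_prim {α : Type*} [Primcodable α] {c : α → ℕ} (hc : Primrec c) :
    Primrec fun x => progs (c x) := by
  unfold progs; fun_prop

theorem mem_progs {c : ℕ} {p : Str} : p ∈ progs c ↔ p.length ≤ c := by
  unfold progs
  rw [mem_listsLE]
  constructor
  · exact fun h => h.1
  · exact fun h => ⟨h, fun e _ => by cases e <;> simp⟩

theorem progs_length (c : ℕ) : (progs c).length + 1 = 2 ^ (c + 1) := by
  unfold progs
  induction c with
  | zero => simp [listsLE]
  | succ c ih =>
    rw [listsLE, List.length_cons, List.length_flatMap]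
    simp only [List.length_map, List.length_cons, List.length_nil, List.map_const',
      List.sum_replicate, smul_eq_mul]
    rw [pow_succ, ← ih]; ring

theorem progs_nodup (c : ℕ) : (progs c).Nodup := listsLE_nodup (by simp) c

section
variable (e : Str → Str → Str → Option Str) (U : ℕ → ℕ → List Str)

/-- The program `p` yields a `q` such that some program of length `≤ c` yields `u` from `q`. -/
def sees (σ p : Str) (c : ℕ) (u : Str) : Bool :=
  ((e σ p []).map fun q => (progs c).any fun r => decide (e σ r q = some u)).getD false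

/-- The facts seen. -/
def newF (n a b : ℕ) (σ p : Str) : List (Bool × ℕ) :=
  (facts (U n σ.length).length).filter fun f =>
    ((U n σ.length)[f.2]?.map fun u => sees e σ p (bif f.1 then a else b) u).getD false

/-- The history of the pair `(σ, p)`. -/
def Hst (n a b : ℕ) : Str → Str → Hist
  | [], _ => []
  | c :: σ, p => (newF e U n a b (c :: σ) p).filter (fun f => !(memB f (Hst n a b σ p))) ++
      Hst n a b σ p

variable {e U}

theorem Hst_suffix (n a b : ℕ) (c : Bool) (σ p : Str) :
    Hst e U n a b σ p <:+ Hst e U n a b (c :: σ) p := by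
  rw [Hst]; exact List.suffix_append _ _

theorem Hst_nil (n a b : ℕ) (p : Str) : Hst e U n a b [] p = [] := rfl

theorem Hst_nodup (n a b : ℕ) (σ p : Str) : (Hst e U n a b σ p).Nodup := by
  induction σ with
  | nil => simp [Hst]
  | cons c σ ih =>
    rw [Hst, List.nodup_append]
    refine ⟨?_, ih, ?_⟩
    · exact ((facts_nodup _).filter _).filter _
    · intro x hx y hy hxy
      rw [List.mem_filter] at hx
      subst hxy
      have := hx.2
      simp only [Bool.not_eq_true', ← Bool.not_eq_true, memB_iff] at this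
      exact this hy

theorem Hst_mono {n a b : ℕ} {A : ℕ → Bool} {p : Str} {k k' : ℕ} (h : k ≤ k') :
    Hst e U n a b (rp A k) p <:+ Hst e U n a b (rp A k') p := by
  induction k' with
  | zero =>
    have : k = 0 := by omega
    subst this; exact List.suffix_refl _
  | succ k' ih =>
    rcases Nat.lt_or_ge k (k' + 1) with h1 | h1
    · exact (ih (by omega)).trans (Hst_suffix _ _ _ _ _ _)
    · have : k = k' + 1 := by omega
      subst this; exact List.suffix_refl _

theorem mem_newF {n a b : ℕ} {σ p : Str} {f : Bool × ℕ} :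
    f ∈ newF e U n a b σ p ↔ ∃ u, (U n σ.length)[f.2]? = some u ∧
      sees e σ p (bif f.1 then a else b) u = true := by
  unfold newF
  rw [List.mem_filter, mem_facts]
  constructor
  · rintro ⟨h1, h2⟩
    cases hu : (U n σ.length)[f.2]? with
    | none => rw [hu] at h2; simp at h2
    | some u =>
      rw [hu] at h2
      exact ⟨u, rfl, by simpa using h2⟩
  · rintro ⟨u, hu, h⟩
    refine ⟨?_, by rw [hu]; simpa using h⟩
    obtain ⟨h1, _⟩ := List.getElem?_eq_some_iff.1 hu
    exact h1

theorem Hst_sound {n a b : ℕ} {A : ℕ → Bool} {p : Str} {k : ℕ} {f : Bool × ℕ}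
    (hf : f ∈ Hst e U n a b (rp A k) p) : ∃ k' ≤ k, ∃ u, (U n k')[f.2]? = some u ∧
      sees e (rp A k') p (bif f.1 then a else b) u = true := by
  induction k with
  | zero => simp [rp, Hst] at hf
  | succ k ih =>
    rw [rp, Hst, List.mem_append] at hf
    rcases hf with hf | hf
    · rw [List.mem_filter] at hf
      obtain ⟨u, hu, hs⟩ := mem_newF.1 hf.1
      refine ⟨k + 1, le_rfl, u, ?_, ?_⟩
      · rw [List.length_cons, rp_length] at hu
        exact hu
      · exact hs
    · obtain ⟨k', hk', h⟩ := ih hf
      exact ⟨k', by omega, h⟩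

theorem Hst_complete {n a b : ℕ} {A : ℕ → Bool} {p : Str} {k : ℕ} (hk : 0 < k) {f : Bool × ℕ}
    {u : Str} (hu : (U n k)[f.2]? = some u)
    (hs : sees e (rp A k) p (bif f.1 then a else b) u = true) :
    f ∈ Hst e U n a b (rp A k) p := by
  obtain ⟨k', rfl⟩ : ∃ k', k = k' + 1 := ⟨k - 1, by omega⟩
  rw [rp, Hst, List.mem_append]
  by_cases hm : f ∈ Hst e U n a b (rp A k') p
  · exact Or.inr hm
  · left
    rw [List.mem_filter]
    refine ⟨mem_newF.2 ⟨u, ?_, hs⟩, ?_⟩
    · rw [List.length_cons, rp_length]; exact hu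
    · simp only [Bool.not_eq_true', ← Bool.not_eq_true, memB_iff]
      exact hm

variable {E : (ℕ → Bool) → Str → Str →. Str} {D : Str → Str →. Str}

theorem sees_sound (hE : Sim E e) {A : ℕ → Bool} {k : ℕ} {p : Str} {c : ℕ} {u : Str}
    (h : sees e (rp A k) p c u = true) :
    ∃ q ∈ E A p [], ∃ r : Str, r.length ≤ c ∧ u ∈ E A r q := by
  unfold sees at h
  cases hq : e (rp A k) p [] with
  | none => rw [hq] at h; simp at h
  | some q =>
    rw [hq] at h
    simp only [Option.map_some, Option.getD_some, List.any_eq_true, decide_eq_true_eq] at h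
    obtain ⟨r, hr, hu⟩ := h
    exact ⟨q, hE.sound _ _ _ _ _ hq, r, mem_progs.1 hr, hE.sound _ _ _ _ _ hu⟩

theorem sees_complete (hE : Sim E e) {A : ℕ → Bool} {p : Str} {c : ℕ} {u q r : Str}
    (hq : q ∈ E A p []) (hr : r.length ≤ c) (hu : u ∈ E A r q) :
    ∃ k₀, ∀ k ≥ k₀, sees e (rp A k) p c u = true := by
  obtain ⟨k1, h1⟩ := hE.compl _ _ _ _ hq
  obtain ⟨k2, h2⟩ := hE.compl _ _ _ _ hu
  refine ⟨max k1 k2, fun k hk => ?_⟩
  unfold sees
  rw [h1 k (le_trans (le_max_left _ _) hk)]
  simp only [Option.map_some, Option.getD_some, List.any_eq_true, decide_eq_true_eq]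
  exact ⟨r, mem_progs.2 hr, h2 k (le_trans (le_max_right _ _) hk)⟩

theorem names_mono (hU : Names D U) {n s s' : ℕ} (h : s ≤ s') : U n s <+: U n s' := by
  induction s' with
  | zero =>
    have : s = 0 := by omega
    subst this; exact List.prefix_refl _
  | succ s' ih =>
    rcases Nat.lt_or_ge s (s' + 1) with h1 | h1
    · exact (ih (by omega)).trans (hU.pre _ _)
    · have : s = s' + 1 := by omega
      subst this; exact List.prefix_refl _

theorem names_get (hU : Names D U) {n s s' i : ℕ} {u : Str} (h : s ≤ s')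
    (hi : (U n s)[i]? = some u) : (U n s')[i]? = some u := by
  obtain ⟨t, ht⟩ := names_mono hU (n := n) h
  rw [← ht]
  obtain ⟨h1, h2⟩ := List.getElem?_eq_some_iff.1 hi
  rw [List.getElem?_append_left h1]
  exact hi

theorem names_inj (hU : Names D U) {n s s' i j : ℕ} {u : Str} (hi : (U n s)[i]? = some u)
    (hj : (U n s')[j]? = some u) : i = j := by
  have h1 := names_get hU (le_max_left s s') hi
  have h2 := names_get hU (le_max_right s s') hj
  obtain ⟨h3, h4⟩ := List.getElem?_eq_some_iff.1 h1
  obtain ⟨h5, h6⟩ := List.getElem?_eq_some_iff.1 h2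
  exact (hU.nodup n (max s s')).getElem_inj_iff.1 (h4.trans h6.symm)

theorem names_fun (hU : Names D U) {n s s' i : ℕ} {u u' : Str} (hi : (U n s)[i]? = some u)
    (hj : (U n s')[i]? = some u') : u = u' := by
  have h1 := names_get hU (le_max_left s s') hi
  have h2 := names_get hU (le_max_right s s') hj
  rw [h1] at h2
  exact Option.some.inj h2

theorem names_length (hU : Names D U) (n s : ℕ) : (U n s).length < 2 ^ (n + 1) := by
  have h1 : ∀ u : Str, ∃ p : Str, u ∈ U n s → p.length ≤ n ∧ u ∈ D p [] := by
    intro u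
    by_cases hu : u ∈ U n s
    · obtain ⟨p, hp⟩ := hU.sound n s u hu
      exact ⟨p, fun _ => hp⟩
    · exact ⟨[], fun h => absurd h hu⟩
  choose f hf using h1
  have h2 : ((U n s).map f).Nodup := by
    apply List.Nodup.map_on _ (hU.nodup n s)
    intro u hu v hv huv
    have h3 := (hf u hu).2
    have h4 := (hf v hv).2
    rw [huv] at h3
    exact Part.mem_unique h3 h4
  have h3 : (U n s).length ≤ (progs n).length := by
    rw [← List.length_map (f := f)]
    apply (List.Nodup.subperm h2 _).length_le
    intro p hp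
    rw [List.mem_map] at hp
    obtain ⟨u, hu, rfl⟩ := hp
    exact mem_progs.2 (hf u hu).1
  have := progs_length n
  omega

theorem Hst_count (hE : Sim E e) (hU : Names D U) (n a b : ℕ) (σ p : Str) (c : Bool) :
    (Hst e U n a b σ p).countP (fun f => decide (f.1 = c)) < 2 ^ ((bif c then a else b) + 1) := by
  obtain ⟨A, hA⟩ := exists_oracle σ
  rw [← hA]
  set L := (Hst e U n a b (rp A σ.length) p).filter (fun f => decide (f.1 = c)) with hL
  rw [List.countP_eq_length_filter, ← hL]
  have h1 : ∀ f : Bool × ℕ, ∃ r : Str, f ∈ L → r.length ≤ (bif c then a else b) ∧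
      ∃ q ∈ E A p [], ∃ u, u ∈ E A r q ∧ ∃ k, (U n k)[f.2]? = some u := by
    intro f
    by_cases hf : f ∈ L
    · rw [hL, List.mem_filter] at hf
      obtain ⟨k', _, u, hu, hs⟩ := Hst_sound hf.1
      obtain ⟨q, hq, r, hr, hur⟩ := sees_sound hE hs
      have hc : f.1 = c := by simpa using hf.2
      rw [hc] at hr
      exact ⟨r, fun _ => ⟨hr, q, hq, u, hur, k', hu⟩⟩
    · exact ⟨[], fun h => absurd h hf⟩
  choose g hg using h1
  have h2 : (L.map g).Nodup := by
    apply List.Nodup.map_on _ ((Hst_nodup _ _ _ _ _).filter _)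
    intro f hf f' hf' hgg
    obtain ⟨_, q, hq, u, hu, k, hk⟩ := hg f hf
    obtain ⟨_, q', hq', u', hu', k', hk'⟩ := hg f' hf'
    have hqq : q = q' := Part.mem_unique hq hq'
    subst hqq
    rw [hgg] at hu
    have huu : u = u' := Part.mem_unique hu hu'
    subst huu
    have hii := names_inj hU hk hk'
    rw [List.mem_filter] at hf hf'
    have hc : f.1 = c := by simpa using hf.2
    have hc' : f'.1 = c := by simpa using hf'.2
    exact Prod.ext (hc.trans hc'.symm) hii
  have h3 : L.length ≤ (progs (bif c then a else b)).length := by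
    rw [← List.length_map (f := g)]
    apply (List.Nodup.subperm h2 _).length_le
    intro r hr
    rw [List.mem_map] at hr
    obtain ⟨f, hf, rfl⟩ := hr
    exact mem_progs.2 (hg f hf).1
  have := progs_length (bif c then a else b)
  omega

theorem Hst_legal (hE : Sim E e) (hU : Names D U) (n a b : ℕ) (σ p : Str) :
    LegalH (2 ^ (n + 1)) (2 ^ (a + 1)) (2 ^ (b + 1)) (Hst e U n a b σ p) := by
  refine LegalH.mk' (Hst_nodup _ _ _ _ _) ?_ (Hst_count hE hU n a b σ p true).le
    (Hst_count hE hU n a b σ p false).le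
  intro f hf
  obtain ⟨A, hA⟩ := exists_oracle σ
  rw [← hA] at hf
  obtain ⟨k', _, u, hu, _⟩ := Hst_sound hf
  obtain ⟨h1, _⟩ := List.getElem?_eq_some_iff.1 hu
  exact lt_trans h1 (names_length hU n k')

theorem Hst_prim (he : Primrec fun z : Str × Str × Str => e z.1 z.2.1 z.2.2)
    (hU : Primrec fun z : ℕ × ℕ => U z.1 z.2) {α : Type} [Primcodable α] {n a b : α → ℕ}
    {σ p : α → Str} (hn : Primrec n) (ha : Primrec a) (hb : Primrec b) (hσ : Primrec σ)
    (hp : Primrec p) : Primrec fun x => Hst e U (n x) (a x) (b x) (σ x) (p x) := by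
  have he' : ∀ {β : Type} [Primcodable β] {f g h : β → Str}, Primrec f → Primrec g → Primrec h →
      Primrec fun x => e (f x) (g x) (h x) := fun hf hg hh => he.comp (hf.pair (hg.pair hh))
  have hU' : ∀ {β : Type} [Primcodable β] {f g : β → ℕ}, Primrec f → Primrec g →
      Primrec fun x => U (f x) (g x) := fun hf hg => hU.comp (hf.pair hg)
  have hsees : ∀ {β : Type} [Primcodable β] {f g : β → Str} {c : β → ℕ} {u : β → Str},
      Primrec f → Primrec g → Primrec c → Primrec u →
      Primrec fun x => sees e (f x) (g x) (c x) (u x) := by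
    intro β _ f g c u hf hg hc hu
    unfold sees progs
    have h1 := he' hf hg (Primrec.const ([] : Str))
    have h2 : Primrec fun z : (β × Str) × Str => e (f z.1.1) z.2 z.1.2 :=
      he' (by fun_prop) (by fun_prop) (by fun_prop)
    fun_prop
  have hnew : ∀ {β : Type} [Primcodable β] {n a b : β → ℕ} {f g : β → Str},
      Primrec n → Primrec a → Primrec b → Primrec f → Primrec g →
      Primrec fun x => newF e U (n x) (a x) (b x) (f x) (g x) := by
    intro β _ n a b f g hn ha hb hf hg
    unfold newF
    have h1 : Primrec fun x => U (n x) (f x).length := hU' (by fun_prop) (by fun_prop)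
    have h2 : Primrec fun z : (β × (Bool × ℕ)) × Str =>
        sees e (f z.1.1) (g z.1.1) (bif z.1.2.1 then a z.1.1 else b z.1.1) z.2 :=
      hsees (by fun_prop) (by fun_prop) (by fun_prop) (by fun_prop)
    have h3 : Primrec fun z : β × (Bool × ℕ) => U (n z.1) (f z.1).length :=
      hU' (by fun_prop) (by fun_prop)
    fun_prop
  have h1 : Primrec fun z : α × (Bool × List Bool × Hist) =>
      (newF e U (n z.1) (a z.1) (b z.1) (z.2.1 :: z.2.2.1) (p z.1)).filter
        (fun f => !(memB f z.2.2.2)) ++ z.2.2.2 := by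
    have h2 : Primrec fun z : α × (Bool × List Bool × Hist) =>
      newF e U (n z.1) (a z.1) (b z.1) (z.2.1 :: z.2.2.1) (p z.1) :=
      hnew (by fun_prop) (by fun_prop) (by fun_prop) (by fun_prop) (by fun_prop)
    fun_prop
  have h2 := listRec' (α := α) (g := fun _ : α => ([] : Hist))
    (h := fun x c τ ih => (newF e U (n x) (a x) (b x) (c :: τ) (p x)).filter
        (fun f => !(memB f ih)) ++ ih) hσ (by fun_prop) h1
  refine h2.of_eq fun x => ?_
  generalize σ x = τ
  induction τ with
  | nil => rfl
  | cons c τ ih => simp only [Hst]; rw [← ih]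

end

end Pool.Agent.GWP
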