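import Pool.Agent.GWP.Kolm
import Pool.Agent.GWP.Real

/-!
Stagewise simulations; existence of optimal decompressors, without and with oracles.
-/

namespace Pool.Agent.GWP

open Prim Encodable Denumerable

/-- The result, if any, of the `i`-th program on `a` within `s` steps. -/
def ev {α β : Type} [Primcodable α] [Primcodable β] (s i : ℕ) (a : α) : Option β :=
  (Nat.Partrec.Code.evaln s (ofNat Nat.Partrec.Code i) (encode a)).bind fun m => decode m

theorem ev_prim {α β γ : Type} [Primcodable α] [Primcodable β] [Primcodable γ] {s i : γ → ℕ}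
    {a : γ → α} (hs : Primrec s) (hi : Primrec i) (ha : Primrec a) :
    Primrec fun x => (ev (s x) (i x) (a x) : Option β) := by
  unfold ev
  have h1 : Primrec fun x => Nat.Partrec.Code.evaln (s x) (ofNat Nat.Partrec.Code (i x))
      (encode (a x)) :=
    Nat.Partrec.Code.primrec_evaln.comp
      (g := fun x => ((s x, ofNat Nat.Partrec.Code (i x)), encode (a x)))
      ((hs.pair ((Primrec.ofNat _).comp hi)).pair (Primrec.encode.comp ha))
  fun_prop

theorem ev_mono {α β : Type} [Primcodable α] [Primcodable β] {s s' i : ℕ} {a : α} {b : β}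
    (h : s ≤ s') (hb : ev s i a = some b) : ev s' i a = some b := by
  unfold ev at hb ⊢
  rw [Option.bind_eq_some_iff] at hb ⊢
  obtain ⟨m, hm, hd⟩ := hb
  exact ⟨m, Nat.Partrec.Code.evaln_mono h hm, hd⟩

theorem ev_spec {α β : Type} [Primcodable α] [Primcodable β] {f : α →. β} (hf : Partrec f) :
    ∃ i : ℕ, ∀ a b, b ∈ f a ↔ ∃ s, ev s i a = some b := by
  obtain ⟨c, hc⟩ := Nat.Partrec.Code.exists_code.1 hf
  refine ⟨encode c, ?_⟩
  intro a b
  have hev : ∀ m, m ∈ Nat.Partrec.Code.eval c (encode a) ↔ ∃ b' ∈ f a, encode b' = m := by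
    intro m
    rw [hc]
    simp only [encodek, Part.coe_some, Part.bind_some, Part.mem_map_iff]
  constructor
  · intro hb
    have h1 := (hev (encode b)).2 ⟨b, hb, rfl⟩
    obtain ⟨s, hs⟩ := Nat.Partrec.Code.evaln_complete.1 h1
    refine ⟨s, ?_⟩
    unfold ev
    rw [ofNat_encode, Option.bind_eq_some_iff]
    exact ⟨_, hs, encodek b⟩
  · rintro ⟨s, hs⟩
    unfold ev at hs
    rw [ofNat_encode, Option.bind_eq_some_iff] at hs
    obtain ⟨m, hm, hd⟩ := hs
    obtain ⟨b', hb', he⟩ := (hev m).1 (Nat.Partrec.Code.evaln_sound hm)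
    rw [← he, encodek] at hd
    rw [← Option.some.inj hd]
    exact hb'

/-- The names. -/
def namesOf (i n s : ℕ) : List Str :=
  cum (fun s => (progs n).flatMap fun p =>
    (((ev s i (p, ([] : Str)) : Option Str)).map fun u => [u]).getD []) s

theorem exists_names {D : Str → Str →. Str} (hD : Partrec₂ D) :
    ∃ U : ℕ → ℕ → List Str, Names D U := by
  obtain ⟨i, hi⟩ := ev_spec (α := Str × Str) (β := Str) (f := fun z => D z.1 z.2) hD
  have hmem : ∀ n s u, u ∈ (progs n).flatMap (fun p =>
      (((ev s i (p, ([] : Str)) : Option Str)).map fun u => [u]).getD []) ↔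
      ∃ p : Str, p.length ≤ n ∧ (ev s i (p, ([] : Str)) : Option Str) = some u := by
    intro n s u
    rw [List.mem_flatMap]
    constructor
    · rintro ⟨p, hp, hu⟩
      refine ⟨p, mem_progs.1 hp, ?_⟩
      cases h : (ev s i (p, ([] : Str)) : Option Str) with
      | none => rw [h] at hu; simp at hu
      | some u' =>
        rw [h] at hu
        simp only [Option.map_some, Option.getD_some, List.mem_cons, List.not_mem_nil,
          or_false] at hu
        rw [hu]
    · rintro ⟨p, hp, hu⟩
      refine ⟨p, mem_progs.2 hp, ?_⟩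
      rw [hu]; simp
  refine ⟨namesOf i, ?_, ?_, ?_, ?_, ?_⟩
  · unfold namesOf
    have h1 : Primrec fun z : ℕ × ℕ => (progs z.1).flatMap fun p =>
        (((ev z.2 i (p, ([] : Str)) : Option Str)).map fun u => [u]).getD [] := by
      have h2 : Primrec fun z : (ℕ × ℕ) × Str => (ev z.1.2 i (z.2, ([] : Str)) : Option Str) :=
        ev_prim (by fun_prop) (by fun_prop) (by fun_prop)
      fun_prop
    exact cum_prim (S := fun n s => (progs n).flatMap fun p =>
        (((ev s i (p, ([] : Str)) : Option Str)).map fun u => [u]).getD []) h1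
  · intro n s
    exact cum_mono _ (Nat.le_succ s)
  · intro n s
    exact cum_nodup _ _
  · intro n s u hu
    unfold namesOf at hu
    rw [mem_cum] at hu
    obtain ⟨s', _, hu⟩ := hu
    rw [hmem] at hu
    obtain ⟨p, hp, hu⟩ := hu
    exact ⟨p, hp, (hi (p, []) u).2 ⟨_, hu⟩⟩
  · intro n p u hp hu
    obtain ⟨s, hs⟩ := (hi (p, []) u).1 hu
    refine ⟨s + 1, ?_⟩
    unfold namesOf
    rw [mem_cum]
    exact ⟨s, Nat.lt_succ_self s, (hmem n s u).2 ⟨p, hp, hs⟩⟩

theorem rp_drop (A : ℕ → Bool) {k n : ℕ} (h : k ≤ n) : (rp A n).drop (n - k) = rp A k := by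
  induction n with
  | zero =>
    have : k = 0 := by omega
    subst this; rfl
  | succ n ih =>
    rcases Nat.lt_or_ge k (n + 1) with h1 | h1
    · rw [show n + 1 - k = (n - k) + 1 by omega, rp, List.drop_succ_cons]
      exact ih (by omega)
    · have : k = n + 1 := by omega
      subst this; simp

/-- The results of the `i`-th program on the prefixes of `σ` within `|σ|` steps. -/
def simOf (i : ℕ) (σ p v : Str) : Option Str :=
  ((List.range (σ.length + 1)).flatMap fun k =>
    (((ev σ.length i ((σ.drop (σ.length - k)).reverse, p, v) : Option Str)).map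
      fun u => [u]).getD [])[0]?

theorem simOf_prim {γ : Type} [Primcodable γ] {i : γ → ℕ} {σ p v : γ → Str} (hi : Primrec i)
    (hσ : Primrec σ) (hp : Primrec p) (hv : Primrec v) :
    Primrec fun x => simOf (i x) (σ x) (p x) (v x) := by
  unfold simOf
  have h2 : Primrec fun z : γ × ℕ => (ev (σ z.1).length (i z.1)
      (((σ z.1).drop ((σ z.1).length - z.2)).reverse, p z.1, v z.1) : Option Str) :=
    ev_prim (by fun_prop) (by fun_prop) (by fun_prop)
  fun_prop

theorem simOf_spec {E : (ℕ → Bool) → Str → Str →. Str} {φ : Str × Str × Str →. Str} {i : ℕ}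
    (hi : ∀ a b, b ∈ φ a ↔ ∃ s, ev s i a = some b)
    (hE : ∀ A p v u, u ∈ E A p v ↔ ∃ k, u ∈ φ (prefixOf A k, p, v)) :
    (∀ A n p v u, simOf i (rp A n) p v = some u → u ∈ E A p v) ∧
    (∀ A p v u, u ∈ E A p v → ∃ n₀, ∀ n ≥ n₀, simOf i (rp A n) p v = some u) := by
  have hmem : ∀ (A : ℕ → Bool) (n : ℕ) (p v u : Str),
      u ∈ ((List.range ((rp A n).length + 1)).flatMap fun k =>
      (((ev (rp A n).length i (((rp A n).drop ((rp A n).length - k)).reverse, p, v) :
        Option Str)).map fun u => [u]).getD []) ↔
      ∃ k ≤ n, ev n i (prefixOf A k, p, v) = some u := by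
    intro A n p v u
    rw [List.mem_flatMap, rp_length]
    constructor
    · rintro ⟨k, hk, hu⟩
      have hk' : k ≤ n := Nat.lt_succ_iff.1 (List.mem_range.1 hk)
      refine ⟨k, hk', ?_⟩
      rw [rp_drop A hk', ← prefixOf_eq] at hu
      cases h : (ev n i (prefixOf A k, p, v) : Option Str) with
      | none => rw [h] at hu; simp at hu
      | some u' =>
        rw [h] at hu
        simp only [Option.map_some, Option.getD_some, List.mem_cons, List.not_mem_nil,
          or_false] at hu
        rw [hu]
    · rintro ⟨k, hk, hu⟩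
      refine ⟨k, List.mem_range.2 (Nat.lt_succ_of_le hk), ?_⟩
      rw [rp_drop A hk, ← prefixOf_eq, hu]
      simp
  have hsound : ∀ A n p v u, simOf i (rp A n) p v = some u → u ∈ E A p v := by
    intro A n p v u hu
    unfold simOf at hu
    have h1 := List.mem_of_getElem? hu
    rw [hmem] at h1
    obtain ⟨k, _, h2⟩ := h1
    exact (hE A p v u).2 ⟨k, (hi _ _).2 ⟨n, h2⟩⟩
  refine ⟨hsound, ?_⟩
  intro A p v u hu
  obtain ⟨k, hk⟩ := (hE A p v u).1 hu
  obtain ⟨s, hs⟩ := (hi _ _).1 hk
  refine ⟨k + s, ?_⟩
  intro n hn
  have h1 : u ∈ ((List.range ((rp A n).length + 1)).flatMap fun k =>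
      (((ev (rp A n).length i (((rp A n).drop ((rp A n).length - k)).reverse, p, v) :
        Option Str)).map fun u => [u]).getD []) :=
    (hmem A n p v u).2 ⟨k, by omega, ev_mono (by omega) hs⟩
  cases hc : simOf i (rp A n) p v with
  | some u' =>
    have h2 := hsound A n p v u' hc
    rw [Part.mem_unique hu h2]
  | none =>
    exfalso
    unfold simOf at hc
    rw [List.getElem?_eq_none_iff] at hc
    have h2 : 0 < _ := List.length_pos_of_mem h1
    omega

theorem exists_sim {E : (ℕ → Bool) → Str → Str →. Str} (hE : IsOracleDec E) :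
    ∃ e : Str → Str → Str → Option Str, Sim E e := by
  obtain ⟨φ, hφ, hE⟩ := hE
  obtain ⟨i, hi⟩ := ev_spec hφ
  obtain ⟨h1, h2⟩ := simOf_spec hi hE
  exact ⟨simOf i, simOf_prim (by fun_prop) (by fun_prop) (by fun_prop) (by fun_prop), h1, h2⟩

/-- The universal decompressor. -/
def univD (p v : Str) : Part Str :=
  Nat.rfindOpt fun s => (ev s (lead p) (p.drop (lead p + 1), v) : Option Str)

theorem exists_optimal : ∃ D : Str → Str →. Str, IsOptimal D := by
  refine ⟨univD, ?_, ?_⟩
  · have h1 : Primrec fun z : (Str × Str) × ℕ =>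
        (ev z.2 (lead z.1.1) (z.1.1.drop (lead z.1.1 + 1), z.1.2) : Option Str) :=
      ev_prim (by fun_prop) (by fun_prop) (by fun_prop)
    exact Partrec.rfindOpt h1.to_comp.to₂
  · intro D' hD'
    obtain ⟨i, hi⟩ := ev_spec (α := Str × Str) (β := Str) (f := fun z => D' z.1 z.2) hD'
    refine ⟨i + 1, ?_⟩
    intro p v u hu
    refine ⟨List.replicate i true ++ false :: p, ?_, ?_⟩
    · simp only [List.length_append, List.length_replicate, List.length_cons]; omega
    · obtain ⟨s, hs⟩ := (hi (p, v) u).1 hu
      unfold univD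
      rw [Nat.rfindOpt_mono (fun hmn ha => ev_mono hmn ha)]
      refine ⟨s, ?_⟩
      have hd : (List.replicate i true ++ false :: p).drop (i + 1) = p := by
        rw [List.drop_append]; simp
      rw [lead_replicate, hd]
      exact hs

/-- The universal oracle decompressor. -/
def univE (A : ℕ → Bool) (p v : Str) : Part Str :=
  Nat.rfindOpt fun n => simOf (lead p) (rp A n) (p.drop (lead p + 1)) v

/-- The functional computed by `univE`. -/
def univF (z : Str × Str × Str) : Option Str :=
  ((List.range (z.1.length + 1)).flatMap fun n =>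
    ((simOf (lead z.2.1) (z.1.reverse.drop (z.1.length - n)) (z.2.1.drop (lead z.2.1 + 1))
      z.2.2).map fun u => [u]).getD [])[0]?

theorem univF_prim : Primrec univF := by
  unfold univF
  have h1 : Primrec fun z : (Str × Str × Str) × ℕ =>
      simOf (lead z.1.2.1) (z.1.1.reverse.drop (z.1.1.length - z.2))
        (z.1.2.1.drop (lead z.1.2.1 + 1)) z.1.2.2 :=
    simOf_prim (by fun_prop) (by fun_prop) (by fun_prop) (by fun_prop)
  fun_prop

theorem first_flatMap (f : ℕ → Option Str) : ∀ (k : ℕ) (u : Str),
    ((List.range (k + 1)).flatMap fun n => ((f n).map fun u => [u]).getD [])[0]? = some u ↔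
      ∃ n ≤ k, f n = some u ∧ ∀ m < n, f m = none := by
  intro k
  induction k with
  | zero =>
    intro u
    simp only [zero_add, List.range_one, List.flatMap_cons, List.flatMap_nil, List.append_nil]
    cases h : f 0 with
    | none =>
      simp only [Option.map_none, Option.getD_none, List.getElem?_nil]
      constructor
      · intro h'; exact absurd h' (by simp)
      · rintro ⟨n, hn, h1, _⟩
        have : n = 0 := by omega
        subst this
        rw [h] at h1; exact absurd h1 (by simp)
    | some u' =>
      simp only [Option.map_some, Option.getD_some, List.getElem?_cons_zero]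
      constructor
      · intro h'
        exact ⟨0, le_rfl, by rw [h]; exact h', fun m hm => absurd hm (by omega)⟩
      · rintro ⟨n, hn, h1, _⟩
        have : n = 0 := by omega
        subst this
        rw [h] at h1; exact h1
  | succ k ih =>
    intro u
    rw [List.range_succ, List.flatMap_append, List.getElem?_append]
    split_ifs with hlen
    · rw [ih]
      constructor
      · rintro ⟨n, hn, h⟩; exact ⟨n, by omega, h⟩
      · rintro ⟨n, hn, h1, h2⟩
        rcases Nat.lt_or_ge n (k + 1) with h3 | h3
        · exact ⟨n, by omega, h1, h2⟩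
        · exfalso
          -- all values before are none, so the list is empty
          have : ((List.range (k + 1)).flatMap fun n => ((f n).map fun u => [u]).getD []) = [] := by
            rw [List.flatMap_eq_nil_iff]
            intro m hm
            rw [h2 m (by have := List.mem_range.1 hm; omega)]
            rfl
          rw [this] at hlen
          simp at hlen
    · have hnil : ((List.range (k + 1)).flatMap fun n =>
          ((f n).map fun u => [u]).getD []) = [] := by
        apply List.length_eq_zero_iff.1; omega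
      have hnone : ∀ m < k + 1, f m = none := by
        intro m hm
        rw [List.flatMap_eq_nil_iff] at hnil
        have := hnil m (List.mem_range.2 hm)
        cases h : f m with
        | none => rfl
        | some u' => rw [h] at this; simp at this
      rw [hnil]
      simp only [List.length_nil, Nat.sub_zero, List.flatMap_cons, List.flatMap_nil,
        List.append_nil]
      cases h : f (k + 1) with
      | none =>
        simp only [Option.map_none, Option.getD_none, List.getElem?_nil]
        constructor
        · intro h'; exact absurd h' (by simp)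
        · rintro ⟨n, hn, h1, _⟩
          rcases Nat.lt_or_ge n (k + 1) with h3 | h3
          · rw [hnone n h3] at h1; exact absurd h1 (by simp)
          · have : n = k + 1 := by omega
            subst this
            rw [h] at h1; exact absurd h1 (by simp)
      | some u' =>
        simp only [Option.map_some, Option.getD_some, List.getElem?_cons_zero]
        constructor
        · intro h'
          exact ⟨k + 1, le_rfl, by rw [h]; exact h', hnone⟩
        · rintro ⟨n, hn, h1, _⟩
          rcases Nat.lt_or_ge n (k + 1) with h3 | h3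
          · rw [hnone n h3] at h1; exact absurd h1 (by simp)
          · have : n = k + 1 := by omega
            subst this
            rw [h] at h1; exact h1

theorem mem_rfindOpt_iff (f : ℕ → Option Str) (u : Str) :
    u ∈ Nat.rfindOpt f ↔ ∃ n, f n = some u ∧ ∀ m < n, f m = none := by
  constructor
  · intro h
    obtain ⟨n, h1, h2⟩ := Part.mem_bind_iff.1 h
    refine ⟨n, Part.mem_coe.1 h2, fun m hm => ?_⟩
    have h3 := Nat.rfind_min h1 hm
    have h4 : false = (f m).isSome := by
      have := Part.mem_some_iff.1 h3
      exact this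
    cases h5 : f m with
    | none => rfl
    | some w => rw [h5] at h4; simp at h4
  · rintro ⟨n, h1, h2⟩
    refine Part.mem_bind_iff.2 ⟨n, Nat.mem_rfind.2 ⟨?_, ?_⟩, Part.mem_coe.2 h1⟩
    · refine Part.mem_some_iff.2 ?_
      rw [h1]; rfl
    · intro m hm
      refine Part.mem_some_iff.2 ?_
      rw [h2 m hm]; rfl

theorem univE_dec : IsOracleDec univE := by
  refine ⟨fun z => Part.ofOption (univF z), univF_prim.to_comp.ofOption, ?_⟩
  intro A p v u
  have h1 : ∀ k, univF (prefixOf A k, p, v) = some u ↔ ∃ n ≤ k,
      simOf (lead p) (rp A n) (p.drop (lead p + 1)) v = some u ∧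
      ∀ m < n, simOf (lead p) (rp A m) (p.drop (lead p + 1)) v = none := by
    intro k
    have hlen : (prefixOf A k).length = k := by unfold prefixOf; simp
    rw [← first_flatMap (fun n => simOf (lead p) (rp A n) (p.drop (lead p + 1)) v) k u]
    unfold univF
    simp only [hlen]
    rw [prefixOf_eq, List.reverse_reverse]
    have h2 : ((List.range (k + 1)).flatMap fun n =>
        ((simOf (lead p) ((rp A k).drop (k - n)) (p.drop (lead p + 1)) v).map
          fun u => [u]).getD []) =
        (List.range (k + 1)).flatMap fun n =>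
        ((simOf (lead p) (rp A n) (p.drop (lead p + 1)) v).map fun u => [u]).getD [] := by
      apply List.flatMap_congr
      intro n hn
      rw [rp_drop A (by have := List.mem_range.1 hn; omega)]
    rw [h2]
  unfold univE
  rw [mem_rfindOpt_iff]
  simp only [Part.mem_ofOption, Option.mem_def, h1]
  constructor
  · rintro ⟨n, h2⟩; exact ⟨n, n, le_rfl, h2⟩
  · rintro ⟨k, n, _, h2⟩; exact ⟨n, h2⟩

theorem exists_oracle_optimal : ∃ E : (ℕ → Bool) → Str → Str →. Str, IsOracleOptimal E := by
  refine ⟨univE, univE_dec, ?_⟩
  rintro E' ⟨φ, hφ, hE⟩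
  obtain ⟨i, hi⟩ := ev_spec hφ
  obtain ⟨h1, h2⟩ := simOf_spec hi hE
  refine ⟨i + 1, ?_⟩
  intro A p v u hu
  refine ⟨List.replicate i true ++ false :: p, ?_, ?_⟩
  · simp only [List.length_append, List.length_replicate, List.length_cons]; omega
  · have hd : (List.replicate i true ++ false :: p).drop (i + 1) = p := by
      rw [List.drop_append]; simp
    obtain ⟨n₀, hn₀⟩ := h2 A p v u hu
    unfold univE
    have hdom : (Nat.rfindOpt fun n => simOf (lead (List.replicate i true ++ false :: p)) (rp A n)
        ((List.replicate i true ++ false :: p).drop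
          (lead (List.replicate i true ++ false :: p) + 1)) v).Dom := by
      rw [Nat.rfindOpt_dom]
      refine ⟨n₀, u, ?_⟩
      rw [lead_replicate, hd]
      exact hn₀ n₀ le_rfl
    obtain ⟨u', hu'⟩ := Part.dom_iff_mem.1 hdom
    obtain ⟨n, hn⟩ := Nat.rfindOpt_spec hu'
    rw [lead_replicate, hd] at hn
    have h3 : u = u' := Part.mem_unique hu (h1 A n p v u' hn)
    rw [h3]
    exact hu'

end Pool.Agent.GWP
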