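import Mathlib

/-!
Binary-counter blocks of a list: the top block of a list whose length is `u * m` consists of its
first `u * 2 ^ v₂(m)` elements.
-/

namespace Pool.Agent.GWP

/-- `2 ^ v₂(m)`. -/
def lowbit (m : ℕ) : ℕ := 2 ^ padicValNat 2 m

theorem lowbit_pos (m : ℕ) : 0 < lowbit m := by unfold lowbit; positivity

theorem lowbit_dvd (m : ℕ) : lowbit m ∣ m := by
  unfold lowbit; exact pow_padicValNat_dvd

theorem lowbit_le {m : ℕ} (h : 0 < m) : lowbit m ≤ m := Nat.le_of_dvd h (lowbit_dvd m)

theorem dvd_sub_lowbit {m : ℕ} (h : 0 < m) : 2 ^ (padicValNat 2 m + 1) ∣ m - lowbit m := by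
  obtain ⟨q, hq⟩ := lowbit_dvd m
  have hodd : ¬ 2 ∣ q := by
    rintro ⟨r, hr⟩
    have : 2 ^ (padicValNat 2 m + 1) ∣ m := ⟨r, by
      calc m = lowbit m * q := hq
        _ = 2 ^ padicValNat 2 m * (2 * r) := by rw [hr]; rfl
        _ = _ := by ring⟩
    exact pow_succ_padicValNat_not_dvd h.ne' this
  have hq1 : q % 2 = 1 := by omega
  refine ⟨q / 2, ?_⟩
  have h2 : q = 2 * (q / 2) + 1 := by omega
  have : m = lowbit m * (2 * (q / 2) + 1) := by rw [← h2]; exact hq
  have h3 : m - lowbit m = lowbit m * (2 * (q/2)) := by
    rw [mul_add, mul_one] at this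
    omega
  rw [h3]; unfold lowbit; ring

/-- The sum `∑_{j ≤ m} 2 ^ v₂(j)`. -/
def lbsum : ℕ → ℕ
  | 0 => 0
  | m + 1 => lowbit (m + 1) + lbsum m

theorem lbsum_eq (m : ℕ) : lbsum m = ∑ j ∈ Finset.Ioc 0 m, lowbit j := by
  induction m with
  | zero => simp [lbsum]
  | succ m ih =>
    rw [lbsum, ih, ← Finset.insert_Ioc_right_eq_Ioc_add_one (Nat.zero_le m)]
    rw [Finset.sum_insert (by simp)]

theorem lbsum_le {m b : ℕ} (h : m < 2 ^ b) : lbsum m ≤ m * b := by
  rw [lbsum_eq]
  calc ∑ j ∈ Finset.Ioc 0 m, lowbit j
      ≤ ∑ j ∈ Finset.Ioc 0 m, ∑ k ∈ Finset.range b, if 2 ^ k ∣ j then 2 ^ k else 0 := by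
        apply Finset.sum_le_sum
        intro j hj
        simp only [Finset.mem_Ioc] at hj
        have hv : padicValNat 2 j < b := by
          by_contra hcon
          push Not at hcon
          have := lowbit_le hj.1
          have h2 : 2 ^ b ≤ lowbit j := by
            unfold lowbit; exact Nat.pow_le_pow_right (by norm_num) hcon
          omega
        refine le_trans ?_ (Finset.single_le_sum (fun _ _ => Nat.zero_le _) (Finset.mem_range.2 hv))
        rw [if_pos (by exact pow_padicValNat_dvd)]
        rfl
    _ = ∑ k ∈ Finset.range b, ∑ j ∈ Finset.Ioc 0 m, if 2 ^ k ∣ j then 2 ^ k else 0 :=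
        Finset.sum_comm
    _ = ∑ k ∈ Finset.range b, 2 ^ k * (m / 2 ^ k) := by
        apply Finset.sum_congr rfl
        intro k _
        rw [← Finset.sum_filter, Finset.sum_const, smul_eq_mul, mul_comm]
        congr 1
        rw [← Nat.Ioc_filter_dvd_card_eq_div]
    _ ≤ ∑ k ∈ Finset.range b, m := Finset.sum_le_sum fun k _ => Nat.mul_div_le m _
    _ = m * b := by simp [mul_comm]

variable {α : Type*}

/-- The top block of a list in units of `u`. -/
def top (u : ℕ) (L : List α) : List α := L.take (u * lowbit (L.length / u))

theorem top_length_le (u : ℕ) (L : List α) : (top u L).length ≤ u * lowbit (L.length / u) := by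
  unfold top; simp

theorem top_length_le' (u : ℕ) (L : List α) : (top u L).length ≤ L.length := by
  unfold top; simp

theorem top_sublist (u : ℕ) (L : List α) : (top u L).Sublist L := List.take_sublist _ _

theorem countP_pigeon_aux {u : ℕ} (hu : 0 < u) (q : α → Bool) (m t : ℕ) :
    ∀ (n : ℕ) (L : List α) (k : ℕ), L.length ≤ n → u ∣ L.length → 2 ^ k ∣ L.length / u →
      L.length / u < 2 ^ m → k ≤ m →
      (∀ L' : List α, L' <:+ L → L' ≠ [] → u ∣ L'.length → (top u L').countP q ≤ t) →
      L.countP q ≤ (m - k) * t := by
  intro n
  induction n with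
  | zero =>
    intro L k hL _ _ _ _ _
    have : L = [] := List.length_eq_zero_iff.1 (by omega)
    subst this; simp
  | succ n ih =>
    intro L k hL hdvd hk hm hkm hsub
    by_cases hne : L = []
    · subst hne; simp
    have hlen : 0 < L.length := List.length_pos_iff.2 hne
    have hmpos : 0 < L.length / u := Nat.div_pos (Nat.le_of_dvd hlen hdvd) hu
    set M := L.length / u with hM
    have hLM : L.length = u * M := (Nat.mul_div_cancel' hdvd).symm
    set v := padicValNat 2 M with hv
    have hlow : lowbit M = 2 ^ v := rfl
    have hkv : k ≤ v := by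
      rw [hv]; exact (padicValNat_dvd_iff_le hmpos.ne').1 hk
    have hvm : v < m := by
      by_contra hcon
      push Not at hcon
      have h1 := lowbit_le hmpos
      have h2 : 2 ^ m ≤ lowbit M := by rw [hlow]; exact Nat.pow_le_pow_right (by norm_num) hcon
      omega
    have hsplit : L = top u L ++ L.drop (u * lowbit M) := by
      unfold top; rw [← hM]; exact (List.take_append_drop _ _).symm
    have hcount : L.countP q = (top u L).countP q + (L.drop (u * lowbit M)).countP q := by
      conv_lhs => rw [hsplit]
      rw [List.countP_append]
    have hdl : (L.drop (u * lowbit M)).length = u * (M - lowbit M) := by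
      rw [List.length_drop, hLM, Nat.mul_sub]
    have hdl2 : (L.drop (u * lowbit M)).length / u = M - lowbit M := by
      rw [hdl, Nat.mul_div_cancel_left _ hu]
    have htop : (top u L).countP q ≤ t := hsub L (List.suffix_refl L) hne hdvd
    have hrest : (L.drop (u * lowbit M)).countP q ≤ (m - (v + 1)) * t := by
      apply ih
      · rw [hdl, Nat.mul_sub, ← hLM]
        have : 0 < u * lowbit M := Nat.mul_pos hu (lowbit_pos M)
        omega
      · rw [hdl]; exact Dvd.intro _ rfl
      · rw [hdl2]; exact dvd_sub_lowbit hmpos
      · rw [hdl2]; omega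
      · omega
      · intro L' hL' hne' hd'
        exact hsub L' (hL'.trans (List.drop_suffix _ _)) hne' hd'
    calc L.countP q ≤ t + (m - (v + 1)) * t := by omega
      _ = (m - (v + 1) + 1) * t := by ring
      _ ≤ (m - k) * t := Nat.mul_le_mul_right t (by omega)

/-- If a list has more than `m * t + u` elements satisfying `q`, and less than `2 ^ m` complete units, then
one of its blocks contains more than `t` of them. -/
theorem exists_block {u : ℕ} (hu : 0 < u) (q : α → Bool) (m t : ℕ) (L : List α)
    (hm : L.length / u < 2 ^ m) (hL : m * t + u ≤ L.countP q) :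
    ∃ L' : List α, L' <:+ L ∧ L' ≠ [] ∧ u ∣ L'.length ∧ t < (top u L').countP q := by
  by_contra hcon
  push Not at hcon
  have hr : L.length % u < u := Nat.mod_lt _ hu
  set L₀ := L.drop (L.length % u) with hL0
  have hlen : L₀.length = u * (L.length / u) := by
    rw [hL0, List.length_drop]
    have := Nat.div_add_mod L.length u
    omega
  have hcount : L.countP q ≤ L.length % u + L₀.countP q := by
    have h1 : L.countP q = (L.take (L.length % u)).countP q + L₀.countP q := by
      rw [hL0, ← List.countP_append, List.take_append_drop]
    have h2 : (L.take (L.length % u)).countP q ≤ L.length % u := by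
      refine le_trans List.countP_le_length ?_
      simp
    omega
  have hdiv : L₀.length / u = L.length / u := by
    rw [hlen, Nat.mul_div_cancel_left _ hu]
  have := countP_pigeon_aux hu q m t L₀.length L₀ 0 le_rfl (by rw [hlen]; exact Dvd.intro _ rfl)
    (by simp) (by rw [hdiv]; exact hm) (Nat.zero_le _) (fun L' hL' hne hd =>
      hcon L' (hL'.trans (List.drop_suffix _ _)) hne hd)
  simp only [Nat.sub_zero] at this
  omega

/-- The list of the blocks of a list (units of size one). -/
def blocks : List α → List (List α)
  | [] => []
  | x :: xs => top 1 (x :: xs) :: blocks ((x :: xs).drop (lowbit (xs.length + 1)))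
termination_by L => L.length
decreasing_by
  have := lowbit_pos (xs.length + 1)
  simp only [List.length_drop, List.length_cons]
  omega

/-- All blocks created while a list grows. -/
def created : List α → List (List α)
  | [] => []
  | x :: xs => top 1 (x :: xs) :: created xs

theorem blocks_cons (x : α) (xs : List α) :
    blocks (x :: xs) = top 1 (x :: xs) :: blocks ((x :: xs).drop (lowbit (xs.length + 1))) := by
  rw [blocks]

theorem top_one_cons (x : α) (xs : List α) :
    top 1 (x :: xs) = (x :: xs).take (lowbit (xs.length + 1)) := by
  unfold top; simp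

theorem blocks_flatten : ∀ (n : ℕ) (L : List α), L.length ≤ n → (blocks L).flatten = L := by
  intro n
  induction n with
  | zero =>
    intro L hL
    have : L = [] := List.length_eq_zero_iff.1 (by omega)
    subst this; simp [blocks]
  | succ n ih =>
    intro L hL
    cases L with
    | nil => simp [blocks]
    | cons x xs =>
      rw [blocks_cons, List.flatten_cons, ih, top_one_cons, List.take_append_drop]
      have := lowbit_pos (xs.length + 1)
      simp only [List.length_drop, List.length_cons] at *
      omega

theorem mem_blocks_flatten {L : List α} {x : α} : (∃ C ∈ blocks L, x ∈ C) ↔ x ∈ L := by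
  rw [← List.mem_flatten, blocks_flatten L.length L le_rfl]

theorem blocks_length_aux (m : ℕ) : ∀ (n : ℕ) (L : List α) (k : ℕ), L.length ≤ n →
    2 ^ k ∣ L.length → L.length < 2 ^ m → k ≤ m → (blocks L).length + k ≤ m := by
  intro n
  induction n with
  | zero =>
    intro L k hL _ _ hkm
    have : L = [] := List.length_eq_zero_iff.1 (by omega)
    subst this; simpa [blocks] using hkm
  | succ n ih =>
    intro L k hL hk hm hkm
    cases L with
    | nil => simpa [blocks] using hkm
    | cons x xs =>
      rw [blocks_cons, List.length_cons]
      have hpos : 0 < (x :: xs).length := by simp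
      have hlen : (x :: xs).length = xs.length + 1 := rfl
      set v := padicValNat 2 (xs.length + 1) with hv
      have hlow : lowbit (xs.length + 1) = 2 ^ v := rfl
      have hkv : k ≤ v := by
        rw [hv]; exact (padicValNat_dvd_iff_le (by omega)).1 (by rw [← hlen]; exact hk)
      have hvm : v < m := by
        by_contra hcon
        push Not at hcon
        have h1 := lowbit_le (m := xs.length + 1) (by omega)
        have h2 : 2 ^ m ≤ lowbit (xs.length + 1) := by
          rw [hlow]; exact Nat.pow_le_pow_right (by norm_num) hcon
        omega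
      have hlp := lowbit_pos (xs.length + 1)
      have := ih ((x :: xs).drop (lowbit (xs.length + 1))) (v + 1)
        (by simp only [List.length_drop, List.length_cons] at *; omega)
        (by rw [List.length_drop, hlen]; exact dvd_sub_lowbit (by omega))
        (by rw [List.length_drop]; omega) (by omega)
      omega

theorem blocks_length_le {L : List α} {m : ℕ} (h : L.length < 2 ^ m) : (blocks L).length ≤ m := by
  have := blocks_length_aux m L.length L 0 le_rfl (by simp) h (Nat.zero_le _)
  omega

theorem created_suffix {L L' : List α} (h : L' <:+ L) : created L' <:+ created L := by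
  induction L with
  | nil =>
    have : L' = [] := List.eq_nil_of_suffix_nil h
    subst this; exact List.suffix_refl _
  | cons x xs ih =>
    rcases List.suffix_cons_iff.1 h with rfl | h'
    · exact List.suffix_refl _
    · exact (ih h').trans (by rw [created]; exact List.suffix_cons _ _)

theorem blocks_sublist_created : ∀ (n : ℕ) (L : List α), L.length ≤ n →
    (blocks L).Sublist (created L) := by
  intro n
  induction n with
  | zero =>
    intro L hL
    have : L = [] := List.length_eq_zero_iff.1 (by omega)
    subst this; simp [blocks]
  | succ n ih =>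
    intro L hL
    cases L with
    | nil => simp [blocks]
    | cons x xs =>
      rw [blocks_cons, created]
      apply List.Sublist.cons_cons
      have hlp := lowbit_pos (xs.length + 1)
      have h1 := ih ((x :: xs).drop (lowbit (xs.length + 1)))
        (by simp only [List.length_drop, List.length_cons] at *; omega)
      refine h1.trans (created_suffix ?_).sublist
      obtain ⟨j, hj⟩ : ∃ j, lowbit (xs.length + 1) = j + 1 := ⟨_, (Nat.succ_pred_eq_of_pos hlp).symm⟩
      rw [hj, List.drop_succ_cons]
      exact List.drop_suffix _ _

theorem created_total {L : List α} : ((created L).map List.length).sum ≤ lbsum L.length := by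
  induction L with
  | nil => simp [created, lbsum]
  | cons x xs ih =>
    rw [created, List.map_cons, List.sum_cons, List.length_cons, lbsum]
    have := top_length_le 1 (x :: xs)
    simp only [List.length_cons, Nat.div_one, one_mul] at this
    omega

end Pool.Agent.GWP
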