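import Pool.Agent.GWP.MainIneq
import Pool.Agent.GWP.Exist

/-!
Assembly: a random oracle does not change the Gray-Wyner profile.
-/

namespace Pool.Agent.GWP

open Prim MeasureTheory ENNReal

section basic
variable {D : Str → Str →. Str} {E : (ℕ → Bool) → Str → Str →. Str}

theorem exists_program (hD : IsOptimal D) (u v : Str) :
    ∃ p : Str, p.length = KS D u v ∧ u ∈ D p v := by
  have hne : {k : ℕ | ∃ p : Str, p.length = k ∧ u ∈ D p v}.Nonempty := by
    obtain ⟨c, hc⟩ := hD.2 (fun p _ => Part.some p) (by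
      have : Partrec fun z : Str × Str => Part.some z.1 := Computable.fst.partrec
      exact this)
    obtain ⟨p', _, hp'⟩ := hc u v u (Part.mem_some u)
    exact ⟨_, p', rfl, hp'⟩
  exact Nat.sInf_mem hne

theorem isOracleDec_of_partrec {M : Str → Str →. Str} (hM : Partrec₂ M) :
    IsOracleDec fun _ p v => M p v := by
  refine ⟨fun z => M z.2.1 z.2.2, ?_, ?_⟩
  · exact Partrec₂.comp hM (Computable.fst.comp Computable.snd) (Computable.snd.comp Computable.snd)
  · intro A p v u
    exact ⟨fun h => ⟨0, h⟩, fun ⟨_, h⟩ => h⟩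

theorem exists_program_oracle (hE : IsOracleOptimal E) (A : ℕ → Bool) (u v : Str) :
    ∃ p : Str, p.length = KS (E A) u v ∧ u ∈ E A p v := by
  have hne : {k : ℕ | ∃ p : Str, p.length = k ∧ u ∈ E A p v}.Nonempty := by
    obtain ⟨c, hc⟩ := hE.2 (fun _ p _ => Part.some p) (isOracleDec_of_partrec
      (M := fun p _ => Part.some p) (by
        have : Partrec fun z : Str × Str => Part.some z.1 := Computable.fst.partrec
        exact this))
    obtain ⟨p', _, hp'⟩ := hc A u v u (Part.mem_some u)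
    exact ⟨_, p', rfl, hp'⟩
  exact Nat.sInf_mem hne

/-- For every oracle the complexity given any condition is at most the unconditional one. -/
theorem KS_oracle_le (hD : IsOptimal D) (hE : IsOracleOptimal E) :
    ∃ c : ℕ, ∀ A u v, KS (E A) u v ≤ KS D u [] + c := by
  obtain ⟨c, hc⟩ := hE.2 (fun _ p _ => D p []) (isOracleDec_of_partrec (M := fun p _ => D p [])
    (Partrec₂.comp hD.1 Computable.fst (Computable.const [])))
  refine ⟨c, fun A u v => ?_⟩
  obtain ⟨p, hp, hu⟩ := exists_program hD u []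
  obtain ⟨p', hp', hu'⟩ := hc A p v u hu
  exact (KS_le hu').trans (by omega)

end basic

section pairing
variable {pair : Str → Str → Str}

/-- Decoding a component of a pair by search. -/
def unpairBy (pair : Str → Str → Str) (b : Bool) (z : Str) : Part Str :=
  Nat.rfindOpt fun i => (Encodable.decode (α := Str × Str) i).bind fun w =>
    bif decide (pair w.1 w.2 = z) then some (bif b then w.1 else w.2) else none

theorem unpairBy_partrec (hp : Computable₂ pair) (b : Bool) : Partrec (unpairBy pair b) := by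
  unfold unpairBy
  refine Partrec.rfindOpt ?_
  have h0 : Computable fun z : Str × ℕ => Encodable.decode (α := Str × Str) z.2 :=
    Computable.decode.comp Computable.snd
  refine Computable.option_bind h0 ?_
  have h1 : Computable fun z : (Str × ℕ) × (Str × Str) => pair z.2.1 z.2.2 :=
    hp.comp (Computable.fst.comp Computable.snd) (Computable.snd.comp Computable.snd)
  have h2 : Computable fun z : (Str × ℕ) × (Str × Str) => decide (pair z.2.1 z.2.2 = z.1.1) := by
    have h3 : Primrec fun z : Str × Str => decide (z.1 = z.2) := by fun_prop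
    exact h3.to_comp.comp (h1.pair (Computable.fst.comp Computable.fst))
  have h4 : Computable fun z : (Str × ℕ) × (Str × Str) => some (bif b then z.2.1 else z.2.2) := by
    have : Primrec fun z : (Str × ℕ) × (Str × Str) => some (bif b then z.2.1 else z.2.2) := by
      fun_prop
    exact this.to_comp
  exact Computable.cond h2 h4 (Computable.const none)

theorem mem_unpairBy (hinj : Function.Injective2 pair) (b : Bool) (x y : Str) :
    (bif b then x else y) ∈ unpairBy pair b (pair x y) := by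
  have hdom : (unpairBy pair b (pair x y)).Dom := by
    unfold unpairBy
    rw [Nat.rfindOpt_dom]
    refine ⟨Encodable.encode (x, y), bif b then x else y, ?_⟩
    rw [Encodable.encodek]
    simp
  obtain ⟨u, hu⟩ := Part.dom_iff_mem.1 hdom
  obtain ⟨i, hi⟩ := Nat.rfindOpt_spec hu
  rw [Option.mem_def, Option.bind_eq_some_iff] at hi
  obtain ⟨w, _, hw⟩ := hi
  by_cases h : pair w.1 w.2 = pair x y
  · obtain ⟨h1, h2⟩ := hinj h
    rw [decide_eq_true h, cond_true, h1, h2] at hw
    rw [Option.some.inj hw]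
    exact hu
  · rw [decide_eq_false h, cond_false] at hw
    exact absurd hw (by simp)

variable {D : Str → Str →. Str}

theorem KS_component (hD : IsOptimal D) (hp : Computable₂ pair) (hinj : Function.Injective2 pair)
    (b : Bool) : ∃ c : ℕ, ∀ x y, KS D (bif b then x else y) [] ≤ KS D (pair x y) [] + c := by
  obtain ⟨c, hc⟩ := hD.2 (fun p _ => (D p []).bind (unpairBy pair b)) (by
    have h1 : Partrec fun z : Str × Str => D z.1 [] :=
      Partrec₂.comp hD.1 Computable.fst (Computable.const [])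
    exact h1.bind ((unpairBy_partrec hp b).comp Computable.snd).to₂)
  refine ⟨c, fun x y => ?_⟩
  obtain ⟨p, hp, hu⟩ := exists_program hD (pair x y) []
  obtain ⟨p', hp', hu'⟩ := hc p [] _ (Part.mem_bind_iff.2 ⟨_, hu, mem_unpairBy hinj b x y⟩)
  exact (KS_le hu').trans (by omega)

theorem KS_component_cond (hD : IsOptimal D) (hp : Computable₂ pair)
    (hinj : Function.Injective2 pair) (b : Bool) :
    ∃ c : ℕ, ∀ x y, KS D (bif b then x else y) (pair x y) ≤ c := by
  obtain ⟨c, hc⟩ := hD.2 (fun _ v => unpairBy pair b v) (by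
    have h1 : Partrec fun z : Str × Str => unpairBy pair b z.2 :=
      (unpairBy_partrec hp b).comp Computable.snd
    exact h1)
  refine ⟨c, fun x y => ?_⟩
  obtain ⟨p', hp', hu'⟩ := hc [] (pair x y) _ (mem_unpairBy hinj b x y)
  exact (KS_le hu').trans (by simpa using hp')

end pairing

section final
variable {D : Str → Str →. Str} {E : (ℕ → Bool) → Str → Str →. Str} {pair : Str → Str → Str}

theorem size_mono {a b : ℕ} (h : a ≤ b) : Nat.size a ≤ Nat.size b := Nat.size_le_size h

/-- The combinatorial form: outside a set of oracles of measure at most `(m+1)^3 / (d+1)`, the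
profile relative to the oracle is in the neighbourhood of the profile. -/
theorem natural_form (hD : IsOptimal D) (hE : IsOracleOptimal E) (hp : Computable₂ pair)
    (hinj : Function.Injective2 pair) :
    ∃ c : ℕ, ∀ (n d : ℕ) (x y : Str), KS D (pair x y) [] ≤ n →
      coin {A | ¬ GW (KS (E A)) x y ⊆ shift (GW (KS D) x y)
        ((40 * Nat.size (4 * n + 3 * c + d + 10) + c : ℕ) : ℝ)} ≤
        ((n + c + 1) ^ 3 : ℕ) * (((d + 1 : ℕ) : ℝ≥0∞))⁻¹ := by
  classical
  obtain ⟨e, he⟩ := exists_sim hE.1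
  obtain ⟨U, hU⟩ := exists_names hD.1
  obtain ⟨C, hC⟩ := main_ineq hD he hU
  obtain ⟨cx, hcx⟩ := KS_component hD hp hinj true
  obtain ⟨cy, hcy⟩ := KS_component hD hp hinj false
  obtain ⟨dx, hdx⟩ := KS_component_cond hD hp hinj true
  obtain ⟨dy, hdy⟩ := KS_component_cond hD hp hinj false
  obtain ⟨ce, hce⟩ := KS_oracle_le hD hE
  simp only [cond_true, cond_false] at hcx hcy hdx hdy
  set c := C + cx + cy + dx + dy + ce with hc
  refine ⟨c, ?_⟩
  intro n d x y hxy
  have hKx : KS D x [] ≤ n + (cx + cy) := (hcx x y).trans (by omega)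
  have hKy : KS D y [] ≤ n + (cx + cy) := (hcy x y).trans (by omega)
  set δ := 40 * Nat.size (4 * n + 3 * c + d + 10) + c with hδ
  set m := n + c with hm
  set good : ℕ × ℕ × ℕ → Prop := fun t =>
    ∃ q' : Str, KS D q' [] ≤ t.2.2 + δ ∧ KS D x q' ≤ t.1 + δ ∧ KS D y q' ≤ t.2.1 + δ with hgood
  set T : Finset (ℕ × ℕ × ℕ) :=
    ((Finset.range (m + 1)) ×ˢ ((Finset.range (m + 1)) ×ˢ (Finset.range (m + 1)))).filter
      fun t => t.2.2 ≤ n ∧ ¬ good t with hT
  have hbad : ∀ t ∈ T, coin (Ev E t.1 t.2.1 t.2.2 x y) ≤ (((d + 1 : ℕ) : ℝ≥0∞))⁻¹ := by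
    intro t ht
    rw [hT, Finset.mem_filter, Finset.mem_product, Finset.mem_product, Finset.mem_range,
      Finset.mem_range, Finset.mem_range] at ht
    obtain ⟨⟨h1, h2, h3⟩, h4, h5⟩ := ht
    by_contra hcon
    push Not at hcon
    apply h5
    obtain ⟨px, hpx, hpx'⟩ := exists_program hD x []
    obtain ⟨py, hpy, hpy'⟩ := exists_program hD y []
    obtain ⟨q', hq1, hq2, hq3⟩ := hC (n + (cx + cy)) t.1 t.2.1 t.2.2 d x y
      ⟨px, by omega, hpx'⟩ ⟨py, by omega, hpy'⟩ hcon
    have hs : Nat.size (pM (n + (cx + cy), t.1, t.2.1, t.2.2, d)) ≤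
        Nat.size (4 * n + 3 * c + d + 10) := by
      apply size_mono
      unfold pM
      simp only
      omega
    refine ⟨q', ?_, ?_, ?_⟩
    · omega
    · omega
    · omega
  have hsub : {A | ¬ GW (KS (E A)) x y ⊆ shift (GW (KS D) x y) ((δ : ℕ) : ℝ)} ⊆
      ⋃ t ∈ T, Ev E t.1 t.2.1 t.2.2 x y := by
    intro A hA
    by_contra hcon
    apply hA
    rintro ⟨α, β, γ⟩ ⟨hα, hβ, hγ, q, hq1, hq2, hq3⟩
    simp only at hα hβ hγ hq1 hq2 hq3
    have hδ0 : (0 : ℝ) ≤ (δ : ℝ) := Nat.cast_nonneg _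
    refine ⟨hα, hβ, hγ, ?_⟩
    simp only
    refine ⟨by simp only; linarith, by simp only; linarith, by simp only; linarith, ?_⟩
    simp only
    by_cases hγn : (n : ℝ) ≤ γ
    · refine ⟨pair x y, ?_, ?_, ?_⟩
      · have : (KS D (pair x y) [] : ℝ) ≤ n := by exact_mod_cast hxy
        linarith
      · have : (KS D x (pair x y) : ℝ) ≤ (δ : ℕ) := by
          have := hdx x y
          exact_mod_cast this.trans (by omega)
        linarith
      · have : (KS D y (pair x y) : ℝ) ≤ (δ : ℕ) := by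
          have := hdy x y
          exact_mod_cast this.trans (by omega)
        linarith
    · push Not at hγn
      -- the integer point
      set a := min ⌊α⌋₊ m with ha
      set b := min ⌊β⌋₊ m with hb
      set g := ⌊γ⌋₊ with hg
      have hgn : g ≤ n := by
        have := Nat.floor_le hγ
        have h2 : (g : ℝ) < n := lt_of_le_of_lt this hγn
        exact_mod_cast h2.le
      have hka : KS (E A) x q ≤ a := by
        rw [ha, le_min_iff]
        refine ⟨Nat.le_floor hq2, ?_⟩
        have := hce A x q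
        omega
      have hkb : KS (E A) y q ≤ b := by
        rw [hb, le_min_iff]
        refine ⟨Nat.le_floor hq3, ?_⟩
        have := hce A y q
        omega
      have hkg : KS (E A) q [] ≤ g := Nat.le_floor hq1
      have hev : A ∈ Ev E a b g x y := by
        obtain ⟨p, hp1, hp2⟩ := exists_program_oracle hE A q []
        obtain ⟨r, hr1, hr2⟩ := exists_program_oracle hE A x q
        obtain ⟨r', hr1', hr2'⟩ := exists_program_oracle hE A y q
        exact ⟨p, q, r, r', ⟨by omega, hp2⟩, ⟨by omega, hr2⟩, ⟨by omega, hr2'⟩⟩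
      have hgoodt : good (a, b, g) := by
        by_contra hng
        apply hcon
        simp only [Set.mem_iUnion, exists_prop]
        refine ⟨(a, b, g), ?_, hev⟩
        rw [hT, Finset.mem_filter, Finset.mem_product, Finset.mem_product, Finset.mem_range,
          Finset.mem_range, Finset.mem_range]
        refine ⟨⟨?_, ?_, ?_⟩, hgn, hng⟩
        · exact Nat.lt_succ_of_le (min_le_right _ _)
        · exact Nat.lt_succ_of_le (min_le_right _ _)
        · simp only; omega
      obtain ⟨q', h1, h2, h3⟩ := hgoodt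
      simp only at h1 h2 h3
      have hfa : (a : ℝ) ≤ α := le_trans (by exact_mod_cast min_le_left _ _) (Nat.floor_le hα)
      have hfb : (b : ℝ) ≤ β := le_trans (by exact_mod_cast min_le_left _ _) (Nat.floor_le hβ)
      have hfg : (g : ℝ) ≤ γ := Nat.floor_le hγ
      refine ⟨q', ?_, ?_, ?_⟩
      · have : (KS D q' [] : ℝ) ≤ g + δ := by exact_mod_cast h1
        linarith
      · have : (KS D x q' : ℝ) ≤ a + δ := by exact_mod_cast h2
        linarith
      · have : (KS D y q' : ℝ) ≤ b + δ := by exact_mod_cast h3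
        linarith
  calc coin {A | ¬ GW (KS (E A)) x y ⊆ shift (GW (KS D) x y) ((δ : ℕ) : ℝ)}
      ≤ coin (⋃ t ∈ T, Ev E t.1 t.2.1 t.2.2 x y) := measure_mono hsub
    _ ≤ ∑ t ∈ T, coin (Ev E t.1 t.2.1 t.2.2 x y) := measure_biUnion_finset_le _ _
    _ ≤ ∑ t ∈ T, (((d + 1 : ℕ) : ℝ≥0∞))⁻¹ := Finset.sum_le_sum hbad
    _ = (T.card : ℝ≥0∞) * (((d + 1 : ℕ) : ℝ≥0∞))⁻¹ := by rw [Finset.sum_const, nsmul_eq_mul]
    _ ≤ (((m + 1) ^ 3 : ℕ) : ℝ≥0∞) * (((d + 1 : ℕ) : ℝ≥0∞))⁻¹ := by
        gcongr
        rw [hT]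
        refine (Finset.card_filter_le _ _).trans ?_
        rw [Finset.card_product, Finset.card_product, Finset.card_range]
        exact le_of_eq (by ring)

theorem GW_up {C : Str → Str → ℕ} {x y : Str} {δ δ' : ℝ} (h : δ ≤ δ') :
    shift (GW C x y) δ ⊆ shift (GW C x y) δ' := by
  rintro ⟨α, β, γ⟩ ⟨h1, h2, h3, h4, h5, h6, q, h7, h8, h9⟩
  simp only at h1 h2 h3 h4 h5 h6 h7 h8 h9
  refine ⟨h1, h2, h3, ?_⟩
  simp only
  exact ⟨by simp only; linarith, by simp only; linarith, by simp only; linarith, q,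
    by simp only; linarith, by simp only; linarith, by simp only; linarith⟩

theorem size_log {k : ℕ} (hk : 0 < k) : (Nat.size k : ℝ) * Real.log 2 ≤ Real.log 2 + Real.log k := by
  have h1 : ((2 : ℝ) ^ Nat.size k) ≤ 2 * k := by exact_mod_cast pow_size_le hk
  have h2 := Real.log_le_log (by positivity) h1
  rw [Real.log_pow, Real.log_mul (by norm_num) (by positivity)] at h2
  exact h2

/-- Quantitative form. -/
theorem quantitative (hD : IsOptimal D) (hE : IsOracleOptimal E) (hp : Computable₂ pair)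
    (hinj : Function.Injective2 pair) :
    ∃ c : ℝ, 0 ≤ c ∧ ∀ ε : ℝ, 0 < ε → ε ≤ 1 → ∀ n : ℕ, 2 ≤ n → ∀ x y : Str,
      KS D (pair x y) [] ≤ n →
      coin {A | ¬ GW (KS (E A)) x y ⊆ shift (GW (KS D) x y)
        (c * (Real.log n + Real.log (1 / ε)))} ≤ ENNReal.ofReal ε := by
  obtain ⟨c, hc⟩ := natural_form hD hE hp hinj
  set W : ℝ := (c + 2) ^ 3 + 3 * c + 20 with hW
  have hWpos : 1 ≤ W := by
    have : (0 : ℝ) ≤ c := Nat.cast_nonneg _
    have h2 : (0 : ℝ) ≤ ((c : ℝ) + 2) ^ 3 := by positivity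
    rw [hW]; linarith
  have hlog2 : 0 < Real.log 2 := Real.log_pos (by norm_num)
  set c' : ℝ := (40 * (1 + Real.log W / Real.log 2) + c) / Real.log 2 + 160 / Real.log 2 with hc'
  have hlogW : 0 ≤ Real.log W := Real.log_nonneg hWpos
  have hc'0 : 0 ≤ c' := by positivity
  refine ⟨c', hc'0, ?_⟩
  intro ε hε hε1 n hn x y hxy
  have hnR : (2 : ℝ) ≤ n := by exact_mod_cast hn
  set d := ⌈((n + c + 1 : ℕ) : ℝ) ^ 3 / ε⌉₊ with hd
  have hmain := hc n d x y hxy
  -- measure bound
  have h1 : (((n + c + 1) ^ 3 : ℕ) : ℝ≥0∞) * (((d + 1 : ℕ) : ℝ≥0∞))⁻¹ ≤ ENNReal.ofReal ε := by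
    have h2 : (((n + c + 1) ^ 3 : ℕ) : ℝ) ≤ ε * ((d + 1 : ℕ) : ℝ) := by
      have h3 : ((n + c + 1 : ℕ) : ℝ) ^ 3 / ε ≤ d := Nat.le_ceil _
      rw [div_le_iff₀ hε] at h3
      push_cast at h3 ⊢
      nlinarith
    rw [← div_eq_mul_inv]
    rw [ENNReal.div_le_iff (by simp) (by simp)]
    have h4 : ENNReal.ofReal ε * ((d + 1 : ℕ) : ℝ≥0∞) = ENNReal.ofReal (ε * ((d + 1 : ℕ) : ℝ)) := by
      rw [ENNReal.ofReal_mul hε.le, ENNReal.ofReal_natCast]
    rw [h4, ← ENNReal.ofReal_natCast]
    exact ENNReal.ofReal_le_ofReal h2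
  refine le_trans (measure_mono ?_) (hmain.trans h1)
  intro A hA hcon
  apply hA
  refine hcon.trans (GW_up ?_)
  -- the real inequality
  set k := 4 * n + 3 * c + d + 10 with hk
  have hkpos : 0 < k := by omega
  have hkle : (k : ℝ) ≤ W * n ^ 3 / ε := by
    have h3 : (d : ℝ) < ((n + c + 1 : ℕ) : ℝ) ^ 3 / ε + 1 := Nat.ceil_lt_add_one (by positivity)
    have hc0 : (0 : ℝ) ≤ c := Nat.cast_nonneg _
    have h4 : ((n + c + 1 : ℕ) : ℝ) ≤ (c + 2) * n := by push_cast; nlinarith
    have h5 : ((n + c + 1 : ℕ) : ℝ) ^ 3 ≤ (c + 2) ^ 3 * n ^ 3 := by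
      calc ((n + c + 1 : ℕ) : ℝ) ^ 3 ≤ ((c + 2) * n) ^ 3 := pow_le_pow_left₀ (by positivity) h4 3
        _ = _ := by ring
    have h6 : ((n + c + 1 : ℕ) : ℝ) ^ 3 / ε ≤ (c + 2) ^ 3 * n ^ 3 / ε :=
      div_le_div_of_nonneg_right h5 hε.le
    have hn3 : (n : ℝ) ≤ n ^ 3 := by nlinarith [sq_nonneg ((n : ℝ) - 1), mul_pos (by linarith : (0:ℝ) < n) (by linarith : (0 : ℝ) < n)]
    have hn3' : (1 : ℝ) ≤ n ^ 3 := by linarith
    have h7 : (n : ℝ) ^ 3 ≤ n ^ 3 / ε := by
      rw [le_div_iff₀ hε]; nlinarith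
    have h8 : (k : ℝ) = 4 * n + 3 * c + d + 10 := by rw [hk]; push_cast; ring
    have h9 : W * n ^ 3 / ε = (c + 2) ^ 3 * n ^ 3 / ε + (3 * c + 20) * (n ^ 3 / ε) := by
      rw [hW]; ring
    rw [h8, h9]
    have h10 : (4 * n + 3 * c + 11 : ℝ) ≤ (3 * c + 20) * (n ^ 3 / ε) := by
      have h11 : (3 * c + 20) * (n ^ 3 : ℝ) ≤ (3 * c + 20) * (n ^ 3 / ε) := by
        apply mul_le_mul_of_nonneg_left h7; positivity
      have h12 : (4 * n + 3 * c + 11 : ℝ) ≤ (3 * c + 20) * (n ^ 3 : ℝ) := by
        nlinarith [mul_nonneg hc0 (by linarith : (0 : ℝ) ≤ (n : ℝ) ^ 3 - 1)]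
      linarith
    linarith
  have hlogk : Real.log k ≤ Real.log W + 3 * Real.log n + Real.log (1 / ε) := by
    have h3 := Real.log_le_log (by exact_mod_cast hkpos) hkle
    have h4 : Real.log (W * n ^ 3 / ε) = Real.log W + 3 * Real.log n + Real.log (1 / ε) := by
      rw [mul_div_assoc, Real.log_mul (by linarith) (by positivity), div_eq_mul_one_div,
        Real.log_mul (by positivity) (by positivity), Real.log_pow]
      push_cast; ring
    rw [h4] at h3
    exact h3
  have hsz := size_log hkpos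
  have hlogn : Real.log 2 ≤ Real.log n := Real.log_le_log (by norm_num) hnR
  have hloge : 0 ≤ Real.log (1 / ε) := by
    apply Real.log_nonneg
    rw [le_div_iff₀ hε]; linarith
  have hs2 : (Nat.size k : ℝ) ≤ 1 + (Real.log W + 3 * Real.log n + Real.log (1 / ε)) / Real.log 2 := by
    have : (Nat.size k : ℝ) ≤ (Real.log 2 + Real.log k) / Real.log 2 := by
      rw [le_div_iff₀ hlog2]; exact hsz
    refine this.trans ?_
    rw [add_div, div_self hlog2.ne']
    gcongr
  push_cast
  set ℓ := Real.log n + Real.log (1 / ε) with hℓ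
  have hone : 1 ≤ ℓ / Real.log 2 := by
    rw [le_div_iff₀ hlog2]; linarith
  have hA1 : 40 * (1 + Real.log W / Real.log 2) + (c : ℝ) ≤
      ((40 * (1 + Real.log W / Real.log 2) + c) / Real.log 2) * ℓ := by
    have hnn : 0 ≤ 40 * (1 + Real.log W / Real.log 2) + (c : ℝ) := by positivity
    calc 40 * (1 + Real.log W / Real.log 2) + (c : ℝ)
        = (40 * (1 + Real.log W / Real.log 2) + (c : ℝ)) * 1 := by ring
      _ ≤ (40 * (1 + Real.log W / Real.log 2) + (c : ℝ)) * (ℓ / Real.log 2) :=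
          mul_le_mul_of_nonneg_left hone hnn
      _ = _ := by ring
  have hA2 : 40 * ((3 * Real.log n + Real.log (1 / ε)) / Real.log 2) ≤ 160 / Real.log 2 * ℓ := by
    have h3 : 3 * Real.log n + Real.log (1 / ε) ≤ 4 * ℓ := by rw [hℓ]; linarith
    calc 40 * ((3 * Real.log n + Real.log (1 / ε)) / Real.log 2)
        ≤ 40 * ((4 * ℓ) / Real.log 2) := by gcongr
      _ = _ := by ring
  calc 40 * (Nat.size k : ℝ) + c
      ≤ 40 * (1 + (Real.log W + 3 * Real.log n + Real.log (1 / ε)) / Real.log 2) + c := by gcongr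
    _ = (40 * (1 + Real.log W / Real.log 2) + c) +
        40 * ((3 * Real.log n + Real.log (1 / ε)) / Real.log 2) := by ring
    _ ≤ ((40 * (1 + Real.log W / Real.log 2) + c) / Real.log 2) * ℓ + 160 / Real.log 2 * ℓ :=
        add_le_add hA1 hA2
    _ = c' * ℓ := by rw [hc']; ring

end final

end Pool.Agent.GWP
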