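import Pool.Agent.GWP.Real

/-!
The computable strategy played against the histories of an oracle decompressor.
-/

namespace Pool.Agent.GWP

open Prim

/-- Parameters `(n, a, b, g, d)`. -/
abbrev Prm : Type := ℕ × ℕ × ℕ × ℕ × ℕ

/-- Tables `(K, T, L)`. -/
abbrev Tab : Type := ℕ × ℕ × List (List Snap × Resp)

/-- Number of names. -/
def pN (q : Prm) : ℕ := 2 ^ (q.1 + 1)
/-- Left cap. -/
def pA (q : Prm) : ℕ := 2 ^ (q.2.1 + 1)
/-- Right cap. -/
def pB (q : Prm) : ℕ := 2 ^ (q.2.2.1 + 1)
/-- Programs. -/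
def pP (q : Prm) : List Str := progs q.2.2.2.1
/-- Density parameter. -/
def pD (q : Prm) : ℕ := q.2.2.2.2 + 1
/-- Size parameter. -/
def pM (q : Prm) : ℕ := q.1 + q.2.1 + q.2.2.1 + q.2.2.2.1 + q.2.2.2.2 + 10
/-- Bound for the number of rectangles. -/
def pR (q : Prm) : ℕ := 2 ^ 20 * (pD q * (pP q).length) * (pM q) ^ 7

/-- The table is good. -/
def goodT (q : Prm) (t : Tab) : Bool :=
  (decide (0 < t.2.1) && decide (pD q * (t.2.1 + (allH (pN q) (pA q) (pB q)).length) ≤ t.1)) &&
    checkL (pN q) (pA q) (pB q) (t.1 * (pP q).length) t.2.1 (pR q) t.2.2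

theorem exists_goodT (q : Prm) : ∃ t : Tab, goodT q t = true := by
  obtain ⟨n, a, b, g, d⟩ := q
  have hG := progs_length g
  have hGpos : 0 < (progs g).length := by
    have : 2 ≤ 2 ^ (g + 1) := by
      calc 2 = 2 ^ 1 := by norm_num
        _ ≤ 2 ^ (g + 1) := Nat.pow_le_pow_right (by norm_num) (by omega)
    omega
  have hpow : ∀ i : ℕ, i + 1 < n + a + b + g + d + 10 → 2 ^ (i + 1) < 2 ^ (n + a + b + g + d + 10) :=
    fun i hi => Nat.pow_lt_pow_right (by norm_num) hi
  obtain ⟨K, T, hT, hK, L, hL⟩ := exists_table (n + a + b + g + d + 10) (d + 1) (progs g).length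
    (2 ^ (a + 1)) (2 ^ (b + 1)) (2 ^ (n + 1)) (by omega) (by omega) hGpos (by positivity)
    (by positivity) (by positivity) (hpow n (by omega)) (hpow a (by omega)) (hpow b (by omega)) (by
      have h1 : d + 1 ≤ 2 ^ d := Nat.lt_two_pow_self
      calc 8 * ((d + 1) * (progs g).length) < 8 * (2 ^ d * 2 ^ (g + 1)) := by
            apply Nat.mul_lt_mul_of_pos_left _ (by norm_num)
            calc (d + 1) * (progs g).length ≤ 2 ^ d * (progs g).length := Nat.mul_le_mul_right _ h1
              _ < 2 ^ d * 2 ^ (g + 1) := Nat.mul_lt_mul_of_pos_left (by omega) (by positivity)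
        _ = 2 ^ (3 + d + (g + 1)) := by rw [pow_add, pow_add]; norm_num; ring
        _ ≤ 2 ^ (n + a + b + g + d + 10) := Nat.pow_le_pow_right (by norm_num) (by omega))
  refine ⟨(K, T, L), ?_⟩
  unfold goodT
  rw [Bool.and_eq_true, Bool.and_eq_true, decide_eq_true_eq, decide_eq_true_eq]
  exact ⟨⟨hT, hK⟩, hL⟩

/-- The search for a good table. -/
def searchT (q : Prm) : Part Tab :=
  Nat.rfindOpt fun i => (Encodable.decode (α := Tab) i).bind fun t =>
    bif goodT q t then some t else none

theorem searchT_spec {q : Prm} {t : Tab} (h : t ∈ searchT q) : goodT q t = true := by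
  obtain ⟨i, hi⟩ := Nat.rfindOpt_spec h
  rw [Option.mem_def, Option.bind_eq_some_iff] at hi
  obtain ⟨t', _, ht'⟩ := hi
  cases hg : goodT q t' with
  | true =>
    rw [hg, cond_true] at ht'
    rw [← Option.some.inj ht']; exact hg
  | false => rw [hg, cond_false] at ht'; exact absurd ht' (by simp)

theorem searchT_dom (q : Prm) : ∃ t, t ∈ searchT q := by
  obtain ⟨t, ht⟩ := exists_goodT q
  have : (searchT q).Dom := by
    unfold searchT
    rw [Nat.rfindOpt_dom]
    refine ⟨Encodable.encode t, t, ?_⟩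
    rw [Encodable.encodek, Option.bind_some, ht]
    rfl
  exact ⟨_, Part.get_mem this⟩

section
variable {α : Type*} [Primcodable α]

@[fun_prop] theorem pN_prim {q : α → Prm} (hq : Primrec q) : Primrec fun x => pN (q x) := by
  unfold pN; fun_prop

@[fun_prop] theorem pA_prim {q : α → Prm} (hq : Primrec q) : Primrec fun x => pA (q x) := by
  unfold pA; fun_prop

@[fun_prop] theorem pB_prim {q : α → Prm} (hq : Primrec q) : Primrec fun x => pB (q x) := by
  unfold pB; fun_prop

@[fun_prop] theorem pP_prim {q : α → Prm} (hq : Primrec q) : Primrec fun x => pP (q x) := by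
  unfold pP; fun_prop

@[fun_prop] theorem pD_prim {q : α → Prm} (hq : Primrec q) : Primrec fun x => pD (q x) := by
  unfold pD; fun_prop

@[fun_prop] theorem pM_prim {q : α → Prm} (hq : Primrec q) : Primrec fun x => pM (q x) := by
  unfold pM; fun_prop

@[fun_prop] theorem pR_prim {q : α → Prm} (hq : Primrec q) : Primrec fun x => pR (q x) := by
  unfold pR; fun_prop

@[fun_prop] theorem goodT_prim {q : α → Prm} {t : α → Tab} (hq : Primrec q) (ht : Primrec t) :
    Primrec fun x => goodT (q x) (t x) := by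
  unfold goodT; fun_prop

end

theorem searchT_partrec : Partrec searchT := by
  unfold searchT
  have h1 : Primrec fun z : Prm × ℕ => (Encodable.decode (α := Tab) z.2).bind fun t =>
    bif goodT z.1 t then some t else none := by fun_prop
  exact Partrec.rfindOpt h1.to_comp.to₂

section
variable (e : Str → Str → Str → Option Str) (U : ℕ → ℕ → List Str)

/-- The chain of snapshots of the real play. -/
def chainAt (q : Prm) (t : Tab) (s : ℕ) : List Snap :=
  run (pN q) (pA q) (pB q) (Hst e U q.1 q.2.1 q.2.2.1) (pP q) t.1 s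

/-- The response at stage `s`. -/
def resp (q : Prm) (t : Tab) (s : ℕ) : Resp := (lk (chainAt e U q t s) t.2.2).getD []

variable {e U}

theorem resp_prim (he : Primrec fun z : Str × Str × Str => e z.1 z.2.1 z.2.2)
    (hU : Primrec fun z : ℕ × ℕ => U z.1 z.2) :
    Primrec fun z : Prm × Tab × ℕ => resp e U z.1 z.2.1 z.2.2 := by
  have h1 : Primrec fun z : Prm × Tab × ℕ => chainAt e U z.1 z.2.1 z.2.2 := by
    unfold chainAt
    apply run_prim (H := fun z : Prm × Tab × ℕ => Hst e U z.1.1 z.1.2.1 z.1.2.2.1)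
    · exact Hst_prim (α := (Prm × Tab × ℕ) × (List Bool × List Bool))
        (n := fun z => z.1.1.1) (a := fun z => z.1.1.2.1) (b := fun z => z.1.1.2.2.1)
        (σ := fun z => z.2.1) (p := fun z => z.2.2) he hU
        (by fun_prop) (by fun_prop) (by fun_prop) (by fun_prop) (by fun_prop)
    all_goals fun_prop
  unfold resp
  fun_prop

theorem goodT_iff {q : Prm} {t : Tab} : goodT q t = true ↔
    (0 < t.2.1 ∧ pD q * (t.2.1 + (allH (pN q) (pA q) (pB q)).length) ≤ t.1) ∧
    checkL (pN q) (pA q) (pB q) (t.1 * (pP q).length) t.2.1 (pR q) t.2.2 = true := by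
  unfold goodT
  rw [Bool.and_eq_true, Bool.and_eq_true, decide_eq_true_eq, decide_eq_true_eq]

theorem chainAt_chain (q : Prm) (t : Tab) (s : ℕ) :
    ChainB (pN q) (pA q) (pB q) (t.1 * (pP q).length) (chainAt e U q t s) :=
  (run_spec (fun b σ p => Hst_suffix _ _ _ b σ p) (fun p => Hst_nil _ _ _ p) s).1

theorem resp_spec {q : Prm} {t : Tab} (ht : goodT q t = true) (s : ℕ) :
    lk (chainAt e U q t s) t.2.2 = some (resp e U q t s) ∧
      okB (pA q) (pB q) (pR q) (resp e U q t s) = true ∧
      (chainAt e U q t s ≠ [] → covB (pN q) (pA q) (pB q) t.2.1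
        (curS (pN q) (pA q) (pB q) (t.1 * (pP q).length) (chainAt e U q t s))
        (resp e U q t s) = true) := by
  obtain ⟨_, hL⟩ := goodT_iff.1 ht
  obtain ⟨F, hF, hok, hcov⟩ := checkL_sound hL _ (chainAt_chain (e := e) (U := U) q t s)
  have : resp e U q t s = F := by unfold resp; rw [hF]; rfl
  rw [this]
  exact ⟨hF, hok, hcov⟩

theorem resp_mono_succ {q : Prm} {t : Tab} (ht : goodT q t = true) (s : ℕ) :
    ∀ z ∈ resp e U q t s, z ∈ resp e U q t (s + 1) := by
  obtain ⟨_, hL⟩ := goodT_iff.1 ht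
  obtain ⟨h1, _, _⟩ := resp_spec (e := e) (U := U) ht s
  obtain ⟨h2, _, _⟩ := resp_spec (e := e) (U := U) ht (s + 1)
  have hc := chainAt_chain (e := e) (U := U) q t (s + 1)
  have hstep : chainAt e U q t (s + 1) = chainAt e U q t s ∨
      ∃ v, chainAt e U q t (s + 1) = v :: chainAt e U q t s := by
    unfold chainAt
    conv in (run _ _ _ _ _ _ (s + 1)) => rw [run]
    conv in (run _ _ _ _ _ _ (s + 1)) => rw [run]
    cases (allH (pN q) (pA q) (pB q)).any (fun h =>
        decide (cOf (curS (pN q) (pA q) (pB q) (t.1 * (pP q).length)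
          (run (pN q) (pA q) (pB q) (Hst e U q.1 q.2.1 q.2.2.1) (pP q) t.1 s)) h <
        cOf (snapAt (pN q) (pA q) (pB q) (Hst e U q.1 q.2.1 q.2.2.1) (pP q) t.1 (s + 1)) h)) with
    | true => right; exact ⟨_, rfl⟩
    | false => left; rfl
  rcases hstep with h | ⟨v, h⟩
  · rw [h, h1] at h2
    rw [Option.some.inj h2]
    exact fun z hz => hz
  · rw [h] at h2 hc
    exact checkL_mono hL hc h1 h2

theorem resp_mono {q : Prm} {t : Tab} (ht : goodT q t = true) {s s' : ℕ} (h : s ≤ s') :
    ∀ z ∈ resp e U q t s, z ∈ resp e U q t s' := by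
  induction s' with
  | zero =>
    have : s = 0 := by omega
    subst this; exact fun z hz => hz
  | succ s' ih =>
    rcases Nat.lt_or_ge s (s' + 1) with h1 | h1
    · exact fun z hz => resp_mono_succ ht s' z (ih (by omega) z hz)
    · have : s = s' + 1 := by omega
      subst this; exact fun z hz => hz

theorem resp_left {q : Prm} {t : Tab} (ht : goodT q t = true) (s : ℕ) (R : Bool × ℕ × ℕ) (c : Bool) :
    ((resp e U q t s).countP fun w => decide (w.1 = R) && decide (w.2.1 = c)) ≤
      2 * (bif c then pA q else pB q) := by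
  obtain ⟨_, hok, _⟩ := resp_spec (e := e) (U := U) ht s
  unfold okB at hok
  rw [Bool.and_eq_true, List.all_eq_true] at hok
  by_cases hex : ∃ z ∈ resp e U q t s, z.1 = R
  · obtain ⟨z, hz, hR⟩ := hex
    have := hok.1 z hz
    rw [Bool.and_eq_true, decide_eq_true_eq, decide_eq_true_eq, hR] at this
    cases c with
    | true => exact this.1
    | false => exact this.2
  · push Not at hex
    have : (resp e U q t s).countP (fun w => decide (w.1 = R) && decide (w.2.1 = c)) = 0 := by
      rw [List.countP_eq_zero]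
      intro z hz
      simp [hex z hz]
    rw [this]; exact Nat.zero_le _

theorem resp_rects {q : Prm} {t : Tab} (ht : goodT q t = true) (s : ℕ) :
    (dd ((resp e U q t s).map Prod.fst)).length ≤ pR q := by
  obtain ⟨_, hok, _⟩ := resp_spec (e := e) (U := U) ht s
  unfold okB at hok
  rw [Bool.and_eq_true, decide_eq_true_eq] at hok
  exact hok.2

variable {E : (ℕ → Bool) → Str → Str →. Str} {D : Str → Str →. Str}

theorem resp_covers (hE : Sim E e) (hU : Names D U) {q : Prm} {t : Tab} (ht : goodT q t = true)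
    (s : ℕ) {i j : ℕ} (hi : i < pN q) (hj : j < pN q)
    (hm : 2 ^ s ≤ pD q * (HS (Hst e U q.1 q.2.1 q.2.2.1) (pP q) s).countP
      (fun h => decide ((true, i) ∈ h ∧ (false, j) ∈ h))) :
    ∃ R, (R, true, i) ∈ resp e U q t s ∧ (R, false, j) ∈ resp e U q t s := by
  obtain ⟨⟨hT, hK⟩, _⟩ := goodT_iff.1 ht
  have h1 := run_both (K := t.1) (Ps := pP q) (N := pN q) (A := pA q) (B := pB q)
    (fun b σ p => Hst_suffix (e := e) (U := U) q.1 q.2.1 q.2.2.1 b σ p)
    (fun p => Hst_nil _ _ _ p) (fun σ p => Hst_legal hE hU _ _ _ σ p) i j s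
  set m := (HS (Hst e U q.1 q.2.1 q.2.2.1) (pP q) s).countP
      (fun h => decide ((true, i) ∈ h ∧ (false, j) ∈ h)) with hmdef
  set bv := bothV (pN q) (pA q) (pB q) (curS (pN q) (pA q) (pB q) (t.1 * (pP q).length)
    (run (pN q) (pA q) (pB q) (Hst e U q.1 q.2.1 q.2.2.1) (pP q) t.1 s)) i j with hbv
  set H0 := (allH (pN q) (pA q) (pB q)).length with hH0
  have hbT : t.2.1 ≤ bv := by
    by_contra hcon
    push Not at hcon
    have hDpos : 0 < pD q := Nat.succ_pos _
    have hKpos : 0 < t.1 := lt_of_lt_of_le (Nat.mul_pos hDpos (by omega)) hK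
    have h2 : 2 ^ s * t.1 < 2 ^ s * t.1 := by
      calc 2 ^ s * t.1 ≤ (pD q * m) * t.1 := Nat.mul_le_mul_right _ hm
        _ = pD q * (t.1 * m) := by ring
        _ ≤ pD q * (2 ^ s * (bv + H0)) := Nat.mul_le_mul_left _ h1
        _ < pD q * (2 ^ s * (t.2.1 + H0)) := by
            apply Nat.mul_lt_mul_of_pos_left _ hDpos
            apply Nat.mul_lt_mul_of_pos_left _ (by positivity)
            omega
        _ = 2 ^ s * (pD q * (t.2.1 + H0)) := by ring
        _ ≤ 2 ^ s * t.1 := Nat.mul_le_mul_left _ hK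
    exact lt_irrefl _ h2
  have hne : chainAt e U q t s ≠ [] := by
    intro hnil
    have h3 : bv = 0 := by
      rw [hbv]
      unfold chainAt at hnil
      rw [hnil]
      unfold bothV
      rw [List.sum_eq_zero]
      intro z hz
      rw [List.mem_map] at hz
      obtain ⟨h, hh, rfl⟩ := hz
      rw [cOf_curS_nil]
      unfold initC
      rw [if_neg]
      rintro rfl
      rw [List.mem_filter] at hh
      have := hh.2
      rw [minB_eq, decide_eq_true_eq] at this
      exact absurd this.1.1 (by simp)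
    omega
  obtain ⟨_, _, hcov⟩ := resp_spec (e := e) (U := U) ht s
  have h4 := hcov hne
  unfold covB at h4
  rw [List.all_eq_true] at h4
  have h5 := h4 i (List.mem_range.2 hi)
  rw [List.all_eq_true] at h5
  have h6 := h5 j (List.mem_range.2 hj)
  rw [Bool.or_eq_true, decide_eq_true_eq] at h6
  rcases h6 with h6 | h6
  · exfalso
    have : bv = bothV (pN q) (pA q) (pB q) (curS (pN q) (pA q) (pB q) (t.1 * (pP q).length)
      (chainAt e U q t s)) i j := rfl
    omega
  · rw [List.any_eq_true] at h6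
    obtain ⟨z, hz, hz2⟩ := h6
    rw [Bool.and_eq_true, decide_eq_true_eq, memB_iff] at hz2
    refine ⟨z.1, ?_, hz2.2⟩
    rw [← hz2.1]
    exact hz

end

end Pool.Agent.GWP
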