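import Pool.Agent.GWP.Core2

/-!
The history game: particles are replaced by the numbers of particles having a given history.
-/

namespace Pool.Agent.GWP

/-- Histories: lists of facts, newest first; `(true, x)` puts `x` on the left side, `(false, y)`
puts `y` on the right side. -/
abbrev Hist : Type := List (Bool × ℕ)

/-- Legal histories. -/
def LegalH (N A B : ℕ) (h : Hist) : Prop :=
  (∀ e ∈ h, h.countP (fun e' => decide (e' = e)) ≤ 1) ∧ (∀ e ∈ h, e.2 < N) ∧
    h.countP (fun e => decide (e.1 = true)) ≤ A ∧ h.countP (fun e => decide (e.1 = false)) ≤ B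

instance (N A B : ℕ) (h : Hist) : Decidable (LegalH N A B h) := by
  unfold LegalH; infer_instance

/-- All facts. -/
def facts (N : ℕ) : List (Bool × ℕ) :=
  (List.range N).map (fun i => (true, i)) ++ (List.range N).map (fun i => (false, i))

/-- Lists of length at most `k` with entries from `E`. -/
def listsLE {α : Type} (E : List α) : ℕ → List (List α)
  | 0 => [[]]
  | k + 1 => [] :: (listsLE E k).flatMap fun h => E.map fun e => e :: h

/-- All legal histories. -/
def allH (N A B : ℕ) : List Hist :=
  (listsLE (facts N) (A + B)).filter fun h => decide (LegalH N A B h)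

theorem mem_facts {N : ℕ} {e : Bool × ℕ} : e ∈ facts N ↔ e.2 < N := by
  unfold facts
  rw [List.mem_append, List.mem_map, List.mem_map]
  obtain ⟨b, i⟩ := e
  cases b <;> simp

theorem facts_nodup (N : ℕ) : (facts N).Nodup := by
  unfold facts
  rw [List.nodup_append]
  refine ⟨List.nodup_range.map fun a b h => (Prod.ext_iff.1 h).2,
    List.nodup_range.map fun a b h => (Prod.ext_iff.1 h).2, ?_⟩
  intro a ha b hb hab
  rw [List.mem_map] at ha hb
  obtain ⟨i, _, rfl⟩ := ha
  obtain ⟨j, _, rfl⟩ := hb
  simp at hab

theorem mem_listsLE {α : Type} {E : List α} {k : ℕ} {h : List α} :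
    h ∈ listsLE E k ↔ h.length ≤ k ∧ ∀ e ∈ h, e ∈ E := by
  induction k generalizing h with
  | zero =>
    simp only [listsLE, List.mem_singleton, Nat.le_zero_eq, List.length_eq_zero_iff]
    constructor
    · rintro rfl; simp
    · exact fun h => h.1
  | succ k ih =>
    rw [listsLE, List.mem_cons, List.mem_flatMap]
    constructor
    · rintro (rfl | ⟨h', hh', hm⟩)
      · simp
      · rw [List.mem_map] at hm
        obtain ⟨e, he, rfl⟩ := hm
        obtain ⟨h1, h2⟩ := ih.1 hh'
        refine ⟨by simp; omega, ?_⟩
        intro e' he'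
        rcases List.mem_cons.1 he' with rfl | he'
        · exact he
        · exact h2 e' he'
    · rintro ⟨h1, h2⟩
      cases h with
      | nil => exact Or.inl rfl
      | cons e h =>
        right
        refine ⟨h, ih.2 ⟨by simp at h1; omega, fun e' he' => h2 e' (List.mem_cons_of_mem _ he')⟩, ?_⟩
        exact List.mem_map.2 ⟨e, h2 e List.mem_cons_self, rfl⟩

theorem listsLE_nodup {α : Type} {E : List α} (hE : E.Nodup) (k : ℕ) : (listsLE E k).Nodup := by
  induction k with
  | zero => simp [listsLE]
  | succ k ih =>
    rw [listsLE, List.nodup_cons]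
    constructor
    · rw [List.mem_flatMap]
      rintro ⟨h, _, hm⟩
      rw [List.mem_map] at hm
      obtain ⟨e, _, he⟩ := hm
      exact absurd he (by simp)
    · rw [List.nodup_flatMap]
      refine ⟨fun h _ => hE.map fun a b hab => (List.cons.inj hab).1, ?_⟩
      refine ih.imp ?_
      intro a b hab
      rw [Function.onFun, List.disjoint_left]
      intro c hc hc'
      rw [List.mem_map] at hc hc'
      obtain ⟨e, _, rfl⟩ := hc
      obtain ⟨e', _, he'⟩ := hc'
      exact hab (List.cons.inj he').2.symm

theorem LegalH.length_le {N A B : ℕ} {h : Hist} (hl : LegalH N A B h) : h.length ≤ A + B := by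
  have h1 := List.length_eq_countP_add_countP (l := h) (fun e => decide (e.1 = true))
  have h2 : h.countP (fun e => decide ¬ (decide (e.1 = true)) = true) =
      h.countP (fun e => decide (e.1 = false)) := by
    apply List.countP_congr
    intro e _
    cases e.1 <;> simp
  rw [h2] at h1
  have := hl.2.2.1
  have := hl.2.2.2
  omega

theorem mem_allH {N A B : ℕ} {h : Hist} : h ∈ allH N A B ↔ LegalH N A B h := by
  unfold allH
  rw [List.mem_filter, mem_listsLE]
  simp only [decide_eq_true_eq, mem_facts]
  exact ⟨fun h => h.2, fun h => ⟨⟨h.length_le, h.2.1⟩, h⟩⟩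

theorem allH_nodup (N A B : ℕ) : (allH N A B).Nodup :=
  (listsLE_nodup (facts_nodup N) _).filter _

theorem LegalH.nodup {N A B : ℕ} {h : Hist} (hl : LegalH N A B h) : h.Nodup := by
  rw [List.nodup_iff_count_le_one]
  intro a
  by_cases ha : a ∈ h
  · have := hl.1 a ha
    rw [List.count_eq_countP]
    refine le_trans (le_of_eq ?_) this
    apply List.countP_congr
    intro b _
    simp
  · rw [List.count_eq_zero_of_not_mem ha]
    exact Nat.zero_le _

theorem LegalH.mk' {N A B : ℕ} {h : Hist} (h1 : h.Nodup) (h2 : ∀ e ∈ h, e.2 < N)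
    (h3 : h.countP (fun e => decide (e.1 = true)) ≤ A)
    (h4 : h.countP (fun e => decide (e.1 = false)) ≤ B) : LegalH N A B h := by
  refine ⟨?_, h2, h3, h4⟩
  intro e _
  have := (List.nodup_iff_count_le_one.1 h1) e
  rw [List.count_eq_countP] at this
  refine le_trans (le_of_eq ?_) this
  apply List.countP_congr
  intro b _
  simp

/-- Flows on the tree of histories. -/
structure Flow (N A B M : ℕ) (c : Hist → ℕ) : Prop where
  root : c [] = M
  legal : ∀ h, c h ≠ 0 → LegalH N A B h
  flow : ∀ h, ((facts N).map fun e => c (e :: h)).sum ≤ c h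

/-- The initial flow. -/
def initC (M : ℕ) (h : Hist) : ℕ := if h = [] then M else 0

section
variable {M N : ℕ}

/-- The history of a particle in a play. -/
def hist (p : Fin M) (l : List (Fin M × Bool × Fin N)) : Hist :=
  l.filterMap fun f => if f.1 = p then some (f.2.1, (f.2.2 : ℕ)) else none

/-- The number of particles whose history extends `h`. -/
noncomputable def cntH (l : List (Fin M × Bool × Fin N)) (h : Hist) : ℕ :=
  (Finset.univ.filter fun p : Fin M => h <:+ hist p l).card

theorem hist_cons_self {p : Fin M} {b : Bool} {x : Fin N} {l : List (Fin M × Bool × Fin N)} :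
    hist p ((p, b, x) :: l) = (b, (x : ℕ)) :: hist p l := by
  unfold hist
  simp

theorem hist_cons_ne {p q : Fin M} (h : p ≠ q) {b : Bool} {x : Fin N}
    {l : List (Fin M × Bool × Fin N)} : hist q ((p, b, x) :: l) = hist q l := by
  unfold hist
  simp [h]

theorem mem_hist {p : Fin M} {b : Bool} {x : Fin N} {l : List (Fin M × Bool × Fin N)} :
    (b, (x : ℕ)) ∈ hist p l ↔ (p, b, x) ∈ l := by
  unfold hist
  rw [List.mem_filterMap]
  constructor
  · rintro ⟨⟨q, b', x'⟩, hf, he⟩
    split_ifs at he with hq
    · simp only [Option.some.injEq, Prod.mk.injEq] at he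
      obtain ⟨rfl, he2⟩ := he
      have : x' = x := Fin.ext he2
      subst this
      simp only at hq
      subst hq
      exact hf
  · intro h
    exact ⟨_, h, by simp⟩

theorem cntH_nil (h : Hist) : cntH ([] : List (Fin M × Bool × Fin N)) h = initC M h := by
  unfold cntH hist initC
  simp only [List.filterMap_nil, List.suffix_nil]
  split_ifs with hh
  · simp [hh]
  · simp [hh]

theorem suffix_cons_extend {h H : Hist} (hs : h <:+ H) (hne : h ≠ H) : ∃ e, e :: h <:+ H := by
  obtain ⟨t, rfl⟩ := hs
  rcases List.eq_nil_or_concat t with rfl | ⟨t', e, rfl⟩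
  · exact absurd rfl hne
  · exact ⟨e, t', by simp⟩

theorem hist_snd_lt {p : Fin M} {l : List (Fin M × Bool × Fin N)} :
    ∀ e ∈ hist p l, e.2 < N := by
  intro e he
  unfold hist at he
  rw [List.mem_filterMap] at he
  obtain ⟨⟨q, b', x'⟩, hf, he⟩ := he
  split_ifs at he
  · simp only [Option.some.injEq] at he
    rw [← he]
    exact x'.2

theorem countP_hist (q : Fin M) (b : Bool) (l : List (Fin M × Bool × Fin N))
    (inst : ∀ f : Fin M × Bool × Fin N, Decidable (f.1 = q ∧ f.2.1 = b)) :
    l.countP (fun f => @decide _ (inst f)) = (hist q l).countP (fun e => decide (e.1 = b)) := by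
  unfold hist
  rw [List.countP_filterMap]
  apply List.countP_congr
  intro f _
  by_cases hf : f.1 = q
  · simp [hf]
  · simp [hf]

/-- A play can be extended so as to realise a larger flow. -/
theorem extend_aux {A B : ℕ} {c : Hist → ℕ} (hc : Flow N A B M c) :
    ∀ (n : ℕ) (l : List (Fin M × Bool × Fin N)), Legal A B l → (∀ h, cntH l h ≤ c h) →
      ((allH N A B).map fun h => c h - cntH l h).sum ≤ n →
      ∃ l', l <:+ l' ∧ Legal A B l' ∧ ∀ h, cntH l' h = c h := by
  classical
  intro n
  induction n with
  | zero =>
    intro l hl hle hsum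
    refine ⟨l, List.suffix_refl _, hl, fun h => le_antisymm (hle h) ?_⟩
    by_cases h0 : c h = 0
    · rw [h0]; exact Nat.zero_le _
    · have h1 : h ∈ allH N A B := mem_allH.2 (hc.legal h h0)
      have h2 := List.single_le_sum (l := (allH N A B).map fun h => c h - cntH l h)
        (fun x _ => Nat.zero_le x) _ (List.mem_map.2 ⟨h, h1, rfl⟩)
      omega
  | succ n ih =>
    intro l hl hle hsum
    by_cases hall : ∀ h, cntH l h = c h
    · exact ⟨l, List.suffix_refl _, hl, hall⟩
    push Not at hall
    -- choose a deficient history of minimal length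
    have hex : ∃ k, ∃ h : Hist, h.length = k ∧ cntH l h < c h := by
      obtain ⟨h, hh⟩ := hall
      exact ⟨h.length, h, rfl, lt_of_le_of_ne (hle h) hh⟩
    obtain ⟨h, hlen, hlt⟩ := Nat.find_spec hex
    have hmin : ∀ h' : Hist, h'.length < h.length → cntH l h' = c h' := by
      intro h' hh'
      by_contra hcon
      exact Nat.find_min hex (m := h'.length) (by omega)
        ⟨h', rfl, lt_of_le_of_ne (hle h') hcon⟩
    have hlegal : LegalH N A B h := hc.legal h (by omega)
    cases h with
    | nil =>
      exfalso
      have h1 : cntH l [] = M := by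
        unfold cntH
        simp
      rw [h1, hc.root] at hlt
      exact lt_irrefl _ hlt
    | cons e h0 =>
      have hpar : cntH l h0 = c h0 := hmin h0 (by simp)
      have he : e.2 < N := hlegal.2.1 e List.mem_cons_self
      have heF : e ∈ facts N := mem_facts.2 he
      -- total of the children
      have hchild : ((facts N).map fun e' => cntH l (e' :: h0)).sum <
          ((facts N).map fun e' => c (e' :: h0)).sum := by
        apply List.sum_lt_sum
        · intro e' _
          exact hle _
        · exact ⟨e, heF, hlt⟩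
      have hchild2 : ((facts N).map fun e' => cntH l (e' :: h0)).sum < cntH l h0 := by
        rw [hpar]
        exact lt_of_lt_of_le hchild (hc.flow h0)
      -- a particle with exact history `h0`
      have hex2 : ∃ p : Fin M, hist p l = h0 := by
        by_contra hcon
        push Not at hcon
        have hsub : (Finset.univ.filter fun p : Fin M => h0 <:+ hist p l) ⊆
            (facts N).toFinset.biUnion fun e' =>
              Finset.univ.filter fun p : Fin M => e' :: h0 <:+ hist p l := by
          intro p hp
          rw [Finset.mem_filter] at hp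
          obtain ⟨e', he'⟩ := suffix_cons_extend hp.2 (fun h => hcon p h.symm)
          rw [Finset.mem_biUnion]
          refine ⟨e', ?_, ?_⟩
          · rw [List.mem_toFinset, mem_facts]
            exact hist_snd_lt e' (he'.subset List.mem_cons_self)
          · exact Finset.mem_filter.2 ⟨Finset.mem_univ _, he'⟩
        have h1 : cntH l h0 ≤ ∑ e' ∈ (facts N).toFinset, cntH l (e' :: h0) :=
          (Finset.card_le_card hsub).trans Finset.card_biUnion_le
        rw [List.sum_toFinset _ (facts_nodup N)] at h1
        omega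
      obtain ⟨p, hp⟩ := hex2
      set x : Fin N := ⟨e.2, he⟩ with hx
      set l' : List (Fin M × Bool × Fin N) := (p, e.1, x) :: l with hl'
      have hhist : hist p l' = e :: h0 := by
        rw [hl', hist_cons_self, hp]
      have hcnt : ∀ g, cntH l' g = cntH l g + if g = e :: h0 then 1 else 0 := by
        intro g
        by_cases hg : g = e :: h0
        · rw [if_pos hg]
          have : (Finset.univ.filter fun q : Fin M => g <:+ hist q l') =
              insert p (Finset.univ.filter fun q : Fin M => g <:+ hist q l) := by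
            ext q
            simp only [Finset.mem_filter, Finset.mem_univ, true_and, Finset.mem_insert]
            by_cases hq : q = p
            · subst hq
              rw [hhist, hg]
              simp
            · rw [hl', hist_cons_ne (Ne.symm hq)]
              simp [hq]
          unfold cntH
          rw [this, Finset.card_insert_of_notMem]
          rw [Finset.mem_filter]
          rintro ⟨_, h2⟩
          rw [hp, hg] at h2
          have := h2.length_le
          simp at this
        · rw [if_neg hg, add_zero]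
          unfold cntH
          congr 1
          ext q
          simp only [Finset.mem_filter, Finset.mem_univ, true_and]
          by_cases hq : q = p
          · subst hq
            rw [hhist, hp, List.suffix_cons_iff]
            constructor
            · rintro (h | h)
              · exact absurd h hg
              · exact h
            · exact Or.inr
          · rw [hl', hist_cons_ne (Ne.symm hq)]
      have hlegal' : Legal A B l' := by
        refine ⟨?_, ?_, ?_⟩
        · rw [hl', List.nodup_cons]
          refine ⟨?_, hl.nodup⟩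
          intro hmem
          have h1 := mem_hist.2 hmem
          rw [hp] at h1
          have h2 := hlegal.nodup
          rw [List.nodup_cons] at h2
          exact h2.1 h1
        · intro q
          refine (le_of_eq (countP_hist q true l' _)).trans ?_
          by_cases hq : q = p
          · subst hq
            rw [hhist]
            exact hlegal.2.2.1
          · rw [hl', hist_cons_ne (Ne.symm hq)]
            exact (ge_of_eq (countP_hist q true l _)).trans (hl.left q)
        · intro q
          refine (le_of_eq (countP_hist q false l' _)).trans ?_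
          by_cases hq : q = p
          · subst hq
            rw [hhist]
            exact hlegal.2.2.2
          · rw [hl', hist_cons_ne (Ne.symm hq)]
            exact (ge_of_eq (countP_hist q false l _)).trans (hl.right q)
      have hle' : ∀ g, cntH l' g ≤ c g := by
        intro g
        rw [hcnt g]
        split_ifs with hg
        · rw [hg]; omega
        · simpa using hle g
      have hsum' : ((allH N A B).map fun h => c h - cntH l' h).sum <
          ((allH N A B).map fun h => c h - cntH l h).sum := by
        apply List.sum_lt_sum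
        · intro g _
          rw [hcnt g]
          omega
        · refine ⟨e :: h0, mem_allH.2 hlegal, ?_⟩
          rw [hcnt, if_pos rfl]
          omega
      obtain ⟨l'', hs, hl2, hc2⟩ := ih l' hlegal' hle' (by omega)
      exact ⟨l'', (List.suffix_cons _ _).trans hs, hl2, hc2⟩

theorem extend {A B : ℕ} {c : Hist → ℕ} (hc : Flow N A B M c)
    (l : List (Fin M × Bool × Fin N)) (hl : Legal A B l) (hle : ∀ h, cntH l h ≤ c h) :
    ∃ l', l <:+ l' ∧ Legal A B l' ∧ ∀ h, cntH l' h = c h :=
  extend_aux hc _ l hl hle le_rfl

end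

/-- `h` is a minimal history containing `x` on the left and `y` on the right. -/
def IsMin (x y : ℕ) (h : Hist) : Prop :=
  ((true, x) ∈ h ∧ (false, y) ∈ h) ∧ ¬ ((true, x) ∈ h.tail ∧ (false, y) ∈ h.tail)

instance (x y : ℕ) (h : Hist) : Decidable (IsMin x y h) := by unfold IsMin; infer_instance

/-- Number of particles that contain both `x` and `y`, in terms of a flow. -/
def both (N A B : ℕ) (c : Hist → ℕ) (x y : ℕ) : ℕ :=
  (((allH N A B).filter fun h => decide (IsMin x y h)).map c).sum

theorem isMin_unique {x y : ℕ} {h h' H : Hist} (h1 : IsMin x y h) (h2 : IsMin x y h')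
    (hs : h <:+ H) (hs' : h' <:+ H) : h = h' := by
  have key : ∀ {g g' : Hist}, IsMin x y g → IsMin x y g' → g <:+ g' → g = g' := by
    intro g g' hg hg' hgg
    by_contra hne
    obtain ⟨e, he⟩ := suffix_cons_extend hgg hne
    apply hg'.2
    have h3 : g <:+ g'.tail := by
      obtain ⟨t, rfl⟩ := he
      cases t with
      | nil => simp
      | cons a t =>
        refine ⟨t ++ [e], ?_⟩
        simp
    exact ⟨h3.subset hg.1.1, h3.subset hg.1.2⟩
  rcases List.suffix_or_suffix_of_suffix hs hs' with h3 | h3
  · exact key h1 h2 h3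
  · exact (key h2 h1 h3).symm

theorem both_le {M N A B : ℕ} (l : List (Fin M × Bool × Fin N)) (x y : Fin N) :
    both N A B (cntH l) x y ≤ com x y l := by
  classical
  unfold both
  rw [← List.sum_toFinset _ ((allH_nodup N A B).filter _)]
  unfold cntH
  simp only [Finset.card_filter]
  rw [Finset.sum_comm]
  have hcom : com x y l = ∑ p : Fin M, if (p, true, x) ∈ l ∧ (p, false, y) ∈ l then 1 else 0 := by
    unfold com
    rw [Finset.card_filter]
    refine Finset.sum_congr rfl fun p _ => ?_
    split_ifs <;> rfl
  rw [hcom]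
  apply Finset.sum_le_sum
  intro p _
  rw [← Finset.card_filter]
  split_ifs with hp
  · rw [Finset.card_le_one]
    intro a ha b hb
    simp only [Finset.mem_filter, List.mem_toFinset, List.mem_filter, decide_eq_true_eq] at ha hb
    exact isMin_unique ha.1.2 hb.1.2 ha.2 hb.2
  · rw [Nat.le_zero, Finset.card_eq_zero, Finset.filter_eq_empty_iff]
    intro a ha hs
    simp only [List.mem_toFinset, List.mem_filter, decide_eq_true_eq] at ha
    apply hp
    exact ⟨mem_hist.1 (hs.subset ha.2.1.1), mem_hist.1 (hs.subset ha.2.1.2)⟩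

/-- The current flow of a sequence of flows (newest first). -/
def hd (M : ℕ) : List (Hist → ℕ) → Hist → ℕ
  | [] => initC M
  | c :: _ => c

/-- Valid sequences of flows. -/
def ValidC (N A B M : ℕ) : List (Hist → ℕ) → Prop
  | [] => True
  | c :: cs => Flow N A B M c ∧ (∀ h, hd M cs h ≤ c h) ∧ ValidC N A B M cs

open scoped Classical in
/-- The play realising a sequence of flows. -/
noncomputable def playOf (N A B M : ℕ) : List (Hist → ℕ) → List (Fin M × Bool × Fin N)
  | [] => []
  | c :: cs => if h : ∃ l', playOf N A B M cs <:+ l' ∧ Legal A B l' ∧ ∀ g, cntH l' g = c g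
      then h.choose else playOf N A B M cs

theorem playOf_suffix (N A B M : ℕ) (c : Hist → ℕ) (cs : List (Hist → ℕ)) :
    playOf N A B M cs <:+ playOf N A B M (c :: cs) := by
  conv_rhs => rw [playOf]
  split_ifs with h
  · exact h.choose_spec.1
  · exact List.suffix_refl _

theorem legal_nil {A B : ℕ} {P X : Type} : Legal A B ([] : List (P × Bool × X)) :=
  ⟨List.nodup_nil, fun _ => by simp, fun _ => by simp⟩

theorem playOf_spec {N A B M : ℕ} : ∀ cs : List (Hist → ℕ), ValidC N A B M cs →
    Legal A B (playOf N A B M cs) ∧ ∀ g, cntH (playOf N A B M cs) g = hd M cs g := by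
  intro cs
  induction cs with
  | nil =>
    intro _
    rw [playOf]
    exact ⟨legal_nil, fun g => cntH_nil g⟩
  | cons c cs ih =>
    intro hv
    obtain ⟨h1, h2, h3⟩ := hv
    obtain ⟨h4, h5⟩ := ih h3
    have hex : ∃ l', playOf N A B M cs <:+ l' ∧ Legal A B l' ∧ ∀ g, cntH l' g = c g :=
      extend h1 _ h4 (fun g => by rw [h5]; exact h2 g)
    rw [playOf, dif_pos hex]
    exact hex.choose_spec.2

/-- The history game is won by the player. -/
theorem hist_core (M D G A B NX : ℕ) (hM : 1 ≤ M) (hD : 0 < D) (hG : 0 < G) (hA : 0 < A)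
    (hB : 0 < B) (hX : 0 < NX) (h1 : NX < 2 ^ M) (h2 : A < 2 ^ M) (h3 : B < 2 ^ M)
    (h4 : 8 * (D * G) < 2 ^ M) :
    ∃ K T : ℕ, 0 < T ∧ D * (T + (allH NX A B).length) ≤ K ∧
      ∃ S : List (Hist → ℕ) → Finset ((Bool × ℕ × ℕ) × Bool × ℕ),
        (∀ c cs, S cs ⊆ S (c :: cs)) ∧
        ∀ cs, ValidC NX A B (K * G) cs →
          (∀ R (t : Finset ℕ), (∀ x ∈ t, (R, true, x) ∈ S cs) → t.card ≤ 2 * A) ∧
          (∀ R (t : Finset ℕ), (∀ y ∈ t, (R, false, y) ∈ S cs) → t.card ≤ 2 * B) ∧
          (∀ t : Finset (Bool × ℕ × ℕ), (∀ R ∈ t, ∃ b z, (R, b, z) ∈ S cs) →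
            t.card ≤ 2 ^ 20 * (D * G) * M ^ 7) ∧
          (∀ x < NX, ∀ y < NX, T ≤ both NX A B (hd (K * G) cs) x y →
            ∃ R, (R, true, x) ∈ S cs ∧ (R, false, y) ∈ S cs) := by
  classical
  obtain ⟨K, T, hT, hKT, S₀, hm, hS⟩ := core M D G A B NX (allH NX A B).length hM hD hG hA hB hX
    h1 h2 h3 h4
  set S : List (Hist → ℕ) → Finset ((Bool × ℕ × ℕ) × Bool × ℕ) := fun cs =>
    (S₀ (playOf NX A B (K * G) cs)).image fun z => (z.1, z.2.1, (z.2.2 : ℕ)) with hSdef
  have hmem : ∀ cs R b (x : ℕ), (R, b, x) ∈ S cs ↔
      ∃ hx : x < NX, (R, b, (⟨x, hx⟩ : Fin NX)) ∈ S₀ (playOf NX A B (K * G) cs) := by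
    intro cs R b x
    rw [hSdef]
    simp only [Finset.mem_image]
    constructor
    · rintro ⟨⟨R', b', x'⟩, hz, he⟩
      simp only [Prod.mk.injEq] at he
      obtain ⟨rfl, rfl, rfl⟩ := he
      exact ⟨x'.2, hz⟩
    · rintro ⟨hx, hz⟩
      exact ⟨_, hz, rfl⟩
  have hmono : ∀ l l' : List (Fin (K * G) × Bool × Fin NX), l <:+ l' → S₀ l ⊆ S₀ l' := by
    intro l l' hs
    obtain ⟨t, rfl⟩ := hs
    induction t with
    | nil => exact subset_rfl
    | cons f t ih => exact ih.trans (hm f (t ++ l))
  have hcaps : ∀ (cs : List (Hist → ℕ)) (R : Bool × ℕ × ℕ) (b : Bool) (t : Finset ℕ),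
      (∀ x ∈ t, (R, b, x) ∈ S cs) → ∃ t' : Finset (Fin NX), t'.card = t.card ∧
        ∀ x ∈ t', (R, b, x) ∈ S₀ (playOf NX A B (K * G) cs) := by
    intro cs R b t ht
    have hlt : ∀ x ∈ t, x < NX := fun x hx => ((hmem cs R b x).1 (ht x hx)).1
    refine ⟨t.attach.image fun x => ⟨x.1, hlt x.1 x.2⟩, ?_, ?_⟩
    · rw [Finset.card_image_of_injective, Finset.card_attach]
      intro a b hab
      exact Subtype.ext (Fin.mk.inj hab)
    · intro x hx
      rw [Finset.mem_image] at hx
      obtain ⟨z, _, rfl⟩ := hx
      obtain ⟨_, h⟩ := (hmem cs R b z.1).1 (ht z.1 z.2)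
      exact h
  refine ⟨K, T, hT, hKT, S, ?_, ?_⟩
  · intro c cs
    apply Finset.image_subset_image
    exact hmono _ _ (playOf_suffix _ _ _ _ _ _)
  intro cs hv
  obtain ⟨hleg, hcnt⟩ := playOf_spec cs hv
  obtain ⟨c1, c2, c3, c4⟩ := hS _ hleg
  refine ⟨?_, ?_, ?_, ?_⟩
  · intro R t ht
    obtain ⟨t', ht', h'⟩ := hcaps cs R true t ht
    rw [← ht']
    exact c1 R t' h'
  · intro R t ht
    obtain ⟨t', ht', h'⟩ := hcaps cs R false t ht
    rw [← ht']
    exact c2 R t' h'
  · intro t ht
    apply c3 t
    intro R hR
    obtain ⟨b, z, hz⟩ := ht R hR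
    obtain ⟨hx, hz'⟩ := (hmem cs R b z).1 hz
    exact ⟨b, _, hz'⟩
  · intro x hx y hy hT'
    have h5 : both NX A B (hd (K * G) cs) x y ≤ com (⟨x, hx⟩ : Fin NX) (⟨y, hy⟩ : Fin NX)
        (playOf NX A B (K * G) cs) := by
      refine le_trans (le_of_eq ?_) (both_le (A := A) (B := B) _ _ _)
      unfold both
      congr 1
      apply List.map_congr_left
      intro h _
      exact (hcnt h).symm
    obtain ⟨R, hR1, hR2⟩ := c4 _ _ (hT'.trans h5)
    exact ⟨R, (hmem _ _ _ _).2 ⟨hx, hR1⟩, (hmem _ _ _ _).2 ⟨hy, hR2⟩⟩

end Pool.Agent.GWP
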