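import Pool.Agent.GWP.Cert
import Pool.Agent.GWP.CertPrim
import Pool.Agent.GWP.Defs

/-!
Generic upper bounds for Kolmogorov complexity.
-/

namespace Pool.Agent.GWP

open Prim

theorem KS_le {D : Str → Str →. Str} {u v p : Str} (h : u ∈ D p v) : KS D u v ≤ p.length :=
  Nat.sInf_le ⟨p, rfl, h⟩

/-- The value of a binary string, least significant bit first. -/
def val (p : Str) : ℕ := p.foldr (fun b acc => 2 * acc + bif b then 1 else 0) 0

theorem exists_val : ∀ (k i : ℕ), i < 2 ^ k → ∃ p : Str, p.length = k ∧ val p = i := by
  intro k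
  induction k with
  | zero => intro i hi; exact ⟨[], rfl, by unfold val; simp at hi ⊢; omega⟩
  | succ k ih =>
    intro i hi
    obtain ⟨p, hp, hv⟩ := ih (i / 2) (by rw [pow_succ] at hi; omega)
    refine ⟨decide (i % 2 = 1) :: p, by simp [hp], ?_⟩
    have : val (decide (i % 2 = 1) :: p) = 2 * val p + bif decide (i % 2 = 1) then 1 else 0 := rfl
    rw [this, hv]
    by_cases h : i % 2 = 1
    · simp only [h, decide_true, cond_true]; omega
    · simp only [h, decide_false, cond_false]; omega

@[fun_prop] theorem val_prim {α : Type*} [Primcodable α] {p : α → Str} (hp : Primrec p) :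
    Primrec fun x => val (p x) := by
  unfold val; fun_prop

section
variable {α : Type} [Primcodable α]

/-- Add the elements of `l` at the end of `acc`. -/
def addTo {β : Type} [DecidableEq β] (acc l : List β) : List β :=
  l.foldl (fun acc x => bif memB x acc then acc else acc ++ [x]) acc

/-- The elements of `S 0, …, S (s-1)` in order of appearance. -/
def cum {β : Type} [DecidableEq β] (S : ℕ → List β) : ℕ → List β
  | 0 => []
  | s + 1 => addTo (cum S s) (S s)

theorem addTo_cons {β : Type} [DecidableEq β] (acc : List β) (x : β) (l : List β) :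
    addTo acc (x :: l) = addTo (bif memB x acc then acc else acc ++ [x]) l := rfl

theorem addTo_prefix {β : Type} [DecidableEq β] (acc l : List β) : acc <+: addTo acc l := by
  induction l generalizing acc with
  | nil => exact List.prefix_refl _
  | cons x l ih =>
    rw [addTo_cons]
    refine List.IsPrefix.trans ?_ (ih _)
    cases memB x acc
    · exact List.prefix_append _ _
    · exact List.prefix_refl _

theorem mem_addTo {β : Type} [DecidableEq β] {acc l : List β} {y : β} :
    y ∈ addTo acc l ↔ y ∈ acc ∨ y ∈ l := by
  induction l generalizing acc with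
  | nil => simp [addTo]
  | cons x l ih =>
    rw [addTo_cons, ih]
    cases h : memB x acc with
    | true =>
      rw [cond_true, List.mem_cons]
      constructor
      · rintro (h1 | h1)
        · exact Or.inl h1
        · exact Or.inr (Or.inr h1)
      · rintro (h1 | rfl | h1)
        · exact Or.inl h1
        · exact Or.inl (memB_iff.1 h)
        · exact Or.inr h1
    | false =>
      simp only [cond_false, List.mem_append, List.mem_cons, List.not_mem_nil, or_false]
      tauto

theorem addTo_nodup {β : Type} [DecidableEq β] {acc l : List β} (h : acc.Nodup) :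
    (addTo acc l).Nodup := by
  induction l generalizing acc with
  | nil => exact h
  | cons x l ih =>
    rw [addTo_cons]
    apply ih
    cases hm : memB x acc with
    | true => exact h
    | false =>
      rw [cond_false, List.nodup_append]
      refine ⟨h, by simp, ?_⟩
      intro a ha b hb hab
      rw [List.mem_singleton] at hb
      subst hb; subst hab
      rw [← Bool.not_eq_true, memB_iff] at hm
      exact hm ha

theorem cum_nodup {β : Type} [DecidableEq β] (S : ℕ → List β) (s : ℕ) : (cum S s).Nodup := by
  induction s with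
  | zero => exact List.nodup_nil
  | succ s ih => exact addTo_nodup ih

theorem cum_mono {β : Type} [DecidableEq β] (S : ℕ → List β) {s s' : ℕ} (h : s ≤ s') :
    cum S s <+: cum S s' := by
  induction s' with
  | zero =>
    have : s = 0 := by omega
    subst this; exact List.prefix_refl _
  | succ s' ih =>
    rcases Nat.lt_or_ge s (s' + 1) with h1 | h1
    · exact (ih (by omega)).trans (addTo_prefix _ _)
    · have : s = s' + 1 := by omega
      subst this; exact List.prefix_refl _

theorem mem_cum {β : Type} [DecidableEq β] {S : ℕ → List β} {s : ℕ} {y : β} :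
    y ∈ cum S s ↔ ∃ s' < s, y ∈ S s' := by
  induction s with
  | zero => simp [cum]
  | succ s ih =>
    rw [cum, mem_addTo, ih]
    constructor
    · rintro (⟨s', h1, h2⟩ | h)
      · exact ⟨s', by omega, h2⟩
      · exact ⟨s, by omega, h⟩
    · rintro ⟨s', h1, h2⟩
      rcases Nat.lt_or_ge s' s with h3 | h3
      · exact Or.inl ⟨s', h3, h2⟩
      · have : s' = s := by omega
        subst this; exact Or.inr h2

@[fun_prop] theorem addTo_prim {γ : Type*} [Primcodable γ] {β : Type} [DecidableEq β]
    [Primcodable β] {f g : γ → List β}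
    (hf : Primrec f) (hg : Primrec g) : Primrec fun x => addTo (f x) (g x) := by
  unfold addTo; fun_prop

theorem cum_prim {β : Type} [DecidableEq β] [Primcodable β] {S : α → ℕ → List β}
    (hS : Primrec fun z : α × ℕ => S z.1 z.2) : Primrec fun z : α × ℕ => cum (S z.1) z.2 := by
  have key : ∀ S' : α × ℕ → List β, Primrec S' →
      Primrec fun z : (α × ℕ) × (ℕ × List β) => addTo z.2.2 (S' (z.1.1, z.2.1)) := by
    intro S' hS'
    fun_prop
  have h1 := natRec' (α := α × ℕ) (β := List β) (f := fun z => z.2) (g := fun _ => [])
    (h := fun x k ih => addTo ih (S x.1 k)) (by fun_prop) (by fun_prop)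
    (key (fun z => S z.1 z.2) hS)
  refine h1.of_eq fun x => ?_
  obtain ⟨x, k⟩ := x
  simp only
  induction k with
  | zero => rfl
  | succ k ih => simp only [cum]; rw [← ih]

/-- If the condition `v` computes a name `a` of an enumeration of at most `2 ^ k` strings, then
each of these strings has complexity at most `k + c` given `v`. -/
theorem KS_enum {D : Str → Str →. Str} (hD : IsOptimal D) (F : Str →. α) (hF : Partrec F)
    (S : α → ℕ → List Str) (hS : Primrec fun z : α × ℕ => S z.1 z.2) :
    ∃ c : ℕ, ∀ (v : Str) (a : α), a ∈ F v → ∀ k : ℕ,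
      (∀ t : Finset Str, (∀ u ∈ t, ∃ s, u ∈ S a s) → t.card ≤ 2 ^ k) →
      ∀ u s, u ∈ S a s → ∃ p : Str, p.length ≤ k + c ∧ u ∈ D p v := by
  classical
  set M : Str → Str →. Str := fun p v => (F v).bind fun a =>
    Nat.rfindOpt fun s => (cum (S a) s)[val p]? with hM
  have hMp : Partrec₂ M := by
    have h1 : Primrec fun z : ((Str × Str) × α) × ℕ => (cum (S z.1.2) z.2)[val z.1.1.1]? := by
      have h2 : Primrec fun z : ((Str × Str) × α) × ℕ => cum (S z.1.2) z.2 :=
        (cum_prim hS).comp (g := fun z : ((Str × Str) × α) × ℕ => (z.1.2, z.2)) (by fun_prop)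
      fun_prop
    have h3 : Partrec fun z : (Str × Str) × α =>
        Nat.rfindOpt fun s => (cum (S z.2) s)[val z.1.1]? := Partrec.rfindOpt h1.to_comp.to₂
    exact Partrec.bind (hF.comp Computable.snd) h3.to₂
  obtain ⟨c, hc⟩ := hD.2 M hMp
  refine ⟨c, ?_⟩
  intro v a ha k hcard u s hu
  have hmem : u ∈ cum (S a) (s + 1) := mem_cum.2 ⟨s, Nat.lt_succ_self s, hu⟩
  obtain ⟨i, hi, hiu⟩ := List.getElem_of_mem hmem
  have hlen : (cum (S a) (s + 1)).length ≤ 2 ^ k := by
    have := hcard (cum (S a) (s + 1)).toFinset (by
      intro u' hu'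
      rw [List.mem_toFinset, mem_cum] at hu'
      obtain ⟨s', _, h⟩ := hu'
      exact ⟨s', h⟩)
    rwa [List.toFinset_card_of_nodup (cum_nodup _ _)] at this
  obtain ⟨p, hp, hv⟩ := exists_val k i (lt_of_lt_of_le hi hlen)
  have hMu : u ∈ M p v := by
    rw [hM]
    simp only [Part.mem_bind_iff]
    refine ⟨a, ha, ?_⟩
    rw [Nat.rfindOpt_mono]
    · refine ⟨s + 1, ?_⟩
      rw [hv, Option.mem_def, List.getElem?_eq_getElem hi, hiu]
    · intro b m n hmn hb
      rw [Option.mem_def] at hb ⊢
      obtain ⟨t, ht⟩ := cum_mono (S a) hmn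
      obtain ⟨h1, h2⟩ := List.getElem?_eq_some_iff.1 hb
      rw [← ht, List.getElem?_append_left h1]
      exact hb
  obtain ⟨p', hp', hu'⟩ := hc p v u hMu
  exact ⟨p', by omega, hu'⟩

/-- The number of leading `true`s. -/
def lead (p : Str) : ℕ := p.foldr (fun b acc => bif b then acc + 1 else 0) 0

@[fun_prop] theorem lead_prim {γ : Type*} [Primcodable γ] {p : γ → Str} (hp : Primrec p) :
    Primrec fun x => lead (p x) := by
  unfold lead; fun_prop

theorem lead_replicate (k : ℕ) (p : Str) : lead (List.replicate k true ++ false :: p) = k := by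
  induction k with
  | zero => rfl
  | succ k ih =>
    have : lead (List.replicate (k + 1) true ++ false :: p) =
        lead (List.replicate k true ++ false :: p) + 1 := rfl
    rw [this, ih]

/-- Dropping a numerical condition `m < 2 ^ k` costs at most `2 * k + c` bits. -/
theorem KS_drop {D : Str → Str →. Str} (hD : IsOptimal D) (C : ℕ → Str) (hC : Primrec C) :
    ∃ c : ℕ, ∀ (m k : ℕ), m < 2 ^ k → ∀ p u, u ∈ D p (C m) →
      KS D u [] ≤ p.length + 2 * k + c := by
  set M : Str → Str →. Str := fun p _ =>
    D ((p.drop (lead p + 1)).drop (lead p)) (C (val ((p.drop (lead p + 1)).take (lead p)))) with hM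
  have hMp : Partrec₂ M := by
    have h1 : Primrec fun z : Str × Str => (z.1.drop (lead z.1 + 1)).drop (lead z.1) := by fun_prop
    have h2 : Primrec fun z : Str × Str =>
        C (val ((z.1.drop (lead z.1 + 1)).take (lead z.1))) := by fun_prop
    have h3 : Partrec fun z : Str × Str => D ((z.1.drop (lead z.1 + 1)).drop (lead z.1))
        (C (val ((z.1.drop (lead z.1 + 1)).take (lead z.1)))) :=
      Partrec₂.comp hD.1 h1.to_comp h2.to_comp
    exact h3
  obtain ⟨c, hc⟩ := hD.2 M hMp
  refine ⟨c + 1, ?_⟩
  intro m k hm p u hu
  obtain ⟨w, hw, hv⟩ := exists_val k m hm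
  have hMu : u ∈ M (List.replicate k true ++ false :: (w ++ p)) [] := by
    rw [hM]
    simp only
    have hl : lead (List.replicate k true ++ false :: (w ++ p)) = k := lead_replicate k _
    have hd : (List.replicate k true ++ false :: (w ++ p)).drop (k + 1) = w ++ p := by
      rw [List.drop_append]
      simp
    rw [hl, hd]
    rw [List.drop_append_of_le_length (by omega), List.take_append_of_le_length (by omega)]
    rw [← hw, List.drop_length, List.take_length, hv]
    exact hu
  obtain ⟨p', hp', hu'⟩ := hc _ _ _ hMu
  refine (KS_le hu').trans ?_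
  simp only [List.length_append, List.length_replicate, List.length_cons] at hp'
  omega

end

end Pool.Agent.GWP
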