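import Pool.Agent.GWP.Game
import Pool.Agent.GWP.CoinMeasure
import Pool.Agent.GWP.Kolm

/-!
The main inequality: a triple which is achieved relative to a non-negligible set of oracles is
almost achieved without oracles.
-/

namespace Pool.Agent.GWP

open Prim MeasureTheory ENNReal

/-- Unary strings. -/
def un (m : ℕ) : Str := (List.range m).map fun _ => true

@[simp] theorem un_length (m : ℕ) : (un m).length = m := by unfold un; simp

@[fun_prop] theorem un_prim {α : Type*} [Primcodable α] {m : α → ℕ} (hm : Primrec m) :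
    Primrec fun x => un (m x) := by
  unfold un; fun_prop

/-- Rectangles. -/
abbrev Rect : Type := Bool × ℕ × ℕ

/-- The string describing a rectangle. -/
def cd (z : Prm × Rect) : Str := un (Encodable.encode z)

/-- Decoding of the parameters. -/
def F1 (v : Str) : Part (Prm × Tab) :=
  (Part.ofOption (Encodable.decode (α := Prm) v.length)).bind fun q =>
    (searchT q).map fun t => (q, t)

/-- Decoding of the parameters and the rectangle. -/
def F2 (v : Str) : Part (Prm × Tab × Rect) :=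
  (Part.ofOption (Encodable.decode (α := Prm × Rect) v.length)).bind fun z =>
    (searchT z.1).map fun t => (z.1, t, z.2)

theorem F1_partrec : Partrec F1 := by
  unfold F1
  have h1 : Primrec fun v : Str => Encodable.decode (α := Prm) v.length := by fun_prop
  refine Partrec.bind h1.to_comp.ofOption ?_
  have h2 : Partrec fun z : Str × Prm => searchT z.2 := searchT_partrec.comp Computable.snd
  have h3 : Primrec fun z : (Str × Prm) × Tab => (z.1.2, z.2) := by fun_prop
  exact (Partrec.map h2 h3.to_comp.to₂).to₂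

theorem F2_partrec : Partrec F2 := by
  unfold F2
  have h1 : Primrec fun v : Str => Encodable.decode (α := Prm × Rect) v.length := by fun_prop
  refine Partrec.bind h1.to_comp.ofOption ?_
  have h2 : Partrec fun z : Str × (Prm × Rect) => searchT z.2.1 :=
    searchT_partrec.comp (Computable.fst.comp Computable.snd)
  have h3 : Primrec fun z : (Str × (Prm × Rect)) × Tab => (z.1.2.1, z.2, z.1.2.2) := by fun_prop
  exact (Partrec.map h2 h3.to_comp.to₂).to₂

theorem mem_F1 {q : Prm} {t : Tab} (ht : t ∈ searchT q) : (q, t) ∈ F1 (un (Encodable.encode q)) := by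
  unfold F1
  rw [un_length, Encodable.encodek, Part.mem_bind_iff]
  refine ⟨q, by simp, ?_⟩
  rw [Part.mem_map_iff]
  exact ⟨t, ht, rfl⟩

theorem mem_F2 {z : Prm × Rect} {t : Tab} (ht : t ∈ searchT z.1) :
    (z.1, t, z.2) ∈ F2 (cd z) := by
  unfold F2 cd
  rw [un_length, Encodable.encodek, Part.mem_bind_iff]
  refine ⟨z, by simp, ?_⟩
  rw [Part.mem_map_iff]
  exact ⟨t, ht, rfl⟩

section
variable (e : Str → Str → Str → Option Str) (U : ℕ → ℕ → List Str)

/-- The rectangles in use at stage `s`. -/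
def S1 (z : Prm × Tab) (s : ℕ) : List Str :=
  ((resp e U z.1 z.2 s).map Prod.fst).map fun R => cd (z.1, R)

/-- The members of a side of a rectangle at stage `s`. -/
def S2 (c : Bool) (z : Prm × Tab × Rect) (s : ℕ) : List Str :=
  (resp e U z.1 z.2.1 s).flatMap fun w =>
    bif decide (w.1 = z.2.2) && decide (w.2.1 = c) then
      ((U z.1.1 s)[w.2.2]?.map fun u => [u]).getD [] else []

variable {e U}

theorem S1_prim (he : Primrec fun z : Str × Str × Str => e z.1 z.2.1 z.2.2)
    (hU : Primrec fun z : ℕ × ℕ => U z.1 z.2) :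
    Primrec fun z : (Prm × Tab) × ℕ => S1 e U z.1 z.2 := by
  unfold S1 cd
  have h1 : Primrec fun z : (Prm × Tab) × ℕ => resp e U z.1.1 z.1.2 z.2 :=
    (resp_prim he hU).comp (g := fun z : (Prm × Tab) × ℕ => (z.1.1, z.1.2, z.2)) (by fun_prop)
  fun_prop

omit e U in
theorem S2_aux {γ : Type} [Primcodable γ] {rs : γ → Resp} {us : γ → List Str} {R : γ → Rect}
    (hrs : Primrec rs) (hus : Primrec us) (hR : Primrec R) (c : Bool) :
    Primrec fun z : γ => (rs z).flatMap fun w => bif decide (w.1 = R z) && decide (w.2.1 = c) then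
        ((us z)[w.2.2]?.map fun u => [u]).getD [] else [] := by
  fun_prop

theorem S2_prim (he : Primrec fun z : Str × Str × Str => e z.1 z.2.1 z.2.2)
    (hU : Primrec fun z : ℕ × ℕ => U z.1 z.2) (c : Bool) :
    Primrec fun z : (Prm × Tab × Rect) × ℕ => S2 e U c z.1 z.2 := by
  have h1 : Primrec fun z : (Prm × Tab × Rect) × ℕ => resp e U z.1.1 z.1.2.1 z.2 :=
    (resp_prim he hU).comp (g := fun z : (Prm × Tab × Rect) × ℕ => (z.1.1, z.1.2.1, z.2))
      (by fun_prop)
  have h2 : Primrec fun z : (Prm × Tab × Rect) × ℕ => U z.1.1.1 z.2 :=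
    hU.comp (g := fun z : (Prm × Tab × Rect) × ℕ => (z.1.1.1, z.2)) (by fun_prop)
  exact S2_aux h1 h2 (R := fun z : (Prm × Tab × Rect) × ℕ => z.1.2.2) (by fun_prop) c

theorem pair_lt {x y k : ℕ} (hx : x < 2 ^ k) (hy : y < 2 ^ k) : Nat.pair x y < 2 ^ (2 * k) := by
  have h1 := Nat.pair_lt_max_add_one_sq x y
  have h2 : max x y + 1 ≤ 2 ^ k := by
    rcases max_cases x y with h | h <;> omega
  calc Nat.pair x y < (max x y + 1) ^ 2 := h1
    _ ≤ (2 ^ k) ^ 2 := Nat.pow_le_pow_left h2 2
    _ = 2 ^ (2 * k) := by rw [← pow_mul, mul_comm]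

theorem encode_prm_lt (q : Prm) : Encodable.encode q < 2 ^ (16 * Nat.size (pM q)) := by
  obtain ⟨n, a, b, g, d⟩ := q
  have hM : pM (n, a, b, g, d) < 2 ^ Nat.size (pM (n, a, b, g, d)) := Nat.lt_size_self _
  set k := Nat.size (pM (n, a, b, g, d)) with hk
  have hM' : n + a + b + g + d + 10 < 2 ^ k := hM
  have h1 : Nat.pair g d < 2 ^ (2 * k) := pair_lt (by omega) (by omega)
  have hmono : ∀ i j : ℕ, i ≤ j → 2 ^ i ≤ 2 ^ j := fun i j h => Nat.pow_le_pow_right (by norm_num) h
  have h2 : Nat.pair b (Nat.pair g d) < 2 ^ (2 * (2 * k)) :=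
    pair_lt (lt_of_lt_of_le (by omega) (hmono k (2 * k) (by omega))) h1
  have h3 : Nat.pair a (Nat.pair b (Nat.pair g d)) < 2 ^ (2 * (2 * (2 * k))) :=
    pair_lt (lt_of_lt_of_le (by omega) (hmono k (2 * (2 * k)) (by omega))) h2
  have h4 : Nat.pair n (Nat.pair a (Nat.pair b (Nat.pair g d))) < 2 ^ (2 * (2 * (2 * (2 * k)))) :=
    pair_lt (lt_of_lt_of_le (by omega) (hmono k (2 * (2 * (2 * k))) (by omega))) h3
  have h5 : Encodable.encode ((n, a, b, g, d) : Prm) =
      Nat.pair n (Nat.pair a (Nat.pair b (Nat.pair g d))) := by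
    simp [Encodable.encode_prod_val]
  rw [h5]
  refine lt_of_lt_of_le h4 (hmono _ _ (by omega))

theorem pR_le (q : Prm) : pR q ≤ 2 ^ (q.2.2.2.1 + 21 + 8 * Nat.size (pM q)) := by
  obtain ⟨n, a, b, g, d⟩ := q
  have hM : pM (n, a, b, g, d) < 2 ^ Nat.size (pM (n, a, b, g, d)) := Nat.lt_size_self _
  have hd : pD (n, a, b, g, d) ≤ pM (n, a, b, g, d) := by unfold pD pM; simp only; omega
  have hP := progs_length g
  have hP' : (pP (n, a, b, g, d)).length ≤ 2 ^ (g + 1) := by unfold pP; simp only; omega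
  set k := Nat.size (pM (n, a, b, g, d)) with hk
  unfold pR
  simp only
  calc 2 ^ 20 * (pD (n, a, b, g, d) * (pP (n, a, b, g, d)).length) * pM (n, a, b, g, d) ^ 7
      ≤ 2 ^ 20 * (2 ^ k * 2 ^ (g + 1)) * (2 ^ k) ^ 7 := by
        gcongr
        omega
    _ = 2 ^ (g + 21 + 8 * k) := by
        rw [← pow_mul, ← pow_add, ← pow_add, ← pow_add]; congr 1; ring

variable {E : (ℕ → Bool) → Str → Str →. Str} {D : Str → Str →. Str}

theorem S1_card {q : Prm} {t : Tab} (ht : goodT q t = true) (X : Finset Str)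
    (hX : ∀ u ∈ X, ∃ s, u ∈ S1 e U (q, t) s) : X.card ≤ pR q := by
  classical
  choose! st hst using hX
  set s := X.sup st with hs
  have h1 : ∀ u ∈ X, ∃ R : Rect, R ∈ dd ((resp e U q t s).map Prod.fst) ∧ cd (q, R) = u := by
    intro u hu
    have h2 := hst u hu
    unfold S1 at h2
    rw [List.mem_map] at h2
    obtain ⟨R, hR, rfl⟩ := h2
    refine ⟨R, ?_, rfl⟩
    rw [mem_dd, List.mem_map]
    rw [List.mem_map] at hR
    obtain ⟨z, hz, rfl⟩ := hR
    exact ⟨z, resp_mono ht (Finset.le_sup hu) z hz, rfl⟩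
  have h2 : X ⊆ ((dd ((resp e U q t s).map Prod.fst)).map fun R => cd (q, R)).toFinset := by
    intro u hu
    obtain ⟨R, hR, h⟩ := h1 u hu
    rw [List.mem_toFinset, List.mem_map]
    exact ⟨R, hR, h⟩
  refine (Finset.card_le_card h2).trans ((List.toFinset_card_le _).trans ?_)
  rw [List.length_map]
  exact resp_rects ht s

theorem S2_card (hU : Names D U) {q : Prm} {t : Tab} (ht : goodT q t = true) (R : Rect) (c : Bool)
    (X : Finset Str) (hX : ∀ u ∈ X, ∃ s, u ∈ S2 e U c (q, t, R) s) :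
    X.card ≤ 2 * (bif c then pA q else pB q) := by
  classical
  choose! st hst using hX
  set s := X.sup st with hs
  have h1 : ∀ u ∈ X, ∃ i : ℕ, (R, c, i) ∈ resp e U q t s ∧ ∃ s', (U q.1 s')[i]? = some u := by
    intro u hu
    have h2 := hst u hu
    unfold S2 at h2
    rw [List.mem_flatMap] at h2
    obtain ⟨w, hw, h3⟩ := h2
    cases hc : (decide (w.1 = R) && decide (w.2.1 = c)) with
    | false => simp only [hc, cond_false, List.not_mem_nil] at h3
    | true =>
      simp only [hc, cond_true] at h3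
      rw [Bool.and_eq_true, decide_eq_true_eq, decide_eq_true_eq] at hc
      cases hu' : (U q.1 (st u))[w.2.2]? with
      | none => rw [hu'] at h3; simp at h3
      | some u' =>
        rw [hu'] at h3
        simp only [Option.map_some, Option.getD_some, List.mem_cons, List.not_mem_nil,
          or_false] at h3
        subst h3
        refine ⟨w.2.2, ?_, st u, hu'⟩
        rw [← hc.1, ← hc.2]
        exact resp_mono ht (Finset.le_sup hu) w hw
  choose! f hf using h1
  have hinj : Set.InjOn f (X : Set Str) := by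
    intro u hu v hv huv
    obtain ⟨_, s1, h2⟩ := hf u hu
    obtain ⟨_, s2, h3⟩ := hf v hv
    rw [huv] at h2
    exact names_fun hU h2 h3
  rw [← Finset.card_image_of_injOn hinj]
  have h2 : X.image f ⊆ (((resp e U q t s).filter fun w =>
      decide (w.1 = R) && decide (w.2.1 = c)).map fun w => w.2.2).toFinset := by
    intro i hi
    rw [Finset.mem_image] at hi
    obtain ⟨u, hu, rfl⟩ := hi
    rw [List.mem_toFinset, List.mem_map]
    exact ⟨(R, c, f u), List.mem_filter.2 ⟨(hf u hu).1, by simp⟩, rfl⟩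
  refine (Finset.card_le_card h2).trans ((List.toFinset_card_le _).trans ?_)
  rw [List.length_map, ← List.countP_eq_length_filter]
  exact resp_left ht s R c

/-- The event that the triple `(a, b, g)` is achieved relative to the oracle. -/
def Ev (E : (ℕ → Bool) → Str → Str →. Str) (a b g : ℕ) (x y : Str) : Set (ℕ → Bool) :=
  {A | ∃ p q r r' : Str, (p.length ≤ g ∧ q ∈ E A p []) ∧ (r.length ≤ a ∧ x ∈ E A r q) ∧
    (r'.length ≤ b ∧ y ∈ E A r' q)}

/-- The main inequality. -/
theorem main_ineq (hD : IsOptimal D) (hE : Sim E e) (hU : Names D U) :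
    ∃ C : ℕ, ∀ (n a b g d : ℕ) (x y : Str),
      (∃ p : Str, p.length ≤ n ∧ x ∈ D p []) → (∃ p : Str, p.length ≤ n ∧ y ∈ D p []) →
      (((d + 1 : ℕ) : ℝ≥0∞))⁻¹ < coin (Ev E a b g x y) →
      ∃ q' : Str, KS D q' [] ≤ g + 40 * Nat.size (pM (n, a, b, g, d)) + C ∧
        KS D x q' ≤ a + C ∧ KS D y q' ≤ b + C := by
  classical
  obtain ⟨c1, hc1⟩ := KS_enum hD F1 F1_partrec (S1 e U) (S1_prim hE.prim hU.prim)
  obtain ⟨c2, hc2⟩ := KS_enum hD F2 F2_partrec (S2 e U true) (S2_prim hE.prim hU.prim true)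
  obtain ⟨c3, hc3⟩ := KS_enum hD F2 F2_partrec (S2 e U false) (S2_prim hE.prim hU.prim false)
  obtain ⟨c4, hc4⟩ := KS_drop hD un (by fun_prop)
  refine ⟨21 + c1 + c2 + c3 + c4 + 2, ?_⟩
  intro n a b g d x y hx hy hmeas
  obtain ⟨px, hpx, hpx'⟩ := hx
  obtain ⟨py, hpy, hpy'⟩ := hy
  obtain ⟨sx, hsx⟩ := hU.compl n px x hpx hpx'
  obtain ⟨sy, hsy⟩ := hU.compl n py y hpy hpy'
  obtain ⟨i, hi, hix⟩ := List.getElem_of_mem hsx
  obtain ⟨j, hj, hjy⟩ := List.getElem_of_mem hsy
  have hix' : (U n sx)[i]? = some x := List.getElem?_eq_some_iff.2 ⟨hi, hix⟩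
  have hjy' : (U n sy)[j]? = some y := List.getElem?_eq_some_iff.2 ⟨hj, hjy⟩
  have hiN : i < pN (n, a, b, g, d) := lt_trans hi (names_length hU n sx)
  have hjN : j < pN (n, a, b, g, d) := lt_trans hj (names_length hU n sy)
  set q : Prm := (n, a, b, g, d) with hq
  obtain ⟨t, ht⟩ := searchT_dom q
  have hgood := searchT_spec ht
  set f : List Bool → Prop := fun σ =>
    ∃ p ∈ progs g, (true, i) ∈ Hst e U n a b σ p ∧ (false, j) ∈ Hst e U n a b σ p with hf
  have hmono : ∀ c σ, f σ → f (c :: σ) := by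
    rintro c σ ⟨p, hp, h1, h2⟩
    exact ⟨p, hp, (Hst_suffix _ _ _ _ _ _).subset h1, (Hst_suffix _ _ _ _ _ _).subset h2⟩
  have hsub : Ev E a b g x y ⊆ {A | ∃ s, f (rp A s)} := by
    rintro A ⟨p, q', r, r', ⟨hp, hq'⟩, ⟨hr, hxr⟩, ⟨hr', hyr⟩⟩
    obtain ⟨k1, h1⟩ := sees_complete hE hq' hr hxr
    obtain ⟨k2, h2⟩ := sees_complete hE hq' hr' hyr
    set k := k1 + k2 + sx + sy + 1 with hk
    refine ⟨k, p, mem_progs.2 hp, ?_, ?_⟩
    · refine Hst_complete (u := x) (by omega) (names_get hU (by omega) hix') ?_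
      exact h1 k (by omega)
    · refine Hst_complete (u := y) (by omega) (names_get hU (by omega) hjy') ?_
      exact h2 k (by omega)
  obtain ⟨s, hs⟩ := exists_stage hmono (lt_of_lt_of_le hmeas (measure_mono hsub))
  have hcount : (strs s).countP (fun σ => decide (f σ)) ≤
      (HS (Hst e U q.1 q.2.1 q.2.2.1) (pP q) s).countP
        (fun h => decide ((true, i) ∈ h ∧ (false, j) ∈ h)) := by
    rw [HS_countP]
    generalize strs s = L
    induction L with
    | nil => simp
    | cons σ L ih =>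
      rw [List.map_cons, List.sum_cons, List.countP_cons]
      have h1 : (if decide (f σ) = true then 1 else 0) ≤ (pP q).countP (fun p =>
          decide ((true, i) ∈ Hst e U q.1 q.2.1 q.2.2.1 σ p ∧
            (false, j) ∈ Hst e U q.1 q.2.1 q.2.2.1 σ p)) := by
        split_ifs with hfσ
        · rw [decide_eq_true_eq] at hfσ
          obtain ⟨p, hp, h2⟩ := hfσ
          exact List.countP_pos_iff.2 ⟨p, hp, by rw [decide_eq_true_eq]; exact h2⟩
        · exact Nat.zero_le _
      rw [add_comm]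
      exact Nat.add_le_add h1 ih
  obtain ⟨R, hR1, hR2⟩ := resp_covers hE hU hgood s hiN hjN (by
    calc 2 ^ s ≤ (d + 1) * (strs s).countP (fun σ => decide (f σ)) := hs.le
      _ ≤ pD q * (HS (Hst e U q.1 q.2.1 q.2.2.1) (pP q) s).countP
        (fun h => decide ((true, i) ∈ h ∧ (false, j) ∈ h)) := Nat.mul_le_mul_left _ hcount)
  refine ⟨cd (q, R), ?_, ?_, ?_⟩
  · -- complexity of the rectangle
    have hmem : cd (q, R) ∈ S1 e U (q, t) s := by
      unfold S1
      rw [List.mem_map]
      exact ⟨R, List.mem_map.2 ⟨_, hR1, rfl⟩, rfl⟩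
    obtain ⟨p, hp, hpq⟩ := hc1 _ _ (mem_F1 ht) (g + 21 + 8 * Nat.size (pM q))
      (fun X hX => (S1_card hgood X hX).trans (pR_le q)) _ s hmem
    have := hc4 (Encodable.encode q) (16 * Nat.size (pM q)) (encode_prm_lt q) p _ hpq
    omega
  · have hmem : x ∈ S2 e U true (q, t, R) (s + sx) := by
      unfold S2
      rw [List.mem_flatMap]
      refine ⟨(R, true, i), resp_mono hgood (by omega) _ hR1, ?_⟩
      simp only [decide_true, Bool.and_self, cond_true]
      rw [names_get hU (show sx ≤ s + sx by omega) hix']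
      simp
    obtain ⟨p, hp, hpx⟩ := hc2 _ _ (mem_F2 (z := (q, R)) ht) (a + 2) (fun X hX => by
      refine (S2_card hU hgood R true X hX).trans (le_of_eq ?_)
      rw [cond_true]
      unfold pA
      simp only [hq]
      ring) _ _ hmem
    exact (KS_le hpx).trans (by omega)
  · have hmem : y ∈ S2 e U false (q, t, R) (s + sy) := by
      unfold S2
      rw [List.mem_flatMap]
      refine ⟨(R, false, j), resp_mono hgood (by omega) _ hR2, ?_⟩
      simp only [decide_true, Bool.and_self, cond_true]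
      rw [names_get hU (show sy ≤ s + sy by omega) hjy']
      simp
    obtain ⟨p, hp, hpy⟩ := hc3 _ _ (mem_F2 (z := (q, R)) ht) (b + 2) (fun X hX => by
      refine (S2_card hU hgood R false X hX).trans (le_of_eq ?_)
      rw [cond_false]
      unfold pB
      simp only [hq]
      ring) _ _ hmem
    exact (KS_le hpy).trans (by omega)

end

end Pool.Agent.GWP
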