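import Pool.Agent.GWP.Final

/-!
The event of the theorem is measurable.
-/

namespace Pool.Agent.GWP

open MeasureTheory

theorem measurableSet_rp (P : List Bool → Prop) (k : ℕ) :
    MeasurableSet {A : ℕ → Bool | P (rp A k)} := by
  have hcyl : ∀ A₀ : ℕ → Bool, MeasurableSet {A : ℕ → Bool | rp A k = rp A₀ k} := by
    intro A₀
    have h1 : {A : ℕ → Bool | rp A k = rp A₀ k} =
        ⋂ i ∈ Finset.range k, (fun A : ℕ → Bool => A i) ⁻¹' {A₀ i} := by
      ext A
      simp only [Set.mem_iInter, Finset.mem_range, Set.mem_preimage, Set.mem_singleton_iff]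
      exact rp_eq_iff
    rw [h1]
    apply Finset.measurableSet_biInter
    intro i _
    exact measurable_pi_apply i (MeasurableSet.singleton _)
  have h2 : {A : ℕ → Bool | P (rp A k)} =
      ⋃ σ ∈ {σ : List Bool | P σ ∧ σ.length = k}, {A : ℕ → Bool | rp A k = σ} := by
    ext A
    simp only [Set.mem_iUnion, exists_prop]
    constructor
    · intro h
      exact ⟨rp A k, ⟨h, rp_length A k⟩, rfl⟩
    · rintro ⟨σ, ⟨h1, _⟩, h2⟩
      have h3 : rp A k = σ := h2
      change P (rp A k)
      rw [h3]; exact h1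
  rw [h2]
  apply MeasurableSet.biUnion (Set.to_countable _)
  rintro σ ⟨_, hσ⟩
  obtain ⟨A₀, hA₀⟩ := exists_oracle σ
  rw [hσ] at hA₀
  rw [← hA₀]
  exact hcyl A₀

theorem measurableSet_mem {E : (ℕ → Bool) → Str → Str →. Str} (hE : IsOracleDec E) (p v u : Str) :
    MeasurableSet {A | u ∈ E A p v} := by
  obtain ⟨φ, _, hφ⟩ := hE
  have h1 : {A | u ∈ E A p v} = ⋃ k, {A | u ∈ φ ((rp A k).reverse, p, v)} := by
    ext A
    simp only [Set.mem_iUnion]
    have := hφ A p v u
    simp only [prefixOf_eq] at this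
    exact this
  rw [h1]
  exact MeasurableSet.iUnion fun k => measurableSet_rp (fun σ => u ∈ φ (σ.reverse, p, v)) k

theorem measurable_KS {E : (ℕ → Bool) → Str → Str →. Str} (hE : IsOracleOptimal E) (u v : Str) :
    Measurable fun A => KS (E A) u v := by
  have hle : ∀ i : ℕ, MeasurableSet {A | KS (E A) u v ≤ i} := by
    intro i
    have h1 : {A | KS (E A) u v ≤ i} = ⋃ p ∈ {p : Str | p.length ≤ i}, {A | u ∈ E A p v} := by
      ext A
      simp only [Set.mem_iUnion, exists_prop]
      constructor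
      · intro h
        obtain ⟨p, hp, hu⟩ := exists_program_oracle hE A u v
        have h' : KS (E A) u v ≤ i := h
        refine ⟨p, ?_, hu⟩
        change p.length ≤ i
        omega
      · rintro ⟨p, hp, hu⟩
        have hp' : p.length ≤ i := hp
        exact (KS_le hu).trans hp'
    rw [h1]
    exact MeasurableSet.biUnion (Set.to_countable _) fun p _ => measurableSet_mem hE.1 p v u
  apply measurable_to_countable'
  intro i
  have h2 : (fun A => KS (E A) u v) ⁻¹' {i} =
      {A | KS (E A) u v ≤ i} \ ⋃ j ∈ Set.Iio i, {A | KS (E A) u v ≤ j} := by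
    ext A
    simp only [Set.mem_preimage, Set.mem_singleton_iff, Set.mem_sdiff, Set.mem_iUnion, Set.mem_Iio,
      exists_prop, not_exists, not_and]
    constructor
    · intro h
      refine ⟨h.le, fun j hj hle => ?_⟩
      have hle' : KS (E A) u v ≤ j := hle
      omega
    · rintro ⟨h1, h2⟩
      have h1' : KS (E A) u v ≤ i := h1
      by_contra hne
      exact h2 (KS (E A) u v) (by omega) (le_refl (KS (E A) u v))
  rw [h2]
  exact (hle i).diff (MeasurableSet.biUnion (Set.to_countable _) fun j _ => hle j)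

theorem shift_up {C : Str → Str → ℕ} {x y : Str} {δ : ℝ} {t t' : ℝ × ℝ × ℝ}
    (ht : t ∈ shift (GW C x y) δ) (h1 : t.1 ≤ t'.1) (h2 : t.2.1 ≤ t'.2.1) (h3 : t.2.2 ≤ t'.2.2) :
    t' ∈ shift (GW C x y) δ := by
  obtain ⟨a1, a2, a3, b1, b2, b3, q, c1, c2, c3⟩ := ht
  simp only at a1 a2 a3 b1 b2 b3 c1 c2 c3
  refine ⟨by linarith, by linarith, by linarith, ?_⟩
  exact ⟨by simp only; linarith, by simp only; linarith, by simp only; linarith, q,
    by simp only; linarith, by simp only; linarith, by simp only; linarith⟩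

/-- The event is measurable. -/
theorem measurableSet_event {E : (ℕ → Bool) → Str → Str →. Str} (hE : IsOracleOptimal E)
    (C : Str → Str → ℕ) (x y : Str) (δ : ℝ) :
    MeasurableSet {A | GW (KS (E A)) x y ⊆ shift (GW C x y) δ} := by
  have h1 : {A | GW (KS (E A)) x y ⊆ shift (GW C x y) δ} =
      ⋂ q : Str, (fun A => (KS (E A) x q, KS (E A) y q, KS (E A) q [])) ⁻¹'
        {t : ℕ × ℕ × ℕ | ((t.1 : ℝ), (t.2.1 : ℝ), (t.2.2 : ℝ)) ∈ shift (GW C x y) δ} := by
    ext A
    simp only [Set.mem_iInter, Set.mem_preimage]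
    constructor
    · intro h q
      have h' : GW (KS (E A)) x y ⊆ shift (GW C x y) δ := h
      apply h'
      exact ⟨Nat.cast_nonneg _, Nat.cast_nonneg _, Nat.cast_nonneg _, q, le_rfl, le_rfl, le_rfl⟩
    · intro h
      change GW (KS (E A)) x y ⊆ shift (GW C x y) δ
      rintro t ⟨_, _, _, q, c1, c2, c3⟩
      exact shift_up (h q) c2 c3 c1
  rw [h1]
  refine MeasurableSet.iInter fun q => ?_
  apply measurableSet_preimage
  · exact (measurable_KS hE x q).prodMk ((measurable_KS hE y q).prodMk (measurable_KS hE q []))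
  · exact MeasurableSet.of_discrete

end Pool.Agent.GWP
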