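import Pool.Agent.GWP.CertPrim

/-!
The play of the history game that comes from a family of histories indexed by the prefixes of the
oracle.
-/

namespace Pool.Agent.GWP

open Prim

/-- Strings of length `s`. -/
def strs : ℕ → List (List Bool)
  | 0 => [[]]
  | s + 1 => (strs s).flatMap fun σ => [false :: σ, true :: σ]

theorem mem_strs {s : ℕ} {σ : List Bool} : σ ∈ strs s ↔ σ.length = s := by
  induction s generalizing σ with
  | zero => simp [strs]
  | succ s ih =>
    rw [strs, List.mem_flatMap]
    constructor
    · rintro ⟨τ, hτ, h⟩
      rw [ih] at hτ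
      simp only [List.mem_cons, List.not_mem_nil, or_false] at h
      rcases h with rfl | rfl <;> simp [hτ]
    · intro h
      cases σ with
      | nil => simp at h
      | cons b σ =>
        refine ⟨σ, ih.2 (by simpa using h), ?_⟩
        cases b <;> simp

theorem strs_nodup (s : ℕ) : (strs s).Nodup := by
  induction s with
  | zero => simp [strs]
  | succ s ih =>
    rw [strs, List.nodup_flatMap]
    refine ⟨fun h _ => by simp, ?_⟩
    refine ih.imp ?_
    intro a b hab
    rw [Function.onFun, List.disjoint_left]
    intro c hc hc'
    simp only [List.mem_cons, List.not_mem_nil, or_false] at hc hc'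
    rcases hc with rfl | rfl <;> rcases hc' with h | h
    · exact hab (List.cons.inj h).2
    · simp at h
    · simp at h
    · exact hab (List.cons.inj h).2

theorem strs_length (s : ℕ) : (strs s).length = 2 ^ s := by
  induction s with
  | zero => simp [strs]
  | succ s ih =>
    rw [strs, List.length_flatMap]
    simp only [List.length_cons, List.length_nil, List.map_const', List.sum_replicate, ih]
    rw [pow_succ]; simp

/-- All histories at stage `s`. -/
def HS (H : List Bool → List Bool → Hist) (Ps : List (List Bool)) (s : ℕ) : List Hist :=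
  (strs s).flatMap fun σ => Ps.map fun p => H σ p

/-- The flow at stage `s`. -/
def cN (H : List Bool → List Bool → Hist) (Ps : List (List Bool)) (K s : ℕ) (h : Hist) : ℕ :=
  K * (HS H Ps s).countP (fun h' => decide (h <:+ h')) / 2 ^ s

/-- The snapshot at stage `s`. -/
def snapAt (N A B : ℕ) (H : List Bool → List Bool → Hist) (Ps : List (List Bool)) (K s : ℕ) :
    Snap := mkSnap (allH N A B) (cN H Ps K s)

/-- The sequence of snapshots up to stage `s`, newest first. -/
def run (N A B : ℕ) (H : List Bool → List Bool → Hist) (Ps : List (List Bool)) (K : ℕ) :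
    ℕ → List Snap
  | 0 => []
  | s + 1 =>
    bif (allH N A B).any (fun h => decide (cOf (curS N A B (K * Ps.length) (run N A B H Ps K s)) h <
      cOf (snapAt N A B H Ps K (s + 1)) h))
    then snapAt N A B H Ps K (s + 1) :: run N A B H Ps K s else run N A B H Ps K s

section
variable {H : List Bool → List Bool → Hist} {Ps : List (List Bool)} {K N A B : ℕ}

theorem HS_length (s : ℕ) : (HS H Ps s).length = 2 ^ s * Ps.length := by
  unfold HS
  rw [List.length_flatMap]
  simp [strs_length]

theorem HS_countP (q : Hist → Bool) (s : ℕ) :
    (HS H Ps s).countP q = ((strs s).map fun σ => Ps.countP fun p => q (H σ p)).sum := by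
  unfold HS
  rw [List.countP_flatMap]
  congr 1
  apply List.map_congr_left
  intro σ _
  rw [Function.comp_apply, List.countP_map]
  rfl

theorem HS_succ_countP (hH : ∀ b σ p, H σ p <:+ H (b :: σ) p) (h : Hist) (s : ℕ) :
    2 * (HS H Ps s).countP (fun h' => decide (h <:+ h')) ≤
      (HS H Ps (s + 1)).countP (fun h' => decide (h <:+ h')) := by
  rw [HS_countP, HS_countP, strs]
  generalize strs s = L
  induction L with
  | nil => simp
  | cons σ L ih =>
    rw [List.flatMap_cons, List.map_append, List.sum_append, List.map_cons, List.sum_cons, mul_add]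
    have h1 : ∀ b, Ps.countP (fun p => decide (h <:+ H σ p)) ≤
        Ps.countP (fun p => decide (h <:+ H (b :: σ) p)) := by
      intro b
      apply List.countP_mono_left
      intro p _ hp
      rw [decide_eq_true_eq] at hp ⊢
      exact hp.trans (hH b σ p)
    have h2 := h1 false
    have h3 := h1 true
    simp only [List.map_cons, List.map_nil, List.sum_cons, List.sum_nil]
    omega

theorem cN_mono (hH : ∀ b σ p, H σ p <:+ H (b :: σ) p) (h : Hist) (s : ℕ) :
    cN H Ps K s h ≤ cN H Ps K (s + 1) h := by
  unfold cN
  have h1 := HS_succ_countP (Ps := Ps) hH h s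
  rw [Nat.le_div_iff_mul_le (by positivity)]
  calc K * (HS H Ps s).countP (fun h' => decide (h <:+ h')) / 2 ^ s * 2 ^ (s + 1)
      = (K * (HS H Ps s).countP (fun h' => decide (h <:+ h')) / 2 ^ s * 2 ^ s) * 2 := by
        rw [pow_succ]; ring
    _ ≤ (K * (HS H Ps s).countP (fun h' => decide (h <:+ h'))) * 2 :=
        Nat.mul_le_mul_right _ (Nat.div_mul_le_self _ _)
    _ = K * (2 * (HS H Ps s).countP (fun h' => decide (h <:+ h'))) := by ring
    _ ≤ _ := Nat.mul_le_mul_left _ h1

theorem cN_nil (s : ℕ) : cN H Ps K s [] = K * Ps.length := by
  unfold cN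
  have : (HS H Ps s).countP (fun h' => decide (([] : Hist) <:+ h')) = (HS H Ps s).length := by
    rw [List.countP_eq_length]
    intro h' _
    simp
  rw [this, HS_length]
  rw [show K * (2 ^ s * Ps.length) = (K * Ps.length) * 2 ^ s by ring,
    Nat.mul_div_cancel _ (by positivity)]

theorem cN_le (s : ℕ) (h : Hist) : cN H Ps K s h ≤ K * Ps.length := by
  rw [← cN_nil (H := H) (Ps := Ps) (K := K) s]
  unfold cN
  apply Nat.div_le_div_right
  apply Nat.mul_le_mul_left
  apply List.countP_mono_left
  intro h' _ _
  simp

theorem cN_flow (s : ℕ) (h : Hist) :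
    ((facts N).map fun e => cN H Ps K s (e :: h)).sum ≤ cN H Ps K s h := by
  have h1 : ((facts N).map fun e => (HS H Ps s).countP (fun h' => decide (e :: h <:+ h'))).sum ≤
      (HS H Ps s).countP (fun h' => decide (h <:+ h')) := by
    generalize HS H Ps s = L
    induction L with
    | nil => simp
    | cons h' L ih =>
      simp only [List.countP_cons, List.sum_map_add]
      have h2 : ((facts N).map fun e => if decide (e :: h <:+ h') = true then 1 else 0).sum ≤
          if decide (h <:+ h') = true then 1 else 0 := by
        rw [← List.sum_toFinset _ (facts_nodup N), ← Finset.card_filter]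
        by_cases hs : h <:+ h'
        · rw [if_pos (by simpa using hs), Finset.card_le_one]
          intro a ha b hb
          simp only [Finset.mem_filter, decide_eq_true_eq] at ha hb
          rcases List.suffix_or_suffix_of_suffix ha.2 hb.2 with h3 | h3
          · have := h3.eq_of_length (by simp)
            exact (List.cons.inj this).1
          · have := h3.eq_of_length (by simp)
            exact (List.cons.inj this).1.symm
        · rw [if_neg (by simpa using hs), Nat.le_zero, Finset.card_eq_zero,
            Finset.filter_eq_empty_iff]
          intro e _ he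
          rw [decide_eq_true_eq] at he
          exact hs ((List.suffix_cons _ _).trans he)
      omega
  unfold cN
  rw [Nat.le_div_iff_mul_le (by positivity)]
  have h2 : ∀ L : List (Bool × ℕ), ((L.map fun e =>
      K * (HS H Ps s).countP (fun h' => decide (e :: h <:+ h')) / 2 ^ s).sum) * 2 ^ s ≤
      K * (L.map fun e => (HS H Ps s).countP (fun h' => decide (e :: h <:+ h'))).sum := by
    intro L
    induction L with
    | nil => simp
    | cons e L ih =>
      rw [List.map_cons, List.sum_cons, List.map_cons, List.sum_cons, add_mul, mul_add]
      exact Nat.add_le_add (Nat.div_mul_le_self _ _) ih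
  exact (h2 _).trans (Nat.mul_le_mul_left _ h1)

theorem cOf_snapAt (s : ℕ) (h : Hist) :
    cOf (snapAt N A B H Ps K s) h = if h ∈ allH N A B then cN H Ps K s h else 0 := cOf_mkSnap

theorem run_spec (hH : ∀ b σ p, H σ p <:+ H (b :: σ) p) (h0 : ∀ p, H [] p = []) (s : ℕ) :
    ChainB N A B (K * Ps.length) (run N A B H Ps K s) ∧
      ∀ h ∈ allH N A B, cOf (curS N A B (K * Ps.length) (run N A B H Ps K s)) h =
        cN H Ps K s h := by
  induction s with
  | zero =>
    refine ⟨trivial, ?_⟩
    intro h hh
    rw [run, cOf_curS_nil]
    unfold initC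
    split_ifs with hn
    · rw [hn, cN_nil]
    · unfold cN HS
      have : ∀ L : List (List Bool), (L.map fun p => H [] p).countP
          (fun h' => decide (h <:+ h')) = 0 := by
        intro L
        rw [List.countP_eq_zero]
        intro h' hh'
        rw [List.mem_map] at hh'
        obtain ⟨p, _, rfl⟩ := hh'
        rw [h0]
        simpa using hn
      simp only [strs, List.flatMap_cons, List.flatMap_nil, List.append_nil]
      rw [this]
      simp
  | succ s ih =>
    obtain ⟨hc, hcur⟩ := ih
    have hle : ∀ h ∈ allH N A B, cOf (curS N A B (K * Ps.length) (run N A B H Ps K s)) h ≤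
        cOf (snapAt N A B H Ps K (s + 1)) h := by
      intro h hh
      rw [hcur h hh, cOf_snapAt, if_pos hh]
      exact cN_mono hH h s
    rw [run]
    cases hany : (allH N A B).any (fun h =>
        decide (cOf (curS N A B (K * Ps.length) (run N A B H Ps K s)) h <
        cOf (snapAt N A B H Ps K (s + 1)) h)) with
    | true =>
      rw [cond_true]
      refine ⟨⟨?_, ?_, hc⟩, ?_⟩
      · exact mkSnap_mem_allA fun h _ => cN_le _ _
      · unfold nextB
        rw [Bool.and_eq_true, Bool.and_eq_true]
        refine ⟨?_, ?_, hany⟩
        · unfold flowB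
          rw [Bool.and_eq_true, decide_eq_true_eq, List.all_eq_true]
          constructor
          · rw [cOf_snapAt, if_pos (nil_mem_allH _ _ _), cN_nil]
          · intro h hh
            rw [decide_eq_true_eq, cOf_snapAt, if_pos hh]
            refine le_trans ?_ (cN_flow (N := N) (s + 1) h)
            apply List.sum_le_sum
            intro e _
            rw [cOf_snapAt]
            split_ifs
            · exact le_rfl
            · exact Nat.zero_le _
        · rw [List.all_eq_true]
          intro h hh
          rw [decide_eq_true_eq]
          exact hle h hh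
      · intro h hh
        rw [curS_cons, cOf_snapAt, if_pos hh]
    | false =>
      rw [cond_false]
      refine ⟨hc, ?_⟩
      intro h hh
      rw [List.any_eq_false] at hany
      have h1 := hany h hh
      rw [decide_eq_true_eq] at h1
      have h2 := hle h hh
      have h3 : cOf (snapAt N A B H Ps K (s + 1)) h = cN H Ps K (s + 1) h := by
        rw [cOf_snapAt, if_pos hh]
      omega

theorem exists_min {x y : ℕ} {h : Hist} (hb : (true, x) ∈ h ∧ (false, y) ∈ h) :
    ∃ g, g <:+ h ∧ IsMin x y g := by
  induction h with
  | nil => simp at hb
  | cons e h ih =>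
    by_cases hb' : (true, x) ∈ h ∧ (false, y) ∈ h
    · obtain ⟨g, hg, hm⟩ := ih hb'
      exact ⟨g, hg.trans (List.suffix_cons _ _), hm⟩
    · exact ⟨e :: h, List.suffix_refl _, hb, hb'⟩

theorem LegalH.suffix {h g : Hist} (hl : LegalH N A B h) (hs : g <:+ h) : LegalH N A B g :=
  LegalH.mk' (hl.nodup.sublist hs.sublist) (fun e he => hl.2.1 e (hs.subset he))
    ((hs.sublist.countP_le).trans hl.2.2.1) ((hs.sublist.countP_le).trans hl.2.2.2)

/-- The number of particles containing both `x` and `y` in the play at stage `s`. -/
theorem run_both (hH : ∀ b σ p, H σ p <:+ H (b :: σ) p) (h0 : ∀ p, H [] p = [])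
    (hlegal : ∀ σ p, LegalH N A B (H σ p)) (x y s : ℕ) :
    K * (HS H Ps s).countP (fun h => decide ((true, x) ∈ h ∧ (false, y) ∈ h)) ≤
      2 ^ s * (bothV N A B (curS N A B (K * Ps.length) (run N A B H Ps K s)) x y +
        (allH N A B).length) := by
  have h1 : bothV N A B (curS N A B (K * Ps.length) (run N A B H Ps K s)) x y =
      (((allH N A B).filter fun h => minB x y h).map fun h => cN H Ps K s h).sum := by
    unfold bothV
    congr 1
    apply List.map_congr_left
    intro h hh
    exact (run_spec hH h0 s).2 h (List.mem_filter.1 hh).1
  have h2 : (HS H Ps s).countP (fun h => decide ((true, x) ∈ h ∧ (false, y) ∈ h)) ≤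
      (((allH N A B).filter fun h => minB x y h).map fun h =>
        (HS H Ps s).countP (fun h' => decide (h <:+ h'))).sum := by
    have hleg : ∀ h' ∈ HS H Ps s, LegalH N A B h' := by
      intro h' hh'
      unfold HS at hh'
      rw [List.mem_flatMap] at hh'
      obtain ⟨σ, _, hh'⟩ := hh'
      rw [List.mem_map] at hh'
      obtain ⟨p, _, rfl⟩ := hh'
      exact hlegal σ p
    generalize HS H Ps s = L at hleg
    induction L with
    | nil => simp
    | cons h' L ih =>
      have ih' := ih fun g hg => hleg g (List.mem_cons_of_mem _ hg)
      simp only [List.countP_cons, List.sum_map_add]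
      have h3 : (if decide ((true, x) ∈ h' ∧ (false, y) ∈ h') = true then 1 else 0) ≤
          (((allH N A B).filter fun h => minB x y h).map fun h =>
            if decide (h <:+ h') = true then 1 else 0).sum := by
        split_ifs with hb
        · rw [decide_eq_true_eq] at hb
          obtain ⟨g, hg, hm⟩ := exists_min hb
          have hg' : g ∈ (allH N A B).filter fun h => minB x y h := by
            rw [List.mem_filter, minB_eq, decide_eq_true_eq]
            exact ⟨mem_allH.2 ((hleg h' List.mem_cons_self).suffix hg), hm⟩
          refine le_trans ?_ (List.single_le_sum (fun z _ => Nat.zero_le z) _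
            (List.mem_map.2 ⟨g, hg', rfl⟩))
          rw [if_pos (by simpa using hg)]
        · exact Nat.zero_le _
      omega
  have h3 : ∀ M : List Hist, K * (M.map fun h =>
        (HS H Ps s).countP (fun h' => decide (h <:+ h'))).sum ≤
      2 ^ s * ((M.map fun h => cN H Ps K s h).sum + M.length) := by
    intro M
    induction M with
    | nil => simp
    | cons h M ih =>
      rw [List.map_cons, List.sum_cons, List.map_cons, List.sum_cons, List.length_cons, mul_add]
      have h4 : K * (HS H Ps s).countP (fun h' => decide (h <:+ h')) ≤
          2 ^ s * (cN H Ps K s h + 1) := by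
        unfold cN
        have := Nat.div_add_mod (K * (HS H Ps s).countP (fun h' => decide (h <:+ h'))) (2 ^ s)
        have h5 := Nat.mod_lt (K * (HS H Ps s).countP (fun h' => decide (h <:+ h')))
          (show 2 ^ s > 0 by positivity)
        rw [mul_add, mul_one]
        omega
      calc _ ≤ 2 ^ s * (cN H Ps K s h + 1) +
            2 ^ s * ((M.map fun h => cN H Ps K s h).sum + M.length) := Nat.add_le_add h4 ih
        _ = _ := by ring
  rw [h1]
  calc _ ≤ _ := Nat.mul_le_mul_left K h2
    _ ≤ _ := h3 _
    _ ≤ _ := by
        apply Nat.mul_le_mul_left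
        apply Nat.add_le_add_left
        exact List.length_filter_le _ _

end

end Pool.Agent.GWP
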