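import Pool.Agent.GWP.Run

/-!
The play at stage `s` is primitive recursive.
-/

namespace Pool.Agent.GWP

open Prim

section
variable {α : Type*} [Primcodable α]

@[fun_prop] theorem strs_prim {s : α → ℕ} (hs : Primrec s) : Primrec fun x => strs (s x) := by
  have h1 := natRec' (g := fun _ : α => ([[]] : List (List Bool)))
    (h := fun _ _ ih => ih.flatMap fun σ => [false :: σ, true :: σ]) hs (by fun_prop)
    (by fun_prop)
  refine h1.of_eq fun x => ?_
  induction s x with
  | zero => rfl
  | succ k ih => simp only [strs]; rw [← ih]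

theorem HS_prim {H : α → List Bool → List Bool → Hist} {Ps : α → List (List Bool)} {s : α → ℕ}
    (hH : Primrec fun z : α × (List Bool × List Bool) => H z.1 z.2.1 z.2.2)
    (hPs : Primrec Ps) (hs : Primrec s) : Primrec fun x => HS (H x) (Ps x) (s x) := by
  unfold HS
  have h1 : Primrec fun z : (α × List Bool) × List Bool => H z.1.1 z.1.2 z.2 :=
    hH.comp (g := fun z : (α × List Bool) × List Bool => (z.1.1, (z.1.2, z.2))) (by fun_prop)
  have h2 : Primrec fun z : α × List Bool => (Ps z.1).map fun p => H z.1 z.2 p := by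
    apply Prim.map'
    · fun_prop
    · exact h1
  apply Prim.flatMap'
  · fun_prop
  · exact h2

theorem cN_prim {H : α → List Bool → List Bool → Hist} {Ps : α → List (List Bool)}
    {K s : α → ℕ} {h : α → Hist}
    (hH : Primrec fun z : α × (List Bool × List Bool) => H z.1 z.2.1 z.2.2)
    (hPs : Primrec Ps) (hK : Primrec K) (hs : Primrec s) (hh : Primrec h) :
    Primrec fun x => cN (H x) (Ps x) (K x) (s x) (h x) := by
  unfold cN
  have h1 := HS_prim hH hPs hs
  fun_prop

theorem snapAt_prim {H : α → List Bool → List Bool → Hist} {Ps : α → List (List Bool)}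
    {n a b K s : α → ℕ}
    (hH : Primrec fun z : α × (List Bool × List Bool) => H z.1 z.2.1 z.2.2)
    (hn : Primrec n) (ha : Primrec a) (hb : Primrec b)
    (hPs : Primrec Ps) (hK : Primrec K) (hs : Primrec s) :
    Primrec fun x => snapAt (n x) (a x) (b x) (H x) (Ps x) (K x) (s x) := by
  unfold snapAt mkSnap
  have h1 : Primrec fun z : α × Hist => cN (H z.1) (Ps z.1) (K z.1) (s z.1) z.2 := by
    apply cN_prim (H := fun z : α × Hist => H z.1)
    · exact hH.comp (g := fun z : (α × Hist) × (List Bool × List Bool) => (z.1.1, z.2))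
        (by fun_prop)
    all_goals fun_prop
  apply Prim.map'
  · fun_prop
  · fun_prop

theorem run_prim {H : α → List Bool → List Bool → Hist} {Ps : α → List (List Bool)}
    {n a b K s : α → ℕ}
    (hH : Primrec fun z : α × (List Bool × List Bool) => H z.1 z.2.1 z.2.2)
    (hn : Primrec n) (ha : Primrec a) (hb : Primrec b)
    (hPs : Primrec Ps) (hK : Primrec K) (hs : Primrec s) :
    Primrec fun x => run (n x) (a x) (b x) (H x) (Ps x) (K x) (s x) := by
  have hsn : Primrec fun z : α × (ℕ × List Snap) =>
      snapAt (n z.1) (a z.1) (b z.1) (H z.1) (Ps z.1) (K z.1) (z.2.1 + 1) := by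
    apply snapAt_prim (H := fun z : α × (ℕ × List Snap) => H z.1)
    · exact hH.comp (g := fun z : (α × (ℕ × List Snap)) × (List Bool × List Bool) => (z.1.1, z.2))
        (by fun_prop)
    all_goals fun_prop
  have key : ∀ sn : α × (ℕ × List Snap) → Snap, Primrec sn →
      Primrec fun z : α × (ℕ × List Snap) =>
        bif (allH (n z.1) (a z.1) (b z.1)).any (fun h =>
          decide (cOf (curS (n z.1) (a z.1) (b z.1) (K z.1 * (Ps z.1).length) z.2.2) h <
          cOf (sn z) h))
        then sn z :: z.2.2 else z.2.2 := by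
    intro sn hsn
    fun_prop
  have h1 := natRec' (α := α) (β := List Snap) (g := fun _ : α => ([] : List Snap))
    (h := fun x k ih =>
      bif (allH (n x) (a x) (b x)).any (fun h =>
        decide (cOf (curS (n x) (a x) (b x) (K x * (Ps x).length) ih) h <
        cOf (snapAt (n x) (a x) (b x) (H x) (Ps x) (K x) (k + 1)) h))
      then snapAt (n x) (a x) (b x) (H x) (Ps x) (K x) (k + 1) :: ih else ih) hs (by fun_prop)
    (key _ hsn)
  refine h1.of_eq fun x => ?_
  induction s x with
  | zero => rfl
  | succ k ih => simp only [run]; rw [← ih]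

end

end Pool.Agent.GWP
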