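import Mathlib

/-!
Derandomised online selection: items arrive one by one and each item is kept `with probability
p`; a potential function keeps the total size of the kept items small and makes the kept items
hit everything that is hit by many items.
-/

namespace Pool.Agent.GWP

open scoped Classical in
/-- The potential function of the selector. -/
noncomputable def selPot {α Ω : Type*} [Fintype Ω] (w : Ω → ℝ) (hit : Ω → α → Prop) (size : α → ℕ)
    (p Tot : ℝ) (L J : List α) : ℝ :=
  (∑ ω, if ∃ C ∈ J, hit ω C then 0 else w ω * (1 + p) ^ (L.countP (fun C => decide (hit ω C)))) +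
    (((J.map size).sum : ℝ) + p * (Tot - ((L.map size).sum : ℝ))) / (2 * p * Tot)

open scoped Classical in
/-- The selected sublist. -/
noncomputable def selPool {α Ω : Type*} [Fintype Ω] (w : Ω → ℝ) (hit : Ω → α → Prop)
    (size : α → ℕ) (p Tot : ℝ) : List α → List α
  | [] => []
  | C :: L => if selPot w hit size p Tot (C :: L) (C :: selPool w hit size p Tot L) ≤
      selPot w hit size p Tot L (selPool w hit size p Tot L)
      then C :: selPool w hit size p Tot L else selPool w hit size p Tot L

section
variable {α Ω : Type*} [Fintype Ω] {w : Ω → ℝ} {hit : Ω → α → Prop}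
  {size : α → ℕ} {p Tot : ℝ}

theorem selPot_average (hw : ∀ ω, 0 ≤ w ω) (hp : 0 < p) (hT : 0 < Tot)
    (C : α) (L J : List α) :
    p * selPot w hit size p Tot (C :: L) (C :: J) + (1 - p) * selPot w hit size p Tot (C :: L) J ≤
      selPot w hit size p Tot L J := by
  classical
  unfold selPot
  set B : ℝ := 2 * p * Tot with hB
  have hBpos : 0 < B := by positivity
  have h2 : p * ((((C :: J).map size).sum : ℝ) + p * (Tot - (((C :: L).map size).sum : ℝ))) / B +
      (1 - p) * (((J.map size).sum : ℝ) + p * (Tot - (((C :: L).map size).sum : ℝ))) / B =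
      (((J.map size).sum : ℝ) + p * (Tot - ((L.map size).sum : ℝ))) / B := by
    rw [← add_div]
    congr 1
    simp only [List.map_cons, List.sum_cons, Nat.cast_add]
    ring
  have h1 : p * (∑ ω, if ∃ D ∈ C :: J, hit ω D then 0 else
        w ω * (1 + p) ^ ((C :: L).countP (fun D => decide (hit ω D)))) +
      (1 - p) * (∑ ω, if ∃ D ∈ J, hit ω D then 0 else
        w ω * (1 + p) ^ ((C :: L).countP (fun D => decide (hit ω D)))) ≤
      ∑ ω, if ∃ D ∈ J, hit ω D then 0 else
        w ω * (1 + p) ^ (L.countP (fun D => decide (hit ω D))) := by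
    rw [Finset.mul_sum, Finset.mul_sum, ← Finset.sum_add_distrib]
    apply Finset.sum_le_sum
    intro ω _
    have hpow : 0 ≤ w ω * (1 + p) ^ (L.countP (fun D => decide (hit ω D))) :=
      mul_nonneg (hw ω) (by positivity)
    by_cases hJ : ∃ D ∈ J, hit ω D
    · have hCJ : ∃ D ∈ C :: J, hit ω D := by
        obtain ⟨D, hD, hh⟩ := hJ
        exact ⟨D, List.mem_cons_of_mem _ hD, hh⟩
      rw [if_pos hCJ, if_pos hJ, if_pos hJ]
      simp
    · by_cases hC : hit ω C
      · have hCJ : ∃ D ∈ C :: J, hit ω D := ⟨C, List.mem_cons_self, hC⟩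
        rw [if_pos hCJ, if_neg hJ, if_neg hJ, List.countP_cons_of_pos (by simpa using hC), pow_succ]
        have h3 : p * 0 + (1 - p) * (w ω * ((1 + p) ^ (L.countP (fun D => decide (hit ω D))) *
            (1 + p))) = w ω * (1 + p) ^ (L.countP (fun D => decide (hit ω D))) * (1 - p ^ 2) := by
          ring
        rw [h3]
        nlinarith [mul_nonneg hpow (sq_nonneg p)]
      · have hCJ : ¬ ∃ D ∈ C :: J, hit ω D := by
          rintro ⟨D, hD, hh⟩
          rcases List.mem_cons.1 hD with rfl | hD
          · exact hC hh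
          · exact hJ ⟨D, hD, hh⟩
        rw [if_neg hCJ, if_neg hJ, if_neg hJ, List.countP_cons_of_neg (by simpa using hC)]
        nlinarith
  calc _ = (p * (∑ ω, if ∃ D ∈ C :: J, hit ω D then 0 else
        w ω * (1 + p) ^ ((C :: L).countP (fun D => decide (hit ω D)))) +
      (1 - p) * (∑ ω, if ∃ D ∈ J, hit ω D then 0 else
        w ω * (1 + p) ^ ((C :: L).countP (fun D => decide (hit ω D))))) +
      (p * ((((C :: J).map size).sum : ℝ) + p * (Tot - (((C :: L).map size).sum : ℝ))) / B +
      (1 - p) * (((J.map size).sum : ℝ) + p * (Tot - (((C :: L).map size).sum : ℝ))) / B) := by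
        ring
    _ ≤ _ := by rw [h2]; linarith

theorem selPot_pool (hw : ∀ ω, 0 ≤ w ω) (hp : 0 < p) (hp1 : p ≤ 1) (hT : 0 < Tot)
    (C : α) (L : List α) :
    selPot w hit size p Tot (C :: L) (selPool w hit size p Tot (C :: L)) ≤
      selPot w hit size p Tot L (selPool w hit size p Tot L) := by
  rw [selPool]
  split_ifs with h
  · exact h
  · have := selPot_average (size := size) (hit := hit) hw hp hT C L (selPool w hit size p Tot L)
    push Not at h
    by_contra hcon
    push Not at hcon
    rcases lt_or_eq_of_le hp1 with h1 | h1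
    · nlinarith [mul_pos hp (sub_pos.2 h), mul_pos (sub_pos.2 h1) (sub_pos.2 hcon)]
    · subst h1; linarith

theorem selPot_le_one (hw : ∀ ω, 0 ≤ w ω) (hsum : ∑ ω, w ω ≤ 1 / 2) (hp : 0 < p) (hp1 : p ≤ 1)
    (hT : 0 < Tot) (L : List α) :
    selPot w hit size p Tot L (selPool w hit size p Tot L) ≤ 1 := by
  induction L with
  | nil =>
    have hnil : selPool w hit size p Tot [] = [] := by rw [selPool]
    rw [hnil]
    unfold selPot
    have h1 : (p * Tot) / (2 * p * Tot) = 1 / 2 := by field_simp
    simp only [List.not_mem_nil, false_and, exists_false, if_false, List.countP_nil, pow_zero,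
      mul_one, List.map_nil, List.sum_nil, Nat.cast_zero, zero_add, sub_zero, h1]
    linarith
  | cons C L ih => exact (selPot_pool hw hp hp1 hT C L).trans ih

open scoped Classical in
/-- The selector lemma. -/
theorem exists_selector (w : Ω → ℝ) (hw : ∀ ω, 0 ≤ w ω) (hsum : ∑ ω, w ω ≤ 1 / 2)
    (hit : Ω → α → Prop) (size : α → ℕ) (p : ℝ) (hp : 0 < p) (hp1 : p ≤ 1) (Tot : ℕ)
    (hT : 0 < Tot) :
    ∃ pool : List α → List α, pool [] = [] ∧
      (∀ C L, pool (C :: L) = C :: pool L ∨ pool (C :: L) = pool L) ∧
      ∀ L, (L.map size).sum ≤ Tot →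
        ((((pool L).map size).sum : ℕ) : ℝ) ≤ 2 * p * Tot ∧
        ∀ ω, (∀ C ∈ pool L, ¬ hit ω C) →
          w ω * (1 + p) ^ (L.countP (fun C => decide (hit ω C))) ≤ 1 := by
  have hT' : (0 : ℝ) < Tot := by exact_mod_cast hT
  refine ⟨selPool w hit size p Tot, by rw [selPool], ?_, ?_⟩
  · intro C L
    rw [selPool]
    split_ifs
    · exact Or.inl rfl
    · exact Or.inr rfl
  · intro L hL
    have h1 := selPot_le_one (hit := hit) (size := size) hw hsum hp hp1 hT' L
    have hterm : ∀ ω, 0 ≤ (if ∃ C ∈ selPool w hit size p Tot L, hit ω C then 0 else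
        w ω * (1 + p) ^ (L.countP (fun C => decide (hit ω C)))) := by
      intro ω
      split_ifs
      · exact le_rfl
      · exact mul_nonneg (hw ω) (by positivity)
    have hs : ((L.map size).sum : ℝ) ≤ Tot := by exact_mod_cast hL
    have hsum1 : 0 ≤ (∑ ω, if ∃ C ∈ selPool w hit size p Tot L, hit ω C then 0 else
        w ω * (1 + p) ^ (L.countP (fun C => decide (hit ω C)))) :=
      Finset.sum_nonneg fun ω _ => hterm ω
    have hsecond : 0 ≤ ((((selPool w hit size p Tot L).map size).sum : ℝ) +
        p * (Tot - ((L.map size).sum : ℝ))) / (2 * p * Tot) := by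
      apply div_nonneg
      · have : (0 : ℝ) ≤ (((selPool w hit size p Tot L).map size).sum : ℕ) := Nat.cast_nonneg _
        have h3 : 0 ≤ p * (Tot - ((L.map size).sum : ℝ)) := mul_nonneg hp.le (by linarith)
        linarith
      · positivity
    unfold selPot at h1
    refine ⟨?_, ?_⟩
    · have h2 : ((((selPool w hit size p Tot L).map size).sum : ℝ) +
        p * (Tot - ((L.map size).sum : ℝ))) / (2 * p * Tot) ≤ 1 := by linarith
      rw [div_le_one (by positivity)] at h2
      have h3 : 0 ≤ p * (Tot - ((L.map size).sum : ℝ)) := mul_nonneg hp.le (by linarith)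
      linarith
    · intro ω hω
      have h2 : (∑ ω, if ∃ C ∈ selPool w hit size p Tot L, hit ω C then 0 else
        w ω * (1 + p) ^ (L.countP (fun C => decide (hit ω C)))) ≤ 1 := by linarith
      have h4 := Finset.single_le_sum (fun ω _ => hterm ω) (Finset.mem_univ ω)
      have h5 : ¬ ∃ C ∈ selPool w hit size p Tot L, hit ω C := by
        rintro ⟨C, hC, hh⟩; exact hω C hC hh
      rw [if_neg h5] at h4
      linarith

end

end Pool.Agent.GWP
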